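import Mathlib

attribute [-instance] RKHS.instFunLike AddQuantale.instAddLeftMono instCharZeroOfIsSemireal
  Module.free_of_finite_type_torsion_free' IdemSemiring.toCanonicallyOrderedAdd
  IdemSemiring.toSemiring NumberField.to_charZero RCLike.charZero_rclike
  AlgHom.instNonUnitalAlgHomClassOfAlgHomClass AddQuantale.instAddRightMono LinearOrder.toDecidableEq
  CompletePartialOrder.toPartialOrder GrpTypeEquivalenceGrp.grpGroup FunLike.toDecidableEq
  instCoeTOfCoeDep IdemSemiring.toMulLeftMono IsOrderedMonoid.toMulLeftMono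
  instCoeHTCTOfCoeTailOfCoeHTC List.instDecidableMemOfLawfulBEq Quantale.instMulRightMono
  instNonUnitalAlgHomClassOfNonUnitalAlgEquivClass IsStrictOrderedRing.noZeroDivisors
  GeneralizedCoheytingAlgebra.toLattice instCoeHTCOfCoeHeadOfCoeOTC instSMulZeroClass
  instCoeOTCOfCoeTC decidableEq_of_subsingleton IsStrictOrderedRing.toCharZero
  Quantale.instMulLeftMono TestFunctionClass.toDFunLike ContDiffMapSupportedInClass.toDFunLike
  FirstOrder.Language.instDecidableEqRelations OmegaCompletePartialOrder.toPartialOrder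
  ContinuousSemilinearMapClass.toSemilinearMapClass LieAdmissibleRing.toNonUnitalNonAssocRing
  LinearOrderedAddCommMonoidWithTop.toAddCommMonoid BooleanRing.toRing FinEnum.decEq

-- part MP_337c4e_co.H33.RepA
section

/-! Vector systems all of whose minimal words have the same weight: definitions, `cnt` API. -/

namespace Pool.Agent.MP_337c4e_co.H33

open Finset Matrix

variable {E : Type} [Fintype E] {ι κ : Type} [Fintype ι] [Fintype κ] {F : Type} [Field F]

open Classical in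
/-- number of elements with property `p` -/
noncomputable def cnt {E : Type} [Fintype E] (p : E → Prop) : ℕ := (univ.filter p).card

/-- weight of the word `l` -/
noncomputable def wt (x : E → ι → F) (l : ι → F) : ℕ := cnt fun e => l ⬝ᵥ x e ≠ 0

/-- `l` is a minimal word -/
def Min (x : E → ι → F) (l : ι → F) : Prop :=
  l ≠ 0 ∧ ∀ m : ι → F, (∀ e, l ⬝ᵥ x e = 0 → m ⬝ᵥ x e = 0) → ∃ t : F, m = t • l

/-- unit vectors occur, minimal words have weight `c` -/
structure Sys0 (x : E → ι → F) (c : ℕ) : Prop where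
  unit : ∀ i, ∃ e, x e i ≠ 0 ∧ ∀ j, j ≠ i → x e j = 0
  eq : ∀ l, Min x l → wt x l = c

/-- moreover any two coordinates have a common support -/
structure Sys (x : E → ι → F) (c : ℕ) : Prop extends Sys0 x c where
  inter : ∀ i j, ∃ e, x e i ≠ 0 ∧ x e j ≠ 0

/-- restriction to some coordinates (contraction of the other basis elements) -/
def res (x : E → ι → F) (f : κ → ι) : E → κ → F := fun e j => x e (f j)

def Span (x : E → ι → F) : Prop := ∀ l : ι → F, (∀ e, l ⬝ᵥ x e = 0) → l = 0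

/-- number of non-zero vectors -/
noncomputable def W (x : E → ι → F) : ℕ := cnt fun e => x e ≠ 0

/-- multiplicity of the projective point `y` -/
noncomputable def mult (x : E → ι → F) (y : ι → F) : ℕ := cnt fun e => ∃ t : F, t ≠ 0 ∧ x e = t • y

def PG (x : E → ι → F) (c : ℕ) : Prop := ∀ l, l ≠ 0 → wt x l = c

def AGw (x : E → ι → F) (c : ℕ) (g : ι → F) : Prop :=
  (∀ e, x e ≠ 0 → g ⬝ᵥ x e ≠ 0) ∧ ∀ l, (∀ t : F, l ≠ t • g) → wt x l = c

def AG (x : E → ι → F) (c : ℕ) : Prop := ∃ g, AGw x c g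

/-- every vector is a multiple of a unit vector or of one vector `u` of full support -/
def UT (x : E → ι → F) : Prop :=
  ∃ u : ι → F, (∀ i, u i ≠ 0) ∧ ∀ e, (∃ i, ∀ j, j ≠ i → x e j = 0) ∨ ∃ s : F, x e = s • u

/-- after rescaling rows and columns, `x` is the system `y` over the subfield `K` -/
def Over (K : Type) [Field K] [Algebra K F] (x : E → ι → F) (y : E → ι → K) : Prop :=
  ∃ β : ι → F, (∀ i, β i ≠ 0) ∧
    ∀ e, ∃ s : F, s ≠ 0 ∧ ∀ i, algebraMap K F (y e i) = s * β i * x e i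

/-- the zero sets of the minimal words -/
def Hs (x : E → ι → F) : Set (Set E) := {H | ∃ l, Min x l ∧ H = {e | l ⬝ᵥ x e = 0}}

def Simple (x : E → ι → F) : Prop :=
  (∀ e, x e ≠ 0) ∧ ∀ (e e' : E) (t : F), x e = t • x e' → e = e'

/-- the pattern `π` occurs on the coordinates `t` -/
def Pres (x : E → ι → F) {r : ℕ} (t : Fin r → ι) (π : Fin r → F) : Prop :=
  ∃ (e : E) (s : F), s ≠ 0 ∧ ∀ a, x e (t a) = s * π a

/-- increasing `r`-tuples of coordinates carry the same patterns -/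
def Homog {R : ℕ} (x : E → Fin R → F) (r : ℕ) : Prop :=
  ∀ t t' : Fin r → Fin R, StrictMono t → StrictMono t' → ∀ π, Pres x t π → Pres x t' π

/-- block design conditions for a family of sets -/
structure Des (S : Set (Set E)) (b k r lam : ℕ) : Prop where
  hb : S.ncard = b
  hk : ∀ H ∈ S, H.ncard = k
  hr : ∀ e, {H | H ∈ S ∧ e ∈ H}.ncard = r
  hl : ∀ e e', e ≠ e' → {H | H ∈ S ∧ e ∈ H ∧ e' ∈ H}.ncard = lam

/-- empirical distribution of the coordinates of `x e` -/
noncomputable def emp {R : ℕ} (x : E → Fin R → F) (e : E) (a : F) : ℝ :=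
  (cnt fun i => x e i = a) / R

open Classical in
/-- law of the empirical distribution, seen from a non-zero coordinate that is scaled to `1` -/
noncomputable def Th [Fintype F] {R : ℕ} (x : E → Fin R → F) (c : ℕ) (g : (F → ℝ) → ℝ) : ℝ :=
  (∑ e, ∑ s, if s = 0 then 0 else emp x e s * g fun z => emp x e (s * z)) / c

/-- autocorrelation -/
noncomputable def rho [Fintype F] (ν : F → ℝ) (z : F) : ℝ := ∑ a, ν a * ν (a + z)

/-- probability of `X 0 - X 1 + β (X 2 - X 3) = 0` -/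
noncomputable def PP [Fintype F] (β : F) (ν : F → ℝ) : ℝ :=
  ∑ b, ∑ b', ν b * ν b' * rho ν (β * (b - b'))

noncomputable def ff [Fintype F] (β : F) (ν : F → ℝ) : ℝ :=
  ∑ b, ν b * (rho ν 0 - rho ν (β * (1 - b)))

/-- normalised positive functional living on `Q` -/
structure PosFn {A : Type} (Q : Set A) (T : (A → ℝ) → ℝ) : Prop where
  add : ∀ g h, T (fun z => g z + h z) = T g + T h
  smul : ∀ (a : ℝ) g, T (fun z => a * g z) = a * T g
  mono : ∀ g h, (∀ z ∈ Q, g z ≤ h z) → T g ≤ T h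
  one : T (fun _ => 1) = 1

/-- support of the limit of the functionals `T B` along `U` -/
def Supp {A : Type} [TopologicalSpace A] (Q : Set A) (T : ℕ → (A → ℝ) → ℝ) (U : Filter ℕ) : Set A :=
  {y | y ∈ Q ∧ ∀ g : A → ℝ, Continuous g → (∀ z ∈ Q, 0 ≤ g z) →
    Filter.Tendsto (fun B => T B g) U (nhds 0) → g y = 0}

section cnt
variable {p q : E → Prop}

lemma cnt_eq (p : E → Prop) [DecidablePred p] : cnt p = (univ.filter p).card := by
  unfold cnt; congr

lemma cnt_congr (h : ∀ e, p e ↔ q e) : cnt p = cnt q := by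
  have : p = q := funext fun e => propext (h e)
  rw [this]

lemma cnt_mono (h : ∀ e, p e → q e) : cnt p ≤ cnt q := by
  classical
  rw [cnt_eq, cnt_eq]
  exact card_le_card fun e he => by simp only [mem_filter, mem_univ, true_and] at he ⊢; exact h e he

lemma cnt_pos : 0 < cnt p ↔ ∃ e, p e := by
  classical
  rw [cnt_eq, card_pos]
  exact ⟨fun ⟨e, he⟩ => ⟨e, (mem_filter.1 he).2⟩, fun ⟨e, he⟩ => ⟨e, mem_filter.2 ⟨mem_univ _, he⟩⟩⟩

lemma cnt_eq_zero : cnt p = 0 ↔ ∀ e, ¬ p e := by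
  rw [← Nat.le_zero, ← not_lt, cnt_pos]; simp only [not_exists]

lemma cnt_split (p q : E → Prop) :
    cnt p = cnt (fun e => p e ∧ q e) + cnt (fun e => p e ∧ ¬ q e) := by
  classical
  rw [cnt_eq, cnt_eq, cnt_eq, ← filter_filter, ← filter_filter,
    Finset.card_filter_add_card_filter_not]

lemma cnt_or_le (p q : E → Prop) : cnt (fun e => p e ∨ q e) ≤ cnt p + cnt q := by
  classical
  rw [cnt_eq, cnt_eq, cnt_eq, filter_or]; exact card_union_le _ _

lemma cnt_or (h : ∀ e, p e → ¬ q e) : cnt (fun e => p e ∨ q e) = cnt p + cnt q := by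
  classical
  rw [cnt_eq, cnt_eq, cnt_eq, filter_or]
  exact card_union_of_disjoint (disjoint_filter.2 fun e _ he => h e he)

lemma cnt_le_card (p : E → Prop) : cnt p ≤ Fintype.card E := by
  classical
  rw [cnt_eq]; exact card_le_univ _

lemma cnt_add_not (p : E → Prop) : cnt p + cnt (fun e => ¬ p e) = Fintype.card E := by
  classical
  rw [cnt_eq, cnt_eq, Finset.card_filter_add_card_filter_not, card_univ]

lemma cnt_eq_ncard (p : E → Prop) : cnt p = {e | p e}.ncard := by
  classical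
  rw [cnt_eq, ← Set.ncard_coe_finset]; congr; ext e; simp only [coe_filter, mem_univ, true_and, Set.mem_ofPred_eq]

open Classical in
lemma cnt_cast (R : Type) [AddCommMonoidWithOne R] (p : E → Prop) :
    (cnt p : R) = ∑ e, if p e then 1 else 0 := by
  rw [cnt_eq, card_filter]; simp only [sum_boole, Nat.cast_id]

/-- splitting according to the value of a function -/
lemma cnt_fiber {A : Type} [Fintype A] (p : E → Prop) (f : E → A) :
    cnt p = ∑ a, cnt (fun e => p e ∧ f e = a) := by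
  classical
  rw [cnt_eq, card_eq_sum_card_fiberwise (f := f) (t := univ) (fun _ _ => mem_univ _)]
  refine sum_congr rfl fun a _ => ?_
  rw [cnt_eq, filter_filter]

/-- double counting -/
lemma sum_cnt_comm {A : Type} [Fintype A] (p : A → E → Prop) :
    ∑ a, cnt (p a) = ∑ e, cnt (fun a => p a e) := by
  classical
  simp only [cnt_eq, card_filter]
  exact sum_comm

lemma cnt_exists_le {A : Type} [Fintype A] (p : A → E → Prop) :
    cnt (fun e => ∃ a, p a e) ≤ ∑ a, cnt (p a) := by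
  classical
  simp only [cnt_eq]
  refine le_trans (card_le_card ?_) card_biUnion_le
  intro e he
  obtain ⟨a, ha⟩ := (mem_filter.1 he).2
  exact mem_biUnion.2 ⟨a, mem_univ _, mem_filter.2 ⟨mem_univ _, ha⟩⟩

end cnt

end Pool.Agent.MP_337c4e_co.H33

namespace Pool.Agent.MP_337c4e_co.H33

open Finset Matrix

variable {E : Type} [Fintype E] {ι κ : Type} [Fintype ι] [Fintype κ] {F : Type} [Field F]
  {x : E → ι → F} {c : ℕ} {l m : ι → F}

theorem dot_extend {f : κ → ι} (hf : Function.Injective f) (l : κ → F) (v : ι → F) :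
    Function.extend f l 0 ⬝ᵥ v = l ⬝ᵥ fun j => v (f j) := by
  refine (Fintype.sum_of_injective f hf _ _ (fun i hi => ?_) fun j => ?_).symm
  · rw [Function.extend_apply' _ _ _ hi, Pi.zero_apply, zero_mul]
  · rw [hf.extend_apply]

theorem wt_res {f : κ → ι} (hf : Function.Injective f) (l : κ → F) :
    wt (res x f) l = wt x (Function.extend f l 0) :=
  cnt_congr fun e => by rw [dot_extend hf]; rfl

theorem basicA_unit {v : ι → F} {i : ι} (hv : ∀ j, j ≠ i → v j = 0) (l : ι → F) :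
    l ⬝ᵥ v = l i * v i :=
  Finset.sum_eq_single i (fun j _ hj => by rw [hv j hj, mul_zero]) fun h => absurd (mem_univ i) h

theorem Sys0.span (h : Sys0 x c) : Span x := by
  intro l hl
  funext i
  obtain ⟨e, he, he'⟩ := h.unit i
  have := hl e
  rw [basicA_unit he'] at this
  exact (mul_eq_zero.1 this).resolve_right he

theorem Sys0.restr (h : Sys0 x c) {f : κ → ι} (hf : Function.Injective f) : Sys0 (res x f) c := by
  refine ⟨fun j => ?_, fun l hl => ?_⟩
  · obtain ⟨e, he, he'⟩ := h.unit (f j)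
    exact ⟨e, he, fun j' hj' => he' _ fun hh => hj' (hf hh)⟩
  rw [wt_res hf]
  refine h.eq _ ⟨fun h0 => hl.1 (funext fun j => ?_), fun m hm => ?_⟩
  · have := congrFun h0 (f j)
    rwa [hf.extend_apply] at this
  have hoff : ∀ i, (¬∃ j, f j = i) → m i = 0 := fun i hi => by
    obtain ⟨e, he, he'⟩ := h.unit i
    have := hm e (by rw [basicA_unit he', Function.extend_apply' _ _ _ hi, Pi.zero_apply, zero_mul])
    rw [basicA_unit he'] at this
    exact (mul_eq_zero.1 this).resolve_right he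
  have hme : m = Function.extend f (fun j => m (f j)) 0 := funext fun i => by
    by_cases hi : ∃ j, f j = i
    · obtain ⟨j, rfl⟩ := hi
      rw [hf.extend_apply]
    · rw [Function.extend_apply' _ _ _ hi, hoff i hi, Pi.zero_apply]
  obtain ⟨t, ht⟩ := hl.2 (fun j => m (f j)) fun e he => by
    have := hm e (by rw [dot_extend hf]; exact he)
    rw [hme, dot_extend hf] at this
    exact this
  refine ⟨t, funext fun i => ?_⟩
  by_cases hi : ∃ j, f j = i
  · obtain ⟨j, rfl⟩ := hi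
    rw [Pi.smul_apply, hf.extend_apply]
    exact congrFun ht j
  · rw [Pi.smul_apply, Function.extend_apply' _ _ _ hi, hoff i hi, Pi.zero_apply, smul_zero]

theorem Sys.restr (h : Sys x c) {f : κ → ι} (hf : Function.Injective f) : Sys (res x f) c :=
  ⟨h.toSys0.restr hf, fun i j => h.inter (f i) (f j)⟩

theorem Sys0.cnt_ne (h : Sys0 x c) (i : ι) : cnt (fun e => x e i ≠ 0) = c := by
  classical
  have hmin : Min x (Pi.single i 1) := by
    refine ⟨fun h0 => one_ne_zero (α := F) (by simpa using congrFun h0 i), fun m hm => ⟨m i, ?_⟩⟩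
    funext j
    by_cases hj : j = i
    · subst hj
      simp
    · obtain ⟨e, he, he'⟩ := h.unit j
      have := hm e (by rw [single_one_dotProduct]; exact he' i (Ne.symm hj))
      rw [basicA_unit he'] at this
      simp [hj, (mul_eq_zero.1 this).resolve_right he]
  rw [← h.eq _ hmin]
  exact cnt_congr fun e => by rw [single_one_dotProduct]

theorem Sys0.pos (h : Sys0 x c) (i : ι) : 0 < c := by
  obtain ⟨e, he, -⟩ := h.unit i
  rw [← h.cnt_ne i]
  exact cnt_pos.2 ⟨e, he⟩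

theorem basicA_min (h : Span x) (hl : l ≠ 0)
    (hw : ∀ n, n ≠ 0 → (∀ e, l ⬝ᵥ x e = 0 → n ⬝ᵥ x e = 0) → wt x l ≤ wt x n) : Min x l := by
  refine ⟨hl, fun n hn => ?_⟩
  obtain ⟨e₀, he₀⟩ : ∃ e, l ⬝ᵥ x e ≠ 0 := by
    by_contra hc
    exact hl (h l fun e => by_contra fun he => hc ⟨e, he⟩)
  refine ⟨n ⬝ᵥ x e₀ / l ⬝ᵥ x e₀, sub_eq_zero.1 (by_contra fun hne => ?_)⟩
  set n' := n - (n ⬝ᵥ x e₀ / l ⬝ᵥ x e₀) • l with hn'
  have hz : ∀ e, l ⬝ᵥ x e = 0 → n' ⬝ᵥ x e = 0 := fun e he => by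
    rw [hn', sub_dotProduct, smul_dotProduct, hn e he, he, smul_zero, sub_zero]
  have h0 : n' ⬝ᵥ x e₀ = 0 := by
    rw [hn', sub_dotProduct, smul_dotProduct, smul_eq_mul, div_mul_cancel₀ _ he₀, sub_self]
  have h1 := hw n' hne hz
  have h2 := cnt_split (fun e => l ⬝ᵥ x e ≠ 0) fun e => n' ⬝ᵥ x e ≠ 0
  have h3 : 0 < cnt fun e => l ⬝ᵥ x e ≠ 0 ∧ ¬n' ⬝ᵥ x e ≠ 0 :=
    cnt_pos.2 ⟨e₀, he₀, not_not.2 h0⟩
  have h4 : cnt (fun e => l ⬝ᵥ x e ≠ 0 ∧ n' ⬝ᵥ x e ≠ 0) = wt x n' :=
    cnt_congr fun e => ⟨fun he => he.2, fun he => ⟨fun h' => he (hz e h'), he⟩⟩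
  unfold wt at h1 h4
  omega

theorem Span.exists_min (h : Span x) (hl : l ≠ 0) :
    ∃ m, Min x m ∧ ∀ e, l ⬝ᵥ x e = 0 → m ⬝ᵥ x e = 0 := by
  obtain ⟨m, hm, hmin⟩ := (measure (wt x)).wf.has_min
    {m | m ≠ 0 ∧ ∀ e, l ⬝ᵥ x e = 0 → m ⬝ᵥ x e = 0} ⟨l, hl, fun _ he => he⟩
  exact ⟨m, basicA_min h hm.1 fun n hn hz =>
    not_lt.1 (hmin n ⟨hn, fun e he => hz e (hm.2 e he)⟩), hm.2⟩

theorem Sys0.le_wt (h : Sys0 x c) (hl : l ≠ 0) : c ≤ wt x l := by
  obtain ⟨m, hm, hz⟩ := h.span.exists_min hl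
  rw [← h.eq m hm]
  exact cnt_mono fun e he h' => he (hz e h')

theorem Span.min_of_wt (h : Span x) (hc : ∀ m, m ≠ 0 → c ≤ wt x m) (hl : l ≠ 0)
    (hw : wt x l = c) : Min x l :=
  basicA_min h hl fun n hn _ => hw ▸ hc n hn

theorem Sys0.union [Fintype F] (h : Sys0 x c) (hl : l ≠ 0) (hm : ∀ t : F, m ≠ t • l) :
    c * (Fintype.card F + 1) ≤ Fintype.card F * cnt (fun e => l ⬝ᵥ x e ≠ 0 ∨ m ⬝ᵥ x e ≠ 0) := by
  classical
  have h1 : ∀ t : F, c ≤ cnt fun e => m ⬝ᵥ x e + t * l ⬝ᵥ x e ≠ 0 := fun t => by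
    have := h.le_wt (l := m + t • l) fun h0 => hm (-t) (by rw [neg_smul]; exact eq_neg_of_add_eq_zero_left h0)
    simpa only [wt, add_dotProduct, smul_dotProduct, smul_eq_mul] using this
  have h2 := sum_le_sum fun t (_ : t ∈ (univ : Finset F)) => h1 t
  rw [sum_const, card_univ, smul_eq_mul, sum_cnt_comm] at h2
  have h3 := cnt_cast ℕ fun e => l ⬝ᵥ x e ≠ 0
  have h4 := cnt_cast ℕ fun e => l ⬝ᵥ x e ≠ 0 ∨ m ⬝ᵥ x e ≠ 0
  rw [Nat.cast_id] at h3 h4
  have h5 : wt x l + ∑ e, cnt (fun t : F => m ⬝ᵥ x e + t * l ⬝ᵥ x e ≠ 0) ≤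
      Fintype.card F * cnt (fun e => l ⬝ᵥ x e ≠ 0 ∨ m ⬝ᵥ x e ≠ 0) := by
    rw [wt, h3, h4, ← sum_add_distrib, mul_sum]
    refine sum_le_sum fun e _ => ?_
    have h6 := cnt_add_not fun t : F => m ⬝ᵥ x e + t * l ⬝ᵥ x e ≠ 0
    by_cases ha : l ⬝ᵥ x e = 0
    · by_cases hb : m ⬝ᵥ x e = 0
      · simp only [ha, ne_eq, not_true_eq_false, ↓ reduceIte, hb, mul_zero, add_zero, zero_add, or_self, nonpos_iff_eq_zero, cnt_eq_zero, not_false_eq_true, implies_true]
      · rw [if_neg (not_not.2 ha), if_pos (Or.inr hb)]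
        omega
    · have h7 : 0 < cnt fun t : F => ¬ m ⬝ᵥ x e + t * l ⬝ᵥ x e ≠ 0 :=
        cnt_pos.2 ⟨-(m ⬝ᵥ x e / l ⬝ᵥ x e), not_not.2 (by field_simp; ring)⟩
      rw [if_pos ha, if_pos (Or.inl ha)]
      omega
  have h8 := h.le_wt hl
  rw [mul_add, mul_comm c]
  omega

theorem Sys0.gap [Fintype F] (h : Sys0 x c) (hl : l ≠ 0) (hw : wt x l ≠ c) :
    c * (Fintype.card F + 1) ≤ Fintype.card F * wt x l := by
  have h1 : ¬ Min x l := fun hM => hw (h.eq l hM)
  simp only [Min, not_and, not_forall, not_exists] at h1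
  obtain ⟨m, hm, hm'⟩ := h1 hl
  refine (h.union hl hm').trans (le_of_eq ?_)
  rw [wt]
  congr 1
  exact cnt_congr fun e => ⟨fun he => he.elim id fun hb ha => hb (hm e ha), Or.inl⟩

theorem Sys0.pair (h : Sys0 x c) (hl : wt x l = c) (hm : ∀ t : F, m ≠ t • l)
    (hmod : ∀ n : ι → F, (∀ e, l ⬝ᵥ x e = 0 → m ⬝ᵥ x e = 0 → n ⬝ᵥ x e = 0) →
      ∃ s t : F, n = s • l + t • m) (β : F) :
    cnt (fun e => l ⬝ᵥ x e ≠ 0 ∧ m ⬝ᵥ x e = β * l ⬝ᵥ x e) = 0 ∨
    cnt (fun e => l ⬝ᵥ x e ≠ 0 ∧ m ⬝ᵥ x e = β * l ⬝ᵥ x e) =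
      cnt (fun e => l ⬝ᵥ x e = 0 ∧ m ⬝ᵥ x e ≠ 0) := by
  refine (Nat.eq_zero_or_pos _).imp_right fun hp => ?_
  obtain ⟨e₀, ha, hb⟩ := cnt_pos.1 hp
  have hn : ∀ e, (m - β • l) ⬝ᵥ x e = m ⬝ᵥ x e - β * l ⬝ᵥ x e := fun e => by
    rw [sub_dotProduct, smul_dotProduct, smul_eq_mul]
  have hM : Min x (m - β • l) := by
    refine ⟨fun h0 => hm β (sub_eq_zero.1 h0), fun n hn' => ?_⟩
    obtain ⟨s, t, rfl⟩ := hmod n fun e h1 h2 => hn' e (by rw [hn, h1, h2]; ring)
    have h1 := hn' e₀ (by rw [hn, hb, sub_self])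
    rw [add_dotProduct, smul_dotProduct, smul_dotProduct, smul_eq_mul, smul_eq_mul, hb, ← mul_assoc,
      ← add_mul, mul_eq_zero, or_iff_left ha] at h1
    refine ⟨t, ?_⟩
    rw [eq_neg_of_add_eq_zero_left h1, smul_sub, smul_smul, neg_smul]
    abel
  have h1 := h.eq _ hM
  rw [wt, cnt_split _ fun e => l ⬝ᵥ x e = 0] at h1
  rw [wt, cnt_split _ fun e => m ⬝ᵥ x e = β * l ⬝ᵥ x e] at hl
  have h2 : cnt (fun e => (m - β • l) ⬝ᵥ x e ≠ 0 ∧ l ⬝ᵥ x e = 0) =
      cnt fun e => l ⬝ᵥ x e = 0 ∧ m ⬝ᵥ x e ≠ 0 :=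
    cnt_congr fun e => by
      rw [hn, and_comm]
      exact and_congr_right fun h0 => by rw [h0, mul_zero, sub_zero]
  have h3 : cnt (fun e => (m - β • l) ⬝ᵥ x e ≠ 0 ∧ ¬ l ⬝ᵥ x e = 0) =
      cnt fun e => l ⬝ᵥ x e ≠ 0 ∧ ¬ m ⬝ᵥ x e = β * l ⬝ᵥ x e :=
    cnt_congr fun e => by rw [hn, and_comm, sub_ne_zero]
  omega

theorem Sys0.cpair (h : Sys0 x c) {i j : ι} (hij : i ≠ j) (β : F) :
    cnt (fun e => x e i ≠ 0 ∧ x e j = β * x e i) = 0 ∨
    cnt (fun e => x e i ≠ 0 ∧ x e j = β * x e i) = cnt (fun e => x e i = 0 ∧ x e j ≠ 0) := by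
  classical
  have := h.pair (l := Pi.single i 1) (m := Pi.single j 1)
    (by simpa only [wt, single_one_dotProduct] using h.cnt_ne i)
    (fun t ht => by simpa [hij.symm] using congrFun ht j) (fun n hn => ⟨n i, n j, funext fun k => by
      by_cases hi : k = i
      · simp [hi, hij]
      by_cases hj : k = j
      · simp [hj, hij.symm]
      obtain ⟨e, he, he'⟩ := h.unit k
      have h1 := hn e (by rw [single_one_dotProduct, he' i (Ne.symm hi)])
        (by rw [single_one_dotProduct, he' j (Ne.symm hj)])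
      rw [dotProduct, sum_eq_single k (fun b _ hb => by rw [he' b hb, mul_zero]) (by simp only [mem_univ, not_true_eq_false, mul_eq_zero, IsEmpty.forall_iff]),
        mul_eq_zero, or_iff_left he] at h1
      simp [h1, hi, hj]⟩) β
  simpa only [single_one_dotProduct] using this

theorem Sys0.cpair_zero (h : Sys0 x c) (i j : ι) :
    cnt (fun e => x e i ≠ 0 ∧ x e j = 0) = cnt (fun e => x e i = 0 ∧ x e j ≠ 0) := by
  have h1 := h.cnt_ne i
  have h2 := h.cnt_ne j
  rw [cnt_split _ fun e => x e j = 0] at h1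
  rw [cnt_split _ fun e => x e i = 0] at h2
  have h3 : cnt (fun e => x e j ≠ 0 ∧ x e i = 0) = cnt fun e => x e i = 0 ∧ x e j ≠ 0 :=
    cnt_congr fun e => and_comm
  have h4 : cnt (fun e => x e j ≠ 0 ∧ ¬ x e i = 0) = cnt fun e => x e i ≠ 0 ∧ ¬ x e j = 0 :=
    cnt_congr fun e => and_comm
  omega

theorem Sys0.half (h : Sys0 x c) {i j : ι} (hij : i ≠ j) (hi : ∃ e, x e i ≠ 0 ∧ x e j ≠ 0) :
    2 * cnt (fun e => x e i = 0 ∧ x e j ≠ 0) ≤ c := by
  obtain ⟨e₀, ha, hb⟩ := hi
  have h1 := h.cnt_ne i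
  rw [cnt_split _ fun e => x e j = 0, h.cpair_zero i j] at h1
  have h2 := (h.cpair hij (x e₀ j / x e₀ i)).resolve_left
    (cnt_pos.2 ⟨e₀, ha, (div_mul_cancel₀ _ ha).symm⟩).ne'
  have h3 : cnt (fun e => x e i ≠ 0 ∧ x e j = x e₀ j / x e₀ i * x e i) ≤
      cnt fun e => x e i ≠ 0 ∧ ¬ x e j = 0 :=
    cnt_mono fun e he => ⟨he.1, by rw [he.2]; exact mul_ne_zero (div_ne_zero hb ha) he.1⟩
  omega

theorem Sys0.q_d [Fintype F] (h : Sys0 x c) {i j : ι} (hij : i ≠ j) :
    c ≤ Fintype.card F * cnt (fun e => x e i = 0 ∧ x e j ≠ 0) := by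
  rw [← h.cnt_ne i, cnt_fiber _ fun e => x e j / x e i, ← smul_eq_mul, ← card_univ, ← sum_const]
  refine sum_le_sum fun β _ => ?_
  have h1 : cnt (fun e => x e i ≠ 0 ∧ x e j / x e i = β) =
      cnt fun e => x e i ≠ 0 ∧ x e j = β * x e i :=
    cnt_congr fun e => and_congr_right fun he => div_eq_iff he
  have := h.cpair hij β
  omega

end Pool.Agent.MP_337c4e_co.H33

namespace Pool.Agent.MP_337c4e_co.H33

open Finset Matrix

variable {E : Type} [Fintype E] {ι κ : Type} [Fintype ι] [Fintype κ] {F : Type} [Field F]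
  {K : Type} [Field K] [Algebra K F] {x : E → ι → F} {y : E → ι → K} {c : ℕ}

theorem Over.zero_iff (h : Over K x y) (e : E) (i : ι) : y e i = 0 ↔ x e i = 0 := by
  obtain ⟨β, hβ, hs⟩ := h
  obtain ⟨s, hs0, hs⟩ := hs e
  rw [← map_eq_zero_iff (algebraMap K F) (algebraMap K F).injective, hs i]
  simp [hs0, hβ i]

theorem Over.restr (h : Over K x y) (f : κ → ι) : Over K (res x f) (res y f) := by
  obtain ⟨β, hβ, hs⟩ := h
  refine ⟨fun j => β (f j), fun j => hβ _, fun e => ?_⟩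
  obtain ⟨s, hs0, hs⟩ := hs e
  exact ⟨s, hs0, fun j => hs (f j)⟩

theorem ovr_phi (φ : F →ₗ[K] K) (m : ι → F) (v : ι → K) :
    (fun i => φ (m i)) ⬝ᵥ v = φ (m ⬝ᵥ fun i => algebraMap K F (v i)) := by
  simp only [dotProduct, map_sum]
  refine sum_congr rfl fun i _ => ?_
  rw [mul_comm (m i), ← Algebra.smul_def, map_smul, smul_eq_mul, mul_comm]

theorem ovr_dot {β : ι → F} {v : ι → K} {w : ι → F}
    (hs : ∃ s : F, s ≠ 0 ∧ ∀ i, algebraMap K F (v i) = s * β i * w i) (m : ι → F) :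
    (m ⬝ᵥ fun i => algebraMap K F (v i)) = 0 ↔ (fun i => m i * β i) ⬝ᵥ w = 0 := by
  obtain ⟨s, hs0, hs⟩ := hs
  have h1 : (m ⬝ᵥ fun i => algebraMap K F (v i)) = s * ((fun i => m i * β i) ⬝ᵥ w) := by
    simp only [dotProduct, mul_sum, hs]
    exact sum_congr rfl fun i _ => by ring
  rw [h1, mul_eq_zero, or_iff_right hs0]

theorem ovr_div {β : ι → F} (hβ : ∀ i, β i ≠ 0) {v : ι → K} {w : ι → F}
    (hs : ∃ s : F, s ≠ 0 ∧ ∀ i, algebraMap K F (v i) = s * β i * w i) (m : ι → F) :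
    ((fun i => m i / β i) ⬝ᵥ fun i => algebraMap K F (v i)) = 0 ↔ m ⬝ᵥ w = 0 := by
  rw [ovr_dot hs]
  simp only [div_mul_cancel₀ _ (hβ _)]

theorem ovr_zero {β : ι → F} {v : ι → K} {w : ι → F}
    (hs : ∃ s : F, s ≠ 0 ∧ ∀ i, algebraMap K F (v i) = s * β i * w i) (l : ι → K) :
    l ⬝ᵥ v = 0 ↔ (fun i => algebraMap K F (l i) * β i) ⬝ᵥ w = 0 := by
  rw [← ovr_dot hs, ← map_eq_zero_iff (algebraMap K F) (algebraMap K F).injective]
  simp only [dotProduct, map_sum, map_mul]

/-- base change for one functional -/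
theorem smul_of_base {S : Set (ι → K)} {a : ι → K} (ha : a ≠ 0)
    (h : ∀ a' : ι → K, (∀ v ∈ S, a' ⬝ᵥ v = 0) → ∃ t : K, a' = t • a) (m : ι → F)
    (hm : ∀ v ∈ S, (m ⬝ᵥ fun i => algebraMap K F (v i)) = 0) :
    ∃ t : F, m = t • fun i => algebraMap K F (a i) := by
  obtain ⟨i0, hi0⟩ := Function.ne_iff.1 ha
  have hi0' : algebraMap K F (a i0) ≠ 0 := (map_ne_zero_iff _ (algebraMap K F).injective).2 hi0
  refine ⟨m i0 / algebraMap K F (a i0), funext fun i => ?_⟩
  have h1 : a i0 • m i - a i • m i0 = 0 := by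
    refine (Module.forall_dual_apply_eq_zero_iff K _).1 fun φ => ?_
    obtain ⟨t, ht⟩ := h (fun i => φ (m i)) fun v hv => by rw [ovr_phi, hm v hv, map_zero]
    have h2 : ∀ j, φ (m j) = t * a j := fun j => congrFun ht j
    rw [map_sub, map_smul, map_smul, h2, h2, smul_eq_mul, smul_eq_mul]
    ring
  rw [Algebra.smul_def, Algebra.smul_def, sub_eq_zero] at h1
  rw [Pi.smul_apply, smul_eq_mul]
  field_simp
  linear_combination h1

theorem ovr_min_up {β : ι → F} (hβ : ∀ i, β i ≠ 0)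
    (hs : ∀ e, ∃ s : F, s ≠ 0 ∧ ∀ i, algebraMap K F (y e i) = s * β i * x e i) {l : ι → K}
    (hl : Min y l) : Min x fun i => algebraMap K F (l i) * β i := by
  refine ⟨?_, fun m hm => ?_⟩
  · obtain ⟨i0, hi0⟩ := Function.ne_iff.1 hl.1
    exact Function.ne_iff.2 ⟨i0, mul_ne_zero
      ((map_ne_zero_iff _ (algebraMap K F).injective).2 hi0) (hβ i0)⟩
  · obtain ⟨t, ht⟩ := smul_of_base (F := F) (S := {v | ∃ e, l ⬝ᵥ y e = 0 ∧ v = y e}) hl.1
      (fun a' ha' => hl.2 a' fun e he => ha' _ ⟨e, he, rfl⟩) (fun i => m i / β i)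
      (by
        rintro v ⟨e, he, rfl⟩
        exact (ovr_div hβ (hs e) m).2 (hm e ((ovr_zero (hs e) l).1 he)))
    refine ⟨t, funext fun i => ?_⟩
    have h1 : m i / β i = t * algebraMap K F (l i) := congrFun ht i
    rw [div_eq_iff (hβ i)] at h1
    rw [h1, Pi.smul_apply, smul_eq_mul, mul_assoc]

theorem ovr_min_down {β : ι → F} (hβ : ∀ i, β i ≠ 0)
    (hs : ∀ e, ∃ s : F, s ≠ 0 ∧ ∀ i, algebraMap K F (y e i) = s * β i * x e i) {L : ι → F}
    (hL : Min x L) : ∃ l, Min y l ∧ ∀ e, (L ⬝ᵥ x e = 0 ↔ l ⬝ᵥ y e = 0) := by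
  obtain ⟨i0, hi0⟩ := Function.ne_iff.1 hL.1
  have h0 : L i0 / β i0 ≠ 0 := div_ne_zero hi0 (hβ i0)
  obtain ⟨φ, hφ⟩ := not_forall.1 fun h => h0 ((Module.forall_dual_apply_eq_zero_iff K _).1 h)
  set l : ι → K := fun i => φ (L i / β i) with hl
  have hl0 : l i0 ≠ 0 := hφ
  have hl0' : algebraMap K F (l i0) ≠ 0 := (map_ne_zero_iff _ (algebraMap K F).injective).2 hl0
  have h1 : ∀ e, L ⬝ᵥ x e = 0 → l ⬝ᵥ y e = 0 := fun e he => by
    rw [hl, ovr_phi φ (fun i => L i / β i), (ovr_div hβ (hs e) L).2 he, map_zero]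
  obtain ⟨t, ht⟩ := hL.2 _ fun e he => (ovr_zero (hs e) l).1 (h1 e he)
  have ht' : ∀ i, algebraMap K F (l i) * β i = t * L i := fun i => congrFun ht i
  have ht0 : t ≠ 0 := left_ne_zero_of_mul (ht' i0 ▸ mul_ne_zero hl0' (hβ i0))
  have h2 : ∀ e, L ⬝ᵥ x e = 0 ↔ l ⬝ᵥ y e = 0 := fun e => by
    rw [ovr_zero (hs e) l, ht, smul_dotProduct, smul_eq_zero, or_iff_right ht0]
  refine ⟨l, ⟨Function.ne_iff.2 ⟨i0, hl0⟩, fun m hm => ?_⟩, h2⟩
  obtain ⟨u, hu⟩ := hL.2 _ fun e he => (ovr_zero (hs e) m).1 (hm e (h1 e he))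
  have hu' : ∀ i, algebraMap K F (m i) * β i = u * L i := fun i => congrFun hu i
  refine ⟨m i0 / l i0, funext fun i => ?_⟩
  rw [Pi.smul_apply, smul_eq_mul, div_mul_eq_mul_div, eq_div_iff hl0]
  apply (algebraMap K F).injective
  rw [map_mul, map_mul]
  refine mul_right_cancel₀ (mul_ne_zero (hβ i) (hβ i0)) ?_
  linear_combination (algebraMap K F (l i0) * β i0) * hu' i + (u * L i) * ht' i0 -
    (algebraMap K F (l i) * β i) * hu' i0 - (u * L i0) * ht' i

theorem Over.hs (h : Over K x y) : Hs x = Hs y := by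
  obtain ⟨β, hβ, hs⟩ := h
  ext H
  constructor
  · rintro ⟨L, hL, rfl⟩
    obtain ⟨l, hl, he⟩ := ovr_min_down hβ hs hL
    exact ⟨l, hl, Set.ext he⟩
  · rintro ⟨l, hl, rfl⟩
    exact ⟨_, ovr_min_up hβ hs hl, Set.ext fun e => ovr_zero (hs e) l⟩

theorem Over.sys (h : Over K x y) (hx : Sys x c) : Sys y c := by
  have hz := h.zero_iff
  obtain ⟨β, hβ, hs⟩ := h
  refine ⟨⟨fun i => ?_, fun l hl => ?_⟩, fun i j => ?_⟩
  · simpa only [ne_eq, hz] using hx.unit i
  · rw [← hx.eq _ (ovr_min_up hβ hs hl)]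
    exact cnt_congr fun e => not_congr (ovr_zero (hs e) l)
  · simpa only [ne_eq, hz] using hx.inter i j

theorem Over.simple (h : Over K x y) (hx : Simple x) : Simple y := by
  have hz := h.zero_iff
  obtain ⟨β, hβ, hs⟩ := h
  refine ⟨fun e he => hx.1 e (funext fun i => (hz e i).1 (congrFun he i)), fun e e' t ht => ?_⟩
  obtain ⟨s, hs0, h1⟩ := hs e
  obtain ⟨s', -, h2⟩ := hs e'
  refine hx.2 e e' (algebraMap K F t * s' / s) (funext fun i => ?_)
  have h3 : y e i = t * y e' i := congrFun ht i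
  have h4 := h1 i
  rw [h3, map_mul, h2 i] at h4
  rw [Pi.smul_apply, smul_eq_mul, div_mul_eq_mul_div, eq_div_iff hs0]
  refine mul_right_cancel₀ (hβ i) ?_
  linear_combination -h4

theorem Over.span (h : Over K x y) (hy : Span y) : Span x := by
  obtain ⟨β, hβ, hs⟩ := h
  intro L hL
  funext i
  have h1 : L i / β i = 0 := by
    refine (Module.forall_dual_apply_eq_zero_iff K _).1 fun φ => ?_
    refine congrFun (hy (fun i => φ (L i / β i)) fun e => ?_) i
    rw [ovr_phi φ (fun i => L i / β i), (ovr_div hβ (hs e) L).2 (hL e), map_zero]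
  exact (div_eq_zero_iff.1 h1).resolve_right (hβ i)

theorem Sys.scale (hx : Sys x c) {s : E → F} {β : ι → F} (hs : ∀ e, s e ≠ 0) (hβ : ∀ i, β i ≠ 0) :
    Sys (fun e i => s e * β i * x e i) c := by
  exact Over.sys (K := F) ⟨β, hβ, fun e => ⟨s e, hs e, fun _ => rfl⟩⟩ hx

theorem over_map (y : E → ι → K) : Over K (fun e i => algebraMap K F (y e i)) y := by
  exact ⟨fun _ => 1, fun _ => one_ne_zero, fun e => ⟨1, one_ne_zero, fun i => by simp⟩⟩

theorem exists_over (K : Subfield F)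
    (h : ∀ e i j, x e i ≠ 0 → ∃ a ∈ K, x e j = a * x e i) : ∃ y : E → ι → K, Over K x y := by
  have h1 : ∀ e, ∃ s : F, s ≠ 0 ∧ ∀ j, s * x e j ∈ K := by
    intro e
    by_cases h0 : ∃ i, x e i ≠ 0
    · obtain ⟨i, hi⟩ := h0
      refine ⟨(x e i)⁻¹, inv_ne_zero hi, fun j => ?_⟩
      obtain ⟨a, ha, hj⟩ := h e i j hi
      rw [hj, mul_comm a, inv_mul_cancel_left₀ hi]
      exact ha
    · refine ⟨1, one_ne_zero, fun j => ?_⟩
      rw [not_not.1 (not_exists.1 h0 j), mul_zero]
      exact K.zero_mem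
  choose s hs0 hs using h1
  exact ⟨fun e j => ⟨s e * x e j, hs e j⟩, fun _ => 1, fun _ => one_ne_zero,
    fun e => ⟨s e, hs0 e, fun i => by rw [mul_one]; rfl⟩⟩

end Pool.Agent.MP_337c4e_co.H33

namespace Pool.Agent.MP_337c4e_co.H33

open Finset Matrix

variable {E : Type} [Fintype E] {ι : Type} [Fintype ι] [DecidableEq ι] {K : Type} [Field K]
  [Fintype K] {x : E → ι → K} {c : ℕ}

theorem countA_fib {A B : Type} [AddGroup A] [AddGroup B] [Fintype A] [Fintype B] (f : A →+ B)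
    (hf : Function.Surjective f) (b : B) :
    cnt (fun l => f l = b) * Fintype.card B = Fintype.card A := by
  classical
  have h1 : ∀ b', cnt (fun l => True ∧ f l = b') = cnt (fun l => f l = b) := fun b' => by
    simp only [true_and, cnt_eq]
    exact AddMonoidHom.card_fiber_eq_of_mem_range f (hf b') (hf b)
  have h2 := cnt_fiber (fun _ : A => True) f
  simp only [h1, sum_const, card_univ, smul_eq_mul] at h2
  rw [mul_comm, ← h2, cnt_eq]
  simp

theorem card_dot {y : ι → K} (hy : y ≠ 0) (a : K) :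
    cnt (fun l : ι → K => l ⬝ᵥ y = a) * Fintype.card K = Fintype.card K ^ Fintype.card ι := by
  obtain ⟨i, hi⟩ := Function.ne_iff.1 hy
  have := countA_fib (A := ι → K) (B := K)
    (AddMonoidHom.mk' (fun l => l ⬝ᵥ y) fun l m => add_dotProduct l m y)
    (fun b => ⟨Pi.single i (b / y i), by simp only [AddMonoidHom.mk'_apply, single_dotProduct, div_mul_cancel₀ _ hi]⟩) a
  simpa only [AddMonoidHom.mk'_apply, Fintype.card_pi, prod_const, card_univ] using this

theorem card_dot2 {y z : ι → K} (hy : y ≠ 0) (hz : ∀ t : K, z ≠ t • y) (a b : K) :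
    cnt (fun l : ι → K => l ⬝ᵥ y = a ∧ l ⬝ᵥ z = b) * Fintype.card K ^ 2 =
      Fintype.card K ^ Fintype.card ι := by
  obtain ⟨i, hi⟩ := Function.ne_iff.1 hy
  obtain ⟨j, hj⟩ := Function.ne_iff.1 (hz (z i / y i))
  have hi' : y i ≠ 0 := hi
  have hD : y i * z j - z i * y j ≠ 0 := fun h => hj (by
    simp only [Pi.smul_apply, smul_eq_mul]
    field_simp
    linear_combination h)
  have := countA_fib (A := ι → K) (B := K × K)
    (AddMonoidHom.mk' (fun l => (l ⬝ᵥ y, l ⬝ᵥ z)) fun l m => by simp only [add_dotProduct, Prod.mk_add_mk])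
    (fun b => ⟨Pi.single i ((b.1 * z j - b.2 * y j) / (y i * z j - z i * y j)) +
      Pi.single j ((b.2 * y i - b.1 * z i) / (y i * z j - z i * y j)), by
        simp only [AddMonoidHom.mk'_apply, add_dotProduct, single_dotProduct]
        ext <;> simp only [div_mul_eq_mul_div, ← add_div] <;> rw [div_eq_iff hD] <;> ring⟩) (a, b)
  simpa only [sq, AddMonoidHom.mk'_apply, Prod.mk.injEq, Fintype.card_prod, Fintype.card_pi, prod_const, card_univ] using this

theorem total (x : E → ι → K) :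
    (∑ l, (wt x l : ℝ)) * Fintype.card K =
      W x * (Fintype.card K - 1) * (Fintype.card K : ℝ) ^ Fintype.card ι := by
  classical
  have h1 : ∀ e, (cnt (fun l : ι → K => l ⬝ᵥ x e ≠ 0) : ℝ) * Fintype.card K =
      (if x e ≠ 0 then 1 else 0) * (Fintype.card K - 1) * (Fintype.card K : ℝ) ^ Fintype.card ι := by
    intro e
    by_cases he : x e = 0
    · simp only [he, dotProduct_zero, ne_eq, not_true_eq_false, cnt_eq, filter_false, card_empty, CharP.cast_eq_zero, zero_mul, ↓ reduceIte]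
    · have a1 := congrArg (Nat.cast : ℕ → ℝ) (card_dot he 0)
      have a2 := congrArg (Nat.cast : ℕ → ℝ) (cnt_add_not fun l : ι → K => l ⬝ᵥ x e = 0)
      simp only [Fintype.card_fun] at a2
      push_cast at a1 a2
      rw [if_pos he]
      linear_combination (Fintype.card K : ℝ) * a2 - a1
  have h2 := congrArg (Nat.cast : ℕ → ℝ) (sum_cnt_comm fun (l : ι → K) e => l ⬝ᵥ x e ≠ 0)
  push_cast at h2
  unfold wt W
  rw [h2, sum_mul, cnt_cast ℝ fun e => x e ≠ 0, sum_mul, sum_mul]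
  refine sum_congr rfl fun e _ => ?_
  rw [h1 e]
  congr

open Classical in
theorem radon (x : E → ι → K) {y : ι → K} (hy : y ≠ 0) :
    (∑ l, if l ⬝ᵥ y = 0 then (wt x l : ℝ) else 0) * (Fintype.card K : ℝ) ^ 2 =
      (W x - mult x y) * (Fintype.card K - 1) * (Fintype.card K : ℝ) ^ Fintype.card ι := by
  have h1 : ∀ e, (cnt (fun l : ι → K => l ⬝ᵥ y = 0 ∧ ¬ l ⬝ᵥ x e = 0) : ℝ) * (Fintype.card K : ℝ) ^ 2 =
      (if ∀ t : K, x e ≠ t • y then 1 else 0) * (Fintype.card K - 1) *
        (Fintype.card K : ℝ) ^ Fintype.card ι := by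
    intro e
    by_cases he : ∀ t : K, x e ≠ t • y
    · have a1 := congrArg (Nat.cast : ℕ → ℝ) (card_dot hy 0)
      have a2 := congrArg (Nat.cast : ℕ → ℝ) (card_dot2 hy he 0 0)
      have a3 := congrArg (Nat.cast : ℕ → ℝ)
        (cnt_split (fun l : ι → K => l ⬝ᵥ y = 0) fun l => l ⬝ᵥ x e = 0)
      push_cast at a1 a2 a3
      rw [if_pos he]
      linear_combination (Fintype.card K : ℝ) * a1 - a2 - (Fintype.card K : ℝ) ^ 2 * a3
    · rw [if_neg he]
      push Not at he
      obtain ⟨t, ht⟩ := he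
      rw [cnt_eq_zero.2 fun l hl => hl.2 (by rw [ht, dotProduct_smul, hl.1, smul_zero])]
      simp only [CharP.cast_eq_zero, zero_mul]
  have h2 := congrArg (Nat.cast : ℕ → ℝ)
    (sum_cnt_comm fun (l : ι → K) e => l ⬝ᵥ y = 0 ∧ ¬ l ⬝ᵥ x e = 0)
  push_cast at h2
  have h3 : ∀ l : ι → K, (if l ⬝ᵥ y = 0 then (wt x l : ℝ) else 0) =
      cnt fun e => l ⬝ᵥ y = 0 ∧ ¬ l ⬝ᵥ x e = 0 := by
    intro l
    split_ifs with h
    · simp only [wt, ne_eq, h, true_and]
    · simp only [h, false_and, cnt_eq, filter_false, card_empty, CharP.cast_eq_zero]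
  have h4 : W x = mult x y + cnt fun e => ∀ t : K, x e ≠ t • y := by
    rw [W, cnt_split _ fun e => ∃ t : K, x e = t • y, mult]
    congr 1
    · refine cnt_congr fun e => ⟨fun ⟨a, t, b⟩ => ⟨t, ?_, b⟩, fun ⟨t, a, b⟩ => ⟨?_, t, b⟩⟩
      · rintro rfl
        exact a (by simpa using b)
      · rw [b]
        exact smul_ne_zero a hy
    · exact cnt_congr fun e => ⟨fun h t ht => h.2 ⟨t, ht⟩,
        fun h => ⟨fun h0 => h 0 (by simpa using h0), fun ⟨t, ht⟩ => h t ht⟩⟩
  simp only [h3]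
  rw [h2, h4, sum_mul, Nat.cast_add, add_sub_cancel_left,
    cnt_cast ℝ fun e => ∀ t : K, x e ≠ t • y, sum_mul, sum_mul]
  refine sum_congr rfl fun e _ => ?_
  rw [h1 e]
  congr

open Classical in
theorem countB_cov {y z : ι → K} (hy : y ≠ 0) (hz : z ≠ 0) (a b : K) :
    ∑ l : ι → K, ((if l ⬝ᵥ y = a then (1 : ℝ) else 0) - 1 / Fintype.card K) *
        ((if l ⬝ᵥ z = b then (1 : ℝ) else 0) - 1 / Fintype.card K) ≤
      (Fintype.card K : ℝ) ^ Fintype.card ι * if ∃ t : K, t ≠ 0 ∧ z = t • y then 1 else 0 := by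
  have hq : (0 : ℝ) < Fintype.card K := by exact_mod_cast Fintype.card_pos
  set q : ℝ := (Fintype.card K : ℝ) with hqd
  set Q : ℝ := q ^ Fintype.card ι with hQ
  have h1 : ∀ {y : ι → K}, y ≠ 0 → ∀ a : K,
      (∑ l : ι → K, if l ⬝ᵥ y = a then (1 : ℝ) else 0) = Q / q := by
    intro y hy a
    rw [← cnt_cast ℝ (fun l : ι → K => l ⬝ᵥ y = a), eq_div_iff hq.ne', hQ, hqd]
    exact_mod_cast card_dot hy a
  have hc : (∑ _l : ι → K, (1 : ℝ)) = Q := by simp only [sum_const, card_univ, Fintype.card_pi, prod_const, nsmul_eq_mul, Nat.cast_pow, mul_one, hQ, hqd]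
  have e : ∑ l : ι → K, ((if l ⬝ᵥ y = a then (1 : ℝ) else 0) - 1 / q) *
      ((if l ⬝ᵥ z = b then (1 : ℝ) else 0) - 1 / q) =
      (cnt (fun l : ι → K => l ⬝ᵥ y = a ∧ l ⬝ᵥ z = b) : ℝ) - Q / q ^ 2 := by
    have : ∀ l : ι → K, ((if l ⬝ᵥ y = a then (1 : ℝ) else 0) - 1 / q) *
        ((if l ⬝ᵥ z = b then (1 : ℝ) else 0) - 1 / q) =
        (if l ⬝ᵥ y = a ∧ l ⬝ᵥ z = b then (1 : ℝ) else 0) -
          1 / q * (if l ⬝ᵥ y = a then (1 : ℝ) else 0) -
          1 / q * (if l ⬝ᵥ z = b then (1 : ℝ) else 0) + (1 / q) ^ 2 * 1 := by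
      intro l
      by_cases h : l ⬝ᵥ y = a <;> by_cases h' : l ⬝ᵥ z = b <;> simp only [h, ↓ reduceIte, one_div, h', and_self, mul_one, inv_pow, zero_sub, mul_neg, and_false, mul_zero, sub_zero, neg_mul, and_true, sub_self, neg_neg, zero_add] <;> ring
    rw [sum_congr rfl fun l _ => this l, sum_add_distrib, sum_sub_distrib, sum_sub_distrib,
      ← mul_sum, ← mul_sum, ← mul_sum, h1 hy, h1 hz, hc, cnt_cast ℝ]
    have : ∀ u v : ℝ, u = v → u - 1 / q * (Q / q) - 1 / q * (Q / q) + (1 / q) ^ 2 * Q =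
        v - Q / q ^ 2 := by
      intro u v h; rw [h]; field_simp; ring
    exact this _ _ (sum_congr rfl fun l _ => by congr)
  rw [e]
  split_ifs with h
  · have : (cnt (fun l : ι → K => l ⬝ᵥ y = a ∧ l ⬝ᵥ z = b) : ℝ) ≤ Q := by
      rw [hQ, hqd]
      exact_mod_cast (cnt_le_card _).trans (by simp only [Fintype.card_pi, prod_const, card_univ, Std.le_refl])
    have : 0 ≤ Q / q ^ 2 := by positivity
    linarith
  · have h2 := card_dot2 hy (z := z) (fun t ht => h ⟨t, fun h0 => hz (by rw [ht, h0, zero_smul]), ht⟩) a b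
    have : (cnt (fun l : ι → K => l ⬝ᵥ y = a ∧ l ⬝ᵥ z = b) : ℝ) = Q / q ^ 2 := by
      rw [eq_div_iff (by positivity), hQ, hqd]
      exact_mod_cast h2
    rw [this]; simp

theorem var (x : E → ι → K) (G : E → Prop) (a : E → K) (w : ℕ) (hG : ∀ e, G e → x e ≠ 0)
    (hw : ∀ y, y ≠ 0 → mult x y ≤ w) :
    ∑ l : ι → K, ((cnt (fun e => G e ∧ l ⬝ᵥ x e = a e) : ℝ) - cnt G / Fintype.card K) ^ 2 ≤
      (Fintype.card K : ℝ) ^ Fintype.card ι * w * cnt G := by
  classical
  set q : ℝ := (Fintype.card K : ℝ) with hqd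
  set Q : ℝ := q ^ Fintype.card ι with hQ
  have hQ0 : 0 ≤ Q := by positivity
  set d : E → (ι → K) → ℝ := fun e l => (if l ⬝ᵥ x e = a e then (1 : ℝ) else 0) - 1 / q with hd
  have e1 : ∀ l : ι → K, (cnt (fun e => G e ∧ l ⬝ᵥ x e = a e) : ℝ) - cnt G / q =
      ∑ e ∈ univ.filter G, d e l := by
    intro l
    rw [hd, sum_sub_distrib, sum_const, ← sum_filter, sum_const, filter_filter, cnt_eq, cnt_eq G]
    simp only [div_eq_mul_inv, nsmul_eq_mul, mul_one, one_mul]
  simp only [e1, sq, sum_mul_sum]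
  rw [sum_comm]
  calc ∑ e ∈ univ.filter G, ∑ l : ι → K, ∑ e' ∈ univ.filter G, d e l * d e' l
      ≤ ∑ _e ∈ univ.filter G, Q * w := by
        refine sum_le_sum fun e he => ?_
        have hx := hG e (mem_filter.1 he).2
        rw [sum_comm]
        calc ∑ e' ∈ univ.filter G, ∑ l : ι → K, d e l * d e' l
            ≤ ∑ e' ∈ univ.filter G, Q * if ∃ t : K, t ≠ 0 ∧ x e' = t • x e then 1 else 0 :=
              sum_le_sum fun e' he' => by
                convert countB_cov hx (hG e' (mem_filter.1 he').2) (a e) (a e')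
          _ ≤ ∑ e', Q * if ∃ t : K, t ≠ 0 ∧ x e' = t • x e then 1 else 0 :=
              sum_le_sum_of_subset_of_nonneg (filter_subset _ _) fun _ _ _ => by positivity
          _ = Q * mult x (x e) := by
              rw [← mul_sum, mult, cnt_cast ℝ]
              congr!
          _ ≤ Q * w := mul_le_mul_of_nonneg_left (by exact_mod_cast hw _ hx) hQ0
    _ = Q * w * cnt G := by rw [sum_const, cnt_eq G, nsmul_eq_mul, mul_comm]

open Classical in
theorem countA_sum (h : PG x c) (p : (ι → K) → Prop) (h0 : p 0) :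
    (∑ l, if p l then (wt x l : ℝ) else 0) = c * (cnt p - 1) := by
  have h1 : ∀ l, (if p l then (wt x l : ℝ) else 0) =
      c * ((if p l then 1 else 0) - if l = 0 then 1 else 0) := by
    intro l
    by_cases hl : l = 0
    · simp only [hl, h0, ↓ reduceIte, wt, zero_dotProduct, ne_eq, not_true_eq_false, cnt_eq, filter_false, card_empty, CharP.cast_eq_zero, sub_self, mul_zero]
    · rw [h l hl]
      simp [hl]
  simp only [h1]
  rw [← mul_sum, sum_sub_distrib, ← cnt_cast]
  simp only [sum_ite_eq', mem_univ, ↓ reduceIte]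

theorem PG.W_eq (h : PG x c) :
    (W x : ℝ) * (Fintype.card K - 1) * (Fintype.card K : ℝ) ^ Fintype.card ι =
      c * ((Fintype.card K : ℝ) ^ Fintype.card ι - 1) * Fintype.card K := by
  have h1 := countA_sum h (fun _ => True) trivial
  have h2 : cnt (fun _ : ι → K => True) = Fintype.card K ^ Fintype.card ι := by simp only [cnt_eq, filter_true, card_univ, Fintype.card_pi, prod_const]
  simp only [if_true] at h1
  rw [← total, h1, h2]
  simp only [Nat.cast_pow]

theorem PG.W_le (h : PG x c) : W x ≤ 2 * c := by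
  have h1 := h.W_eq
  have hq : (2 : ℝ) ≤ Fintype.card K := by exact_mod_cast Fintype.one_lt_card
  have hQ : (0 : ℝ) < (Fintype.card K : ℝ) ^ Fintype.card ι := by positivity
  have hc : (0 : ℝ) ≤ c := Nat.cast_nonneg c
  have h2 : (W x : ℝ) * (Fintype.card K - 1) ≤ c * Fintype.card K := by
    refine le_of_mul_le_mul_right ?_ hQ
    rw [h1]
    linarith only [mul_nonneg hc (by linarith only [hq] : (0 : ℝ) ≤ Fintype.card K)]
  have h3 : (W x : ℝ) ≤ 2 * c := by
    refine le_of_mul_le_mul_right (a := (Fintype.card K : ℝ) - 1) ?_ (by linarith)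
    linarith only [mul_nonneg hc (sub_nonneg.2 hq), h2]
  exact_mod_cast h3

theorem PG.mult_eq (h : PG x c) {y : ι → K} (hy : y ≠ 0) :
    mult x y * Fintype.card K ^ Fintype.card ι = c * Fintype.card K := by
  have h1 := h.W_eq
  have h2 := radon x hy
  have h3 := countA_sum h (fun l => l ⬝ᵥ y = 0) (by simp only [zero_dotProduct])
  have h4 := congrArg (Nat.cast : ℕ → ℝ) (card_dot hy 0)
  have hq : (2 : ℝ) ≤ Fintype.card K := by exact_mod_cast Fintype.one_lt_card
  push_cast at h4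
  rw [h3] at h2
  have h5 : (mult x y : ℝ) * (Fintype.card K : ℝ) ^ Fintype.card ι = c * Fintype.card K := by
    refine mul_right_cancel₀ (b := (Fintype.card K : ℝ) - 1) (by linarith only [hq]) ?_
    linear_combination h2 + h1 - c * (Fintype.card K : ℝ) * h4
  exact_mod_cast h5

/-- Chebyshev in a projective system: boundedly many atypical functionals -/
theorem PG.cheb (h : PG x c) (hc : 0 < c) (G : E → Prop) (a : E → K) (hG : ∀ e, G e → x e ≠ 0)
    {ε : ℝ} (hε : 0 < ε) :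
    (cnt (fun l : ι → K => ε * c ≤
      |(cnt (fun e => G e ∧ l ⬝ᵥ x e = a e) : ℝ) - cnt G / Fintype.card K|) : ℝ) ≤
      2 * Fintype.card K / ε ^ 2 := by
  classical
  have hc' : (0 : ℝ) < c := by exact_mod_cast hc
  have hN : 0 < Fintype.card K ^ Fintype.card ι := pow_pos Fintype.card_pos _
  have hv := var x G a (c * Fintype.card K / Fintype.card K ^ Fintype.card ι) hG fun y hy => by
    rw [← h.mult_eq hy, Nat.mul_div_cancel _ hN]
  have h1 : (Fintype.card K : ℝ) ^ Fintype.card ι *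
      ((c * Fintype.card K / Fintype.card K ^ Fintype.card ι : ℕ) : ℝ) ≤ c * Fintype.card K := by
    exact_mod_cast Nat.mul_div_le _ _
  have h2 : (cnt G : ℝ) ≤ 2 * c := by exact_mod_cast (cnt_mono hG).trans h.W_le
  have h3 := hv.trans (mul_le_mul h1 h2 (by positivity) (by positivity))
  rw [le_div_iff₀ (by positivity), cnt_cast ℝ, sum_mul]
  refine le_of_mul_le_mul_right ?_ (by positivity : (0 : ℝ) < c ^ 2)
  rw [sum_mul]
  refine (sum_le_sum fun l _ => ?_).trans (h3.trans (le_of_eq (by ring)))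
  split_ifs with hl
  · rw [one_mul, ← mul_pow, ← sq_abs (_ - _)]
    exact pow_le_pow_left₀ (by positivity) hl 2
  · simpa only [zero_mul] using sq_nonneg _

end Pool.Agent.MP_337c4e_co.H33

end

-- part MP_337c4e_co.H33.RepB
section

namespace Pool.Agent.MP_337c4e_co.H33

open Finset Matrix

variable {E : Type} [Fintype E] {ι κ : Type} [Fintype ι] [DecidableEq ι] [Fintype κ]
  {K : Type} [Field K] [Fintype K] {x : E → ι → K} {c : ℕ} {g : ι → K}

open Classical in
/-- excess of the weight of a word -/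
noncomputable def finA_eps (x : E → ι → K) (c : ℕ) (l : ι → K) : ℝ :=
  if l = 0 then 0 else (wt x l : ℝ) - c

omit [DecidableEq ι] [Fintype K] in
lemma finA_nonneg (h : Sys0 x c) (l : ι → K) : 0 ≤ finA_eps x c l := by
  unfold finA_eps
  split_ifs with hl
  · exact le_rfl
  · have : (c : ℝ) ≤ wt x l := by exact_mod_cast h.le_wt hl
    linarith

omit [DecidableEq ι] [Fintype K] in
open Classical in
lemma finA_wt (x : E → ι → K) (c : ℕ) (l : ι → K) :
    (wt x l : ℝ) = finA_eps x c l + c - if l = 0 then (c : ℝ) else 0 := by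
  unfold finA_eps
  split_ifs with hl
  · have : wt x l = 0 := cnt_eq_zero.2 fun e => by simp only [hl, zero_dotProduct, ne_eq, not_true_eq_false, not_false_eq_true]
    simp [this]
  · ring

lemma finA_total (x : E → ι → K) (c : ℕ) :
    ((∑ l, finA_eps x c l) + c * ((Fintype.card K : ℝ) ^ Fintype.card ι - 1)) * Fintype.card K =
      W x * (Fintype.card K - 1) * (Fintype.card K : ℝ) ^ Fintype.card ι := by
  classical
  rw [← total x, sum_congr rfl fun l _ => finA_wt x c l]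
  simp only [sum_sub_distrib, sum_add_distrib, sum_ite_eq', mem_univ, if_true, sum_const, card_univ,
    Fintype.card_fun, nsmul_eq_mul]
  push_cast; ring

open Classical in
lemma finA_star (x : E → ι → K) (c : ℕ) {z : ι → K} (hz : z ≠ 0) :
    (mult x z : ℝ) * (Fintype.card K - 1) * (Fintype.card K : ℝ) ^ Fintype.card ι =
      Fintype.card K * (c * (Fintype.card K - 1) + (∑ l, finA_eps x c l) -
        Fintype.card K * ∑ l, if l ⬝ᵥ z = 0 then finA_eps x c l else 0) := by
  have h1 := finA_total x c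
  have h2 := radon x hz
  have h3 : (cnt (fun l : ι → K => l ⬝ᵥ z = 0) : ℝ) * Fintype.card K =
      (Fintype.card K : ℝ) ^ Fintype.card ι := by exact_mod_cast card_dot hz 0
  have h4 : (∑ l, if l ⬝ᵥ z = 0 then (wt x l : ℝ) else 0) =
      (∑ l, if l ⬝ᵥ z = 0 then finA_eps x c l else 0) +
        c * (cnt (fun l : ι → K => l ⬝ᵥ z = 0) : ℝ) - c := by
    have : (c : ℝ) = ∑ l : ι → K, if l = 0 then (c : ℝ) else 0 := by simp only [sum_ite_eq', mem_univ, ↓ reduceIte]
    rw [cnt_cast, mul_sum, ← sum_add_distrib]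
    nth_rewrite 2 [this]
    rw [← sum_sub_distrib]
    refine sum_congr rfl fun l _ => ?_
    rw [finA_wt x c l]
    by_cases hl : l = 0
    · simp only [hl, zero_dotProduct, ↓ reduceIte, add_sub_cancel_right, mul_one]
    · split_ifs <;> simp
  rw [h4] at h2
  linear_combination h2 - h1 - c * Fintype.card K * h3

open Classical in
lemma finA_le (h : Sys0 x c) (z : ι → K) :
    (∑ l, if l ⬝ᵥ z = 0 then finA_eps x c l else 0) ≤ ∑ l, finA_eps x c l :=
  sum_le_sum fun l _ => by split_ifs; exacts [le_rfl, finA_nonneg h l]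

open Classical in
lemma finA_eq_iff (h : Sys0 x c) (z : ι → K) :
    (∑ l, if l ⬝ᵥ z = 0 then finA_eps x c l else 0) = ∑ l, finA_eps x c l ↔
      ∀ l, l ≠ 0 → wt x l ≠ c → l ⬝ᵥ z = 0 := by
  rw [sum_eq_sum_iff_of_le fun l _ => by split_ifs; exacts [le_rfl, finA_nonneg h l]]
  constructor
  · intro H l hl hw
    by_contra hz
    have := H l (mem_univ _)
    rw [if_neg hz, finA_eps, if_neg hl] at this
    exact hw (by exact_mod_cast (by linarith : (wt x l : ℝ) = c))
  · intro H l _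
    split_ifs with hz
    · rfl
    · unfold finA_eps
      split_ifs with hl
      · rfl
      · have : wt x l = c := by by_contra hw; exact hz (H l hl hw)
        simp [this]

lemma finA_sep {a b : ι → K} (ha : a ≠ 0) (hb : ∀ t : K, b ≠ t • a) :
    ∃ z, a ⬝ᵥ z = 0 ∧ b ⬝ᵥ z ≠ 0 := by
  have h1 := card_dot2 ha hb 0 1
  have h2 : 0 < cnt (fun l : ι → K => l ⬝ᵥ a = 0 ∧ l ⬝ᵥ b = 1) := by
    refine Nat.pos_of_ne_zero fun h0 => ?_
    rw [h0, zero_mul] at h1
    exact (pow_pos Fintype.card_pos _).ne h1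
  obtain ⟨z, h3, h4⟩ := cnt_pos.1 h2
  exact ⟨z, by rwa [dotProduct_comm], by rw [dotProduct_comm, h4]; exact one_ne_zero⟩

theorem pg_or_ag (h : Sys0 x c) {y : ι → K} (hy : y ≠ 0)
    (hU : ∀ l, l ≠ 0 → wt x l ≠ c → l ⬝ᵥ y = 0) : PG x c ∨ AG x c := by
  classical
  by_cases hP : PG x c
  · exact Or.inl hP
  right
  have hq : (1 : ℝ) < Fintype.card K := by exact_mod_cast Fintype.one_lt_card
  have hQ : (0 : ℝ) < (Fintype.card K : ℝ) ^ Fintype.card ι := by positivity
  have hq1 : (0 : ℝ) < Fintype.card K - 1 := by linarith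
  have hT : ∑ l, finA_eps x c l ≤ c := by
    have h1 := finA_star x c hy
    rw [(finA_eq_iff h y).2 hU] at h1
    have h2 : (0 : ℝ) ≤ (mult x y : ℝ) * (Fintype.card K - 1) *
      (Fintype.card K : ℝ) ^ Fintype.card ι := by positivity
    rw [h1] at h2
    have h3 := nonneg_of_mul_nonneg_right h2 (by linarith only [hq])
    nlinarith only [hq, h3]
  obtain ⟨γ, hγ, hw⟩ : ∃ γ, γ ≠ 0 ∧ wt x γ ≠ c := by
    by_contra hc; push Not at hc; exact hP hc
  obtain ⟨m, hm, hm'⟩ : ∃ m : ι → K, (∀ e, γ ⬝ᵥ x e = 0 → m ⬝ᵥ x e = 0) ∧ ∀ t : K, m ≠ t • γ := by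
    by_contra hc; push Not at hc; exact hw (h.eq γ ⟨hγ, hc⟩)
  have key : ∀ z, γ ⬝ᵥ z = 0 → m ⬝ᵥ z ≠ 0 → (c : ℝ) = ∑ l, finA_eps x c l ∧
      ∀ l, l ≠ 0 → wt x l ≠ c → l ⬝ᵥ z = 0 := by
    intro z h1 h2
    have hz : z ≠ 0 := by rintro rfl; simp only [dotProduct_zero, ne_eq, not_true_eq_false] at h2
    have h3 : mult x z = 0 := cnt_eq_zero.2 fun e ⟨t, ht, he⟩ => by
      have := hm e (by rw [he, dotProduct_smul, h1, smul_zero])
      rw [he, dotProduct_smul, smul_eq_mul] at this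
      exact h2 ((mul_eq_zero.1 this).resolve_left ht)
    have h4 := finA_star x c hz
    rw [h3, Nat.cast_zero, zero_mul, zero_mul] at h4
    have h5 := (mul_eq_zero.1 h4.symm).resolve_left (by linarith only [hq])
    have h6 := finA_le h z
    have h7 : (c : ℝ) = ∑ l, finA_eps x c l := by nlinarith only [hq, hT, h5, h6]
    refine ⟨h7, (finA_eq_iff h z).1 ?_⟩
    refine mul_left_cancel₀ (a := (Fintype.card K : ℝ)) (by linarith only [hq]) ?_
    rw [← h7] at h5 ⊢
    linarith only [h5]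
  obtain ⟨z1, hz1, hz1'⟩ := finA_sep hγ hm'
  have hmul : ∀ l, l ≠ 0 → wt x l ≠ c → ∃ t : K, l = t • γ := by
    intro l hl hlw
    by_contra hc
    push Not at hc
    obtain ⟨z, hz, hz'⟩ := finA_sep hγ hc
    by_cases hmz : m ⬝ᵥ z = 0
    · have h1 := (key (z + z1) (by rw [dotProduct_add, hz, hz1, add_zero])
        (by rwa [dotProduct_add, hmz, zero_add])).2 l hl hlw
      rw [dotProduct_add, (key z1 hz1 hz1').2 l hl hlw, add_zero] at h1
      exact hz' h1
    · exact hz' ((key z hz hmz).2 l hl hlw)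
  refine ⟨γ, fun e he h0 => ?_, fun l hl => ?_⟩
  · have h1 := finA_star x c he
    rw [(finA_eq_iff h (x e)).2 fun l hl hlw => by
      obtain ⟨t, rfl⟩ := hmul l hl hlw
      rw [smul_dotProduct, h0, smul_zero], ← (key z1 hz1 hz1').1] at h1
    have h2 : (0 : ℝ) < mult x (x e) := by
      have : 0 < mult x (x e) := cnt_pos.2 ⟨e, 1, one_ne_zero, (one_smul _ _).symm⟩
      exact_mod_cast this
    have h3 := mul_pos (mul_pos h2 hq1) hQ
    linarith
  · by_contra hlw
    obtain ⟨t, ht⟩ := hmul l (by simpa using hl 0) hlw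
    exact hl t ht

theorem pg_of_W (h : Sys0 x c)
    (hW : (W x : ℝ) * (Fintype.card K - 1) * (Fintype.card K : ℝ) ^ Fintype.card ι <
      c * (((Fintype.card K : ℝ) ^ Fintype.card ι - 1) * Fintype.card K + 1)) : PG x c := by
  intro l hl
  by_contra hw
  have h1 := finA_total x c
  have h2 : (c : ℝ) * (Fintype.card K + 1) ≤ Fintype.card K * wt x l := by
    exact_mod_cast h.gap hl hw
  have h3 : finA_eps x c l ≤ ∑ l, finA_eps x c l :=
    single_le_sum (fun l _ => finA_nonneg h l) (mem_univ l)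
  rw [finA_eps, if_neg hl] at h3
  have hq : (0 : ℝ) < Fintype.card K := by exact_mod_cast Fintype.card_pos
  nlinarith only [hW, h1, h2, h3]

theorem AGw.ne (h : AGw x c g) (h0 : Sys0 x c) (i : ι) : g i ≠ 0 := by
  obtain ⟨e, he, hz⟩ := h0.unit i
  intro hi
  refine h.1 e (fun h' => he (by rw [h']; rfl)) (Finset.sum_eq_zero fun j _ => ?_)
  by_cases hj : j = i
  · rw [hj, hi, zero_mul]
  · rw [hz j hj, mul_zero]

theorem AGw.wt_g (h : AGw x c g) {t : K} (ht : t ≠ 0) : wt x (t • g) = W x := by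
  refine cnt_congr fun e => ?_
  rw [smul_dotProduct, smul_eq_mul]
  exact ⟨fun h1 h2 => h1 (by rw [h2, dotProduct_zero, mul_zero]), fun h1 => mul_ne_zero ht (h.1 e h1)⟩

theorem finB_wt_zero (x : E → ι → K) : wt x 0 = 0 :=
  cnt_eq_zero.2 fun e he => he (zero_dotProduct _)

theorem finB_q : (2 : ℝ) ≤ Fintype.card K := by
  exact_mod_cast Fintype.one_lt_card

theorem finB_sum_mul (hg : g ≠ 0) (F : (ι → K) → ℝ) (hF : ∀ l, (∀ t : K, l ≠ t • g) → F l = 0) :
    ∑ l, F l = ∑ t : K, F (t • g) :=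
  (Fintype.sum_of_injective (fun t : K => t • g) (smul_left_injective K hg) _ _
    (fun l hl => hF l fun t ht => hl ⟨t, ht.symm⟩) fun _ => rfl).symm

theorem AGw.W_eq (h : AGw x c g) (hg : g ≠ 0) (hN : 2 ≤ Fintype.card ι) :
    (W x : ℝ) * (Fintype.card K - 1) = Fintype.card K * c := by
  classical
  have h1 : ∑ l, ((wt x l : ℝ) - c) = ∑ t : K, ((wt x (t • g) : ℝ) - c) :=
    finB_sum_mul hg _ fun l hl => by rw [h.2 l hl, sub_self]
  have h2 : ∑ t : K, (wt x (t • g) : ℝ) = ∑ t : K, ((W x : ℝ) - if t = 0 then (W x : ℝ) else 0) := by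
    refine sum_congr rfl fun t _ => ?_
    by_cases ht : t = 0
    · simp [ht, finB_wt_zero]
    · simp [ht, h.wt_g ht]
  have h3 := total x
  simp only [sum_sub_distrib, sum_const, card_univ, nsmul_eq_mul, Fintype.card_fun, Nat.cast_pow,
    sum_ite_eq', mem_univ, if_true] at h1 h2
  have hq := finB_q (K := K)
  have h4 : (Fintype.card K : ℝ) ^ 1 < (Fintype.card K : ℝ) ^ Fintype.card ι :=
    pow_lt_pow_right₀ (by linarith only [hq]) (by omega)
  refine mul_right_cancel₀ (sub_pos.2 h4).ne' ?_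
  linear_combination (Fintype.card K : ℝ) * h1 + (Fintype.card K : ℝ) * h2 - h3

theorem AGw.mult_eq (h : AGw x c g) (hg : g ≠ 0) (hN : 2 ≤ Fintype.card ι) {y : ι → K}
    (hy : g ⬝ᵥ y ≠ 0) :
    (mult x y : ℝ) * (Fintype.card K - 1) * (Fintype.card K : ℝ) ^ Fintype.card ι =
      c * (Fintype.card K : ℝ) ^ 2 := by
  classical
  have hy0 : y ≠ 0 := fun h' => hy (by rw [h', dotProduct_zero])
  have h1 : ∑ l, (if l ⬝ᵥ y = 0 then (wt x l : ℝ) - c else 0) =
      ∑ t : K, (if (t • g) ⬝ᵥ y = 0 then (wt x (t • g) : ℝ) - c else 0) :=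
    finB_sum_mul hg (fun l => if l ⬝ᵥ y = 0 then (wt x l : ℝ) - c else 0) fun l hl => by
      simp only [h.2 l hl, sub_self, ite_self]
  have h2 : ∑ t : K, (if (t • g) ⬝ᵥ y = 0 then (wt x (t • g) : ℝ) - c else 0) = -c := by
    rw [Finset.sum_eq_single 0]
    · simp only [zero_smul, zero_dotProduct, ↓ reduceIte, finB_wt_zero, CharP.cast_eq_zero, zero_sub]
    · intro t _ ht
      rw [if_neg]
      rw [smul_dotProduct, smul_eq_mul]
      exact mul_ne_zero ht hy
    · simp only [mem_univ, not_true_eq_false, zero_smul, zero_dotProduct, ↓ reduceIte, IsEmpty.forall_iff]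
  have h3 : ∑ l, (if l ⬝ᵥ y = 0 then (wt x l : ℝ) - c else 0) =
      ∑ l, (if l ⬝ᵥ y = 0 then (wt x l : ℝ) else 0) - c * cnt (fun l : ι → K => l ⬝ᵥ y = 0) := by
    rw [cnt_cast, mul_sum, ← sum_sub_distrib]
    refine sum_congr rfl fun l _ => ?_
    by_cases hl : l ⬝ᵥ y = 0 <;> simp only [hl, ↓ reduceIte, mul_one, mul_zero, sub_self]
  have h4 : (cnt (fun l : ι → K => l ⬝ᵥ y = 0) : ℝ) * Fintype.card K =
      (Fintype.card K : ℝ) ^ Fintype.card ι := by exact_mod_cast card_dot hy0 0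
  have h5 := radon x hy0
  have h6 := h.W_eq hg hN
  have h7 : ∑ l, (if l ⬝ᵥ y = 0 then (wt x l : ℝ) else 0) =
      c * cnt (fun l : ι → K => l ⬝ᵥ y = 0) - c := by linarith only [h1, h2, h3]
  have h8 : (c * cnt (fun l : ι → K => l ⬝ᵥ y = 0) - c : ℝ) * (Fintype.card K : ℝ) ^ 2 =
      (W x - mult x y) * (Fintype.card K - 1) * (Fintype.card K : ℝ) ^ Fintype.card ι := by
    rw [← h7]
    convert h5
  linear_combination h8 - c * (Fintype.card K : ℝ) * h4 + (Fintype.card K : ℝ) ^ Fintype.card ι * h6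

theorem finB_ext_ne {f : κ → ι} (hf : Function.Injective f) {l : κ → K} (hl : l ≠ 0) :
    Function.extend f l 0 ≠ 0 := fun h => hl (funext fun j => by
  have := congrFun h (f j)
  rwa [hf.extend_apply] at this)

theorem PG.restr (h : PG x c) {f : κ → ι} (hf : Function.Injective f) : PG (res x f) c := by
  intro l hl
  rw [wt_res hf]
  exact h _ (finB_ext_ne hf hl)

theorem AG.restr (h : AG x c) (h0 : Sys0 x c) {f : κ → ι} (hf : Function.Injective f)
    (hs : ¬ Function.Surjective f) : PG (res x f) c := by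
  obtain ⟨g, hg⟩ := h
  intro l hl
  rw [wt_res hf]
  refine hg.2 _ fun t ht => ?_
  obtain ⟨i, hi⟩ : ∃ i, ¬ ∃ j, f j = i := not_forall.1 hs
  have h1 := congrFun ht i
  rw [Function.extend_apply' _ _ _ hi, Pi.zero_apply, Pi.smul_apply, smul_eq_mul] at h1
  have h2 : t = 0 := (mul_eq_zero.1 h1.symm).resolve_right (hg.ne h0 i)
  rw [h2, zero_smul] at ht
  exact finB_ext_ne hf hl ht

theorem AG.restr_bij (h : AG x c) {f : κ → ι} (hf : Function.Bijective f) : AG (res x f) c := by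
  obtain ⟨g, hg⟩ := h
  have h1 : Function.extend f (fun j => g (f j)) 0 = g := funext fun i => by
    obtain ⟨j, rfl⟩ := hf.2 i
    rw [hf.1.extend_apply]
  refine ⟨fun j => g (f j), fun e he => ?_, fun l hl => ?_⟩
  · have h2 := dot_extend hf.1 (fun j => g (f j)) (x e)
    rw [h1] at h2
    have h3 : x e ≠ 0 := fun h' => he (funext fun j => by simp [res, h'])
    have h4 := hg.1 e h3
    rw [h2] at h4
    exact h4
  · rw [wt_res hf.1]
    refine hg.2 _ fun t ht => hl t (funext fun j => ?_)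
    have := congrFun ht (f j)
    rwa [hf.1.extend_apply] at this

theorem not_all_ag (h : Sys0 x c) (hN : Fintype.card K ^ 4 < Fintype.card ι)
    (hA : ∀ a : ι, AG (res x (Subtype.val : {j // j ≠ a} → ι)) c) : False := by
  classical
  choose γ hγ using hA
  have hq := finB_q (K := K)
  have hq' : 2 ≤ Fintype.card K := Fintype.one_lt_card
  have h16 : 2 ^ 4 ≤ Fintype.card K ^ 4 := Nat.pow_le_pow_left hq' 4
  have hcard : ∀ a : ι, Fintype.card {j // j ≠ a} + 1 = Fintype.card ι := fun a => by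
    have h1 : Fintype.card {j // j ≠ a} = Fintype.card ι - 1 := by simp only [ne_eq, Fintype.card_subtype_compl, Fintype.card_unique]
    omega
  have hN2 : ∀ a : ι, 2 ≤ Fintype.card {j // j ≠ a} := fun a => by have := hcard a; omega
  have hne : ∀ a j, γ a j ≠ 0 := fun a j => (hγ a).ne (h.restr Subtype.val_injective) j
  have hne0 : ∀ a, γ a ≠ 0 := fun a h' => by
    obtain ⟨j⟩ : Nonempty {j // j ≠ a} := Fintype.card_pos_iff.1 (by have := hN2 a; omega)
    exact hne a j (congrFun h' j)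
  have hW := fun a => (hγ a).W_eq (hne0 a) (hN2 a)
  obtain ⟨a, b, hab⟩ := Fintype.exists_pair_of_one_lt_card (α := ι) (by omega)
  have hc : (0 : ℝ) < c := by exact_mod_cast h.pos a
  have hm := (hγ b).mult_eq (hne0 b) (hN2 b) (y := Pi.single ⟨a, hab⟩ 1)
    (by rw [dotProduct_single, mul_one]; exact hne b _)
  have hWx : W x ≤ W (res x (Subtype.val : {j // j ≠ a} → ι)) +
      mult (res x (Subtype.val : {j // j ≠ b} → ι)) (Pi.single ⟨a, hab⟩ 1) := by
    refine le_trans (cnt_mono fun e he => ?_) (cnt_or_le _ _)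
    by_cases h1 : res x (Subtype.val : {j // j ≠ a} → ι) e = 0
    · have h2 : ∀ j, j ≠ a → x e j = 0 := fun j hj => congrFun h1 ⟨j, hj⟩
      refine Or.inr ⟨x e a, fun h3 => he (funext fun j => ?_), funext fun j => ?_⟩
      · by_cases hj : j = a
        · rw [hj, h3]; rfl
        · exact h2 j hj
      · by_cases hj : j = ⟨a, hab⟩
        · simp [hj, res]
        · have : j.1 ≠ a := fun h4 => hj (Subtype.ext h4)
          simp [hj, res, h2 _ this]
    · exact Or.inl h1
  have hWx' : (W x : ℝ) ≤ W (res x (Subtype.val : {j // j ≠ a} → ι)) +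
      mult (res x (Subtype.val : {j // j ≠ b} → ι)) (Pi.single ⟨a, hab⟩ 1) := by exact_mod_cast hWx
  have hT := total x
  have hpow : (Fintype.card K : ℝ) ^ Fintype.card ι =
      (Fintype.card K : ℝ) ^ Fintype.card {j // j ≠ b} * Fintype.card K := by
    rw [← pow_succ, hcard b]
  have hP : (0 : ℝ) < (Fintype.card K : ℝ) ^ Fintype.card ι := by positivity
  have hS : ∑ l, (wt x l : ℝ) ≤ c * (Fintype.card K : ℝ) ^ Fintype.card ι + c * (Fintype.card K : ℝ) ^ 2 := by
    refine le_of_mul_le_mul_right ?_ (show (0 : ℝ) < Fintype.card K by linarith only [hq])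
    have h1 := mul_le_mul_of_nonneg_right hWx'
      (mul_nonneg (show (0 : ℝ) ≤ Fintype.card K - 1 by linarith only [hq]) hP.le)
    have h2 := hW a
    have h3 : (mult (res x (Subtype.val : {j // j ≠ b} → ι)) (Pi.single ⟨a, hab⟩ 1) : ℝ) *
        ((Fintype.card K - 1) * (Fintype.card K : ℝ) ^ Fintype.card ι) =
        c * (Fintype.card K : ℝ) ^ 2 * Fintype.card K := by
      rw [hpow, ← hm]; ring
    have h4 : (W (res x (Subtype.val : {j // j ≠ a} → ι)) : ℝ) *
        ((Fintype.card K - 1) * (Fintype.card K : ℝ) ^ Fintype.card ι) =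
        Fintype.card K * c * (Fintype.card K : ℝ) ^ Fintype.card ι := by
      rw [← h2]; ring
    rw [hT]
    linarith only [h1, h3, h4]
  set ε : (ι → K) → ℝ := fun l => if l = 0 then 0 else (wt x l : ℝ) - c with hε
  have hε0 : ∀ l, 0 ≤ ε l := fun l => by
    by_cases hl : l = 0
    · simp [hε, hl]
    · have : (c : ℝ) ≤ wt x l := by exact_mod_cast h.le_wt hl
      simp only [hε, if_neg hl]
      linarith only [this]
  have hεs : ∑ l, ε l = ∑ l, (wt x l : ℝ) - c * (Fintype.card K : ℝ) ^ Fintype.card ι + c := by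
    have h1 : ∑ l, ε l = ∑ l : ι → K, ((wt x l : ℝ) - c + if l = 0 then (c : ℝ) else 0) := by
      refine sum_congr rfl fun l _ => ?_
      by_cases hl : l = 0
      · simp [hε, hl, finB_wt_zero]
      · simp [hε, hl]
    rw [h1]
    simp only [sum_add_distrib, sum_sub_distrib, sum_const, card_univ, nsmul_eq_mul, Fintype.card_fun,
      Nat.cast_pow, sum_ite_eq', mem_univ, if_true]
    ring
  set w : ι → ι → K := fun a => Function.extend (Subtype.val : {j // j ≠ a} → ι) (γ a) 0 with hw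
  have hwi : Function.Injective w := fun a a' h1 => by
    by_contra h2
    have h3 : w a' a = γ a' ⟨a, h2⟩ := Subtype.val_injective.extend_apply (γ a') 0 ⟨a, h2⟩
    have h4 : w a a = 0 := Function.extend_apply' (γ a) (0 : ι → K) a fun ⟨j, hj⟩ => j.2 hj
    rw [← h1, h4] at h3
    exact hne a' _ h3.symm
  have hwe : ∀ a, ε (w a) * (Fintype.card K - 1) = c := fun a => by
    have h1 : w a ≠ 0 := finB_ext_ne Subtype.val_injective (hne0 a)
    have h2 : wt x (w a) = W (res x (Subtype.val : {j // j ≠ a} → ι)) := by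
      rw [← (hγ a).wt_g one_ne_zero, one_smul, wt_res Subtype.val_injective]
    simp only [hε, if_neg h1, h2]
    linear_combination hW a
  have hle : ∑ a, ε (w a) ≤ ∑ l, ε l := by
    rw [← sum_image (s := univ) (g := w) (f := ε) fun _ _ _ _ h1 => hwi h1]
    exact sum_le_univ_sum_of_nonneg hε0
  have hsum : (∑ a, ε (w a)) * (Fintype.card K - 1) = c * Fintype.card ι := by
    rw [sum_mul, sum_congr rfl fun a _ => hwe a]
    simp only [sum_const, card_univ, nsmul_eq_mul, mul_comm]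
  have hN' : (Fintype.card K : ℝ) ^ 4 < Fintype.card ι := by exact_mod_cast hN
  have h5 : ∑ a, ε (w a) ≤ c * (1 + (Fintype.card K : ℝ) ^ 2) := by linarith only [hS, hεs, hle]
  have h6 := mul_le_mul_of_nonneg_right h5 (show (0 : ℝ) ≤ Fintype.card K - 1 by linarith only [hq])
  rw [hsum, mul_assoc] at h6
  have h7 := le_of_mul_le_mul_left h6 hc
  generalize (Fintype.card K : ℝ) = q at hq hN' h7
  have h8 : 0 < q ^ 2 := by positivity
  have h9 : 0 < q ^ 3 := by positivity
  nlinarith only [hN', h7]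

end Pool.Agent.MP_337c4e_co.H33

namespace Pool.Agent.MP_337c4e_co.H33

open Finset Matrix

variable {E : Type} [Fintype E] {ι : Type} [Fintype ι] [DecidableEq ι] {K : Type} [Field K]
  [Fintype K] {y : E → ι → K} {c : ℕ}

/-- atypical functional -/
def good_at (y : E → ι → K) (c q : ℕ) (G : E → Prop) (a : ι → K) : Prop :=
  (1 / (4 * (q : ℝ) ^ 2)) * c ≤
    |(cnt (fun e => G e ∧ a ⬝ᵥ y e = 0) : ℝ) - cnt G / Fintype.card K|

theorem good_cheb (h : PG y c) (hc : 0 < c) {q : ℕ} (hq : Fintype.card K ≤ q) (G : E → Prop)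
    (hG : ∀ e, G e → y e ≠ 0) : cnt (good_at y c q G) ≤ 32 * q ^ 5 := by
  have h1 : (0 : ℝ) < q := by exact_mod_cast Fintype.card_pos.trans_le hq
  have h2 : (Fintype.card K : ℝ) ≤ q := by exact_mod_cast hq
  have h3 := h.cheb hc G (fun _ => 0) hG (ε := 1 / (4 * (q : ℝ) ^ 2)) (by positivity)
  have h4 : 2 * (Fintype.card K : ℝ) / (1 / (4 * (q : ℝ) ^ 2)) ^ 2 ≤ 32 * q ^ 5 := by
    calc _ = 32 * (q : ℝ) ^ 4 * Fintype.card K := by field_simp; ring
      _ ≤ 32 * (q : ℝ) ^ 4 * q := by gcongr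
      _ = _ := by ring
  have h5 : (cnt (good_at y c q G) : ℝ) ≤ 32 * q ^ 5 := h3.trans h4
  exact_mod_cast h5

omit [DecidableEq ι] in
theorem good_sum (G : E → Prop) {a a' : ι → K} (ha : ∀ e, G e → a ⬝ᵥ y e = 0 → a' ⬝ᵥ y e = 0) :
    (cnt G : ℝ) + (Fintype.card K - 1) * cnt (fun e => G e ∧ a ⬝ᵥ y e = 0) ≤
      ∑ s : K, (cnt (fun e => G e ∧ (a' + s • a) ⬝ᵥ y e = 0) : ℝ) := by
  classical
  rw [← Nat.cast_sum, sum_cnt_comm, Nat.cast_sum, cnt_cast, cnt_cast, mul_sum, ← sum_add_distrib]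
  refine sum_le_sum fun e _ => ?_
  by_cases hG : G e
  · by_cases h0 : a ⬝ᵥ y e = 0
    · have : cnt (fun s : K => G e ∧ (a' + s • a) ⬝ᵥ y e = 0) = Fintype.card K := by
        rw [cnt_eq]
        simp only [hG, add_dotProduct, ha e hG h0, smul_dotProduct, h0, smul_eq_mul, mul_zero, add_zero, and_self, filter_true, card_univ]
      rw [this]
      simp only [hG, ↓ reduceIte, h0, and_self, mul_one, add_sub_cancel, Std.le_refl]
    · have : 0 < cnt (fun s : K => G e ∧ (a' + s • a) ⬝ᵥ y e = 0) :=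
        cnt_pos.2 ⟨-(a' ⬝ᵥ y e) / (a ⬝ᵥ y e), hG, by simp only [add_dotProduct, smul_dotProduct, smul_eq_mul, isUnit_iff_ne_zero, ne_eq, h0, not_false_eq_true, IsUnit.div_mul_cancel, add_neg_cancel]⟩
      rw [if_pos hG, if_neg fun h => h0 h.2, mul_zero, add_zero]
      exact_mod_cast this
  · simp only [hG, ↓ reduceIte, false_and, mul_zero, add_zero, add_dotProduct, smul_dotProduct, smul_eq_mul, Nat.cast_nonneg]

omit [DecidableEq ι] in
theorem good_key {Z : E → Prop} {q : ℕ} (hq : Fintype.card K ≤ q) (hc : 0 < c)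
    (hZ : ∀ a : ι → K, a ≠ 0 → c ≤ q * cnt (fun e => Z e ∧ a ⬝ᵥ y e ≠ 0)) {a a' : ι → K}
    (h0 : a ≠ 0) (ha : ∀ e, Z e → a ⬝ᵥ y e = 0 → a' ⬝ᵥ y e = 0) (hn : ∀ t : K, a' ≠ t • a)
    (ht : ¬ good_at y c q (fun e => Z e ∧ y e ≠ 0) a) :
    ∃ b, good_at y c q (fun e => Z e ∧ y e ≠ 0) b ∧
      good_at y c q (fun e => Z e ∧ b ⬝ᵥ y e ≠ 0) a := by
  have h2 : (2 : ℝ) ≤ Fintype.card K := by exact_mod_cast Fintype.one_lt_card
  have h3 : (Fintype.card K : ℝ) ≤ q := by exact_mod_cast hq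
  have h1 : (0 : ℝ) < q := by linarith only [h2, h3]
  have hc' : (0 : ℝ) < c := by exact_mod_cast hc
  obtain ⟨s, hs⟩ : ∃ s : K, good_at y c q (fun e => Z e ∧ y e ≠ 0) (a' + s • a) := by
    by_contra hall
    push Not at hall
    have h4 := good_sum (y := y) (fun e => Z e ∧ y e ≠ 0) fun e he => ha e he.1
    have h5 : ∑ s : K, (cnt (fun e => (Z e ∧ y e ≠ 0) ∧ (a' + s • a) ⬝ᵥ y e = 0) : ℝ) ≤
        ∑ _s : K, ((cnt fun e => Z e ∧ y e ≠ 0) / Fintype.card K + (1 / (4 * (q : ℝ) ^ 2)) * c) :=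
      sum_le_sum fun s _ => by
        have := (abs_lt.1 (not_le.1 (hall s))).2
        linarith only [this]
    have h6 := (abs_lt.1 (not_le.1 ht)).1
    have h7 : (c : ℝ) ≤ q * cnt fun e => Z e ∧ y e ≠ 0 := by
      have : cnt (fun e => Z e ∧ a ⬝ᵥ y e ≠ 0) ≤ cnt fun e => Z e ∧ y e ≠ 0 :=
        cnt_mono fun e he => ⟨he.1, fun h => he.2 (by simp only [h, dotProduct_zero])⟩
      exact_mod_cast (hZ a h0).trans (Nat.mul_le_mul_left _ this)
    rw [sum_const, card_univ, nsmul_eq_mul] at h5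
    generalize (cnt (fun e => (Z e ∧ y e ≠ 0) ∧ a ⬝ᵥ y e = 0) : ℝ) = n at h4 h6
    generalize (cnt (fun e => Z e ∧ y e ≠ 0) : ℝ) = g at h4 h5 h6 h7
    generalize (Fintype.card K : ℝ) = k at *
    obtain ⟨u, rfl⟩ : ∃ u, g = k * u := ⟨g / k, by field_simp⟩
    obtain ⟨η, hη⟩ : ∃ η : ℝ, η = 1 / (4 * (q : ℝ) ^ 2) * c := ⟨_, rfl⟩
    have hη0 : 0 < η := by rw [hη]; positivity
    have hη1 : (c : ℝ) = 4 * q ^ 2 * η := by rw [hη]; field_simp
    rw [← hη, mul_div_cancel_left₀ u (by linarith only [h2] : k ≠ 0)] at h5 h6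
    have h8 : (k - 1) * (u - η) < k * η := by nlinarith only [h2, h4, h6, h5]
    have h9 : 4 * q * η ≤ k * u := by
      rw [hη1] at h7
      exact le_of_mul_le_mul_left (by linarith only [h7]) h1
    have h10 : 4 * η ≤ u := le_of_mul_le_mul_left (by nlinarith only [h3, hη0, h9]) (by linarith only [h2] : 0 < k)
    nlinarith only [h2, hη0, h8, h10]
  refine ⟨_, hs, ?_⟩
  have hb : a' + s • a ≠ 0 := fun h => hn (-s) (by rw [neg_smul]; exact eq_neg_of_add_eq_zero_left h)
  have h4 : cnt (fun e => (Z e ∧ (a' + s • a) ⬝ᵥ y e ≠ 0) ∧ a ⬝ᵥ y e = 0) = 0 :=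
    cnt_eq_zero.2 fun e he => he.1.2 (by simp only [add_dotProduct, ha e he.1.1 he.2, smul_dotProduct, he.2, smul_eq_mul, mul_zero, add_zero])
  have h5 : (c : ℝ) ≤ q * cnt fun e => Z e ∧ (a' + s • a) ⬝ᵥ y e ≠ 0 := by exact_mod_cast hZ _ hb
  rw [good_at, h4, Nat.cast_zero, zero_sub, abs_neg, abs_of_nonneg (by positivity),
    le_div_iff₀ (by positivity)]
  refine le_of_mul_le_mul_left (le_trans ?_ h5) h1
  calc _ ≤ q * (1 / (4 * (q : ℝ) ^ 2) * c * q) := by gcongr
    _ = c / 4 := by field_simp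
    _ ≤ c := by linarith only [hc']

/-- all but boundedly many functionals have a kernel that is spanned by the vectors from `Z` -/
theorem few_bad (h : PG y c) (hc : 0 < c) (Z : E → Prop) {q : ℕ} (hq : Fintype.card K ≤ q)
    (hZ : ∀ a : ι → K, a ≠ 0 → c ≤ q * cnt (fun e => Z e ∧ a ⬝ᵥ y e ≠ 0)) :
    cnt (fun a : ι → K => ¬ (a ≠ 0 ∧ ∀ a' : ι → K,
      (∀ e, Z e → a ⬝ᵥ y e = 0 → a' ⬝ᵥ y e = 0) → ∃ t : K, a' = t • a)) ≤ 1100 * q ^ 10 := by
  classical
  have h1 : 1 ≤ q := Fintype.card_pos.trans_le hq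
  have hA := good_cheb h hc hq (fun e => Z e ∧ y e ≠ 0) fun e he => he.2
  have hB : cnt (fun a : ι → K => ∃ b, good_at y c q (fun e => Z e ∧ y e ≠ 0) b ∧
      good_at y c q (fun e => Z e ∧ b ⬝ᵥ y e ≠ 0) a) ≤ 32 * q ^ 5 * (32 * q ^ 5) := by
    refine (cnt_exists_le _).trans (le_trans ?_ (Nat.mul_le_mul_right _ hA))
    rw [cnt_eq, card_filter, sum_mul]
    refine sum_le_sum fun b _ => ?_
    split_ifs with hb
    · rw [one_mul]
      exact (cnt_mono fun a ha => ha.2).trans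
        (good_cheb h hc hq _ fun e he h0 => he.2 (by simp only [h0, dotProduct_zero]))
    · rw [zero_mul, Nat.le_zero]
      exact cnt_eq_zero.2 fun a ha => hb ha.1
  have hC : cnt (fun a : ι → K => a = 0) ≤ 1 := by
    rw [cnt_eq]
    simp only [filter_eq', mem_univ, ↓ reduceIte, card_singleton, Std.le_refl]
  have h5 : 1 ≤ q ^ 5 := Nat.one_le_pow _ _ h1
  calc _ ≤ cnt (fun a : ι → K => (a = 0 ∨ good_at y c q (fun e => Z e ∧ y e ≠ 0) a) ∨
        ∃ b, good_at y c q (fun e => Z e ∧ y e ≠ 0) b ∧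
          good_at y c q (fun e => Z e ∧ b ⬝ᵥ y e ≠ 0) a) := by
        refine cnt_mono fun a ha => ?_
        by_cases h0 : a = 0
        · exact Or.inl (Or.inl h0)
        by_cases ht : good_at y c q (fun e => Z e ∧ y e ≠ 0) a
        · exact Or.inl (Or.inr ht)
        push Not at ha
        obtain ⟨a', ha, hn⟩ := ha h0
        exact Or.inr (good_key hq hc hZ h0 ha hn ht)
    _ ≤ 1 + 32 * q ^ 5 + 32 * q ^ 5 * (32 * q ^ 5) :=
        (cnt_or_le _ _).trans (add_le_add ((cnt_or_le _ _).trans (add_le_add hC hA)) hB)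
    _ ≤ _ := by
        rw [show q ^ 10 = q ^ 5 * q ^ 5 by ring]
        nlinarith only [h5]

end Pool.Agent.MP_337c4e_co.H33

namespace Pool.Agent.MP_337c4e_co.H33

open Finset Matrix

variable {E : Type} [Fintype E] {J : Type} [Fintype J] [DecidableEq J] {F : Type} [Field F]
  [Fintype F] {K : Type} [Field K] [Fintype K] [Algebra K F] {c : ℕ}

/-- the word `(0, a)` -/
def lift1_ext (F : Type) [Field F] [Algebra K F] (a : J → K) : Option J → F :=
  fun o => o.elim 0 fun j => algebraMap K F (a j)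

omit [Fintype E] [DecidableEq J] [Fintype F] [Fintype K] in
theorem lift1_dot {X : E → Option J → F} {y : E → J → K}
    (hy : ∀ e j, X e (some j) = algebraMap K F (y e j)) (a : J → K) (e : E) :
    lift1_ext F a ⬝ᵥ X e = algebraMap K F (a ⬝ᵥ y e) := by
  simp only [dotProduct, lift1_ext, Fintype.sum_option, Option.elim_none, zero_mul, Option.elim_some, hy, zero_add, map_sum, map_mul]

theorem lift_Z {X : E → Option J → F} {y : E → J → K} (hX : Sys X c)
    (hy : ∀ e j, X e (some j) = algebraMap K F (y e j)) (a : J → K) (ha : a ≠ 0) :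
    c ≤ Fintype.card F * cnt (fun e => X e none = 0 ∧ a ⬝ᵥ y e ≠ 0) := by
  obtain ⟨j, hj⟩ := Function.ne_iff.1 ha
  have h1 := hX.toSys0.union (l := Pi.single none 1) (m := lift1_ext F a)
    (fun h => by simpa using congrFun h none) (fun t h => hj (by simpa [lift1_ext] using congrFun h (some j)))
  rw [cnt_split _ (fun e => X e none ≠ 0)] at h1
  have e1 : cnt (fun e => (Pi.single none 1 ⬝ᵥ X e ≠ 0 ∨ lift1_ext F a ⬝ᵥ X e ≠ 0) ∧ X e none ≠ 0) = c := by
    rw [← hX.toSys0.cnt_ne none]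
    exact cnt_congr fun e => ⟨fun h => h.2, fun h => ⟨Or.inl (by simpa only [single_dotProduct, one_mul, ne_eq] using h), h⟩⟩
  have e2 : cnt (fun e => (Pi.single none 1 ⬝ᵥ X e ≠ 0 ∨ lift1_ext F a ⬝ᵥ X e ≠ 0) ∧ ¬ X e none ≠ 0) =
      cnt (fun e => X e none = 0 ∧ a ⬝ᵥ y e ≠ 0) := by
    refine cnt_congr fun e => ?_
    rw [lift1_dot hy, single_one_dotProduct, map_ne_zero]
    tauto
  rw [e1, e2] at h1
  linarith only [h1]

theorem lift_pair {X : E → Option J → F} {y : E → J → K} (hX : Sys X c)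
    (hy : ∀ e j, X e (some j) = algebraMap K F (y e j)) (hP : PG y c) {a : J → K} (ha : a ≠ 0)
    (hg : ∀ a' : J → K, (∀ e, X e none = 0 → a ⬝ᵥ y e = 0 → a' ⬝ᵥ y e = 0) → ∃ t : K, a' = t • a)
    (β : F) :
    cnt (fun e => a ⬝ᵥ y e ≠ 0 ∧ X e none = β * algebraMap K F (a ⬝ᵥ y e)) = 0 ∨
    cnt (fun e => a ⬝ᵥ y e ≠ 0 ∧ X e none = β * algebraMap K F (a ⬝ᵥ y e)) =
      cnt (fun e => a ⬝ᵥ y e = 0 ∧ X e none ≠ 0) := by
  have hl : wt X (lift1_ext F a) = c := by
    rw [← hP a ha]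
    exact cnt_congr fun e => by rw [lift1_dot hy, map_ne_zero]
  have h1 := hX.toSys0.pair (m := Pi.single none 1) hl
    (fun t h => by simpa [lift1_ext] using congrFun h none) (fun n hn => by
      obtain ⟨t, ht⟩ := smul_of_base (F := F) (S := {v | ∃ e, X e none = 0 ∧ a ⬝ᵥ y e = 0 ∧ v = y e}) ha
        (fun a' h' => hg a' fun e h0 h1 => h' _ ⟨e, h0, h1, rfl⟩) (fun j => n (some j)) (by
          rintro v ⟨e, h0, h1, rfl⟩
          have := hn e (by rw [lift1_dot hy, h1, map_zero]) (by rw [single_one_dotProduct, h0])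
          simpa only [dotProduct, Fintype.sum_option, h0, mul_zero, hy, zero_add] using this)
      refine ⟨t, n none, funext fun o => ?_⟩
      cases o with
      | none => simp [lift1_ext]
      | some j => simpa [lift1_ext] using congrFun ht j) β
  simpa only [lift1_dot hy, single_one_dotProduct, map_ne_zero, map_eq_zero] using h1

/-- non-empty classes all have size `d` and are disjoint -/
theorem lift1_classes {X : E → Option J → F} {y : E → J → K} (hX : Sys X c)
    (hy : ∀ e j, X e (some j) = algebraMap K F (y e j)) (hP : PG y c) {a : J → K} (ha : a ≠ 0)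
    (hg : ∀ a' : J → K, (∀ e, X e none = 0 → a ⬝ᵥ y e = 0 → a' ⬝ᵥ y e = 0) → ∃ t : K, a' = t • a)
    (T : Finset F)
    (hT : ∀ β ∈ T, ∃ e, a ⬝ᵥ y e ≠ 0 ∧ X e none = β * algebraMap K F (a ⬝ᵥ y e)) :
    T.card * cnt (fun e => a ⬝ᵥ y e = 0 ∧ X e none ≠ 0) ≤ c := by
  have h1 : c = ∑ β, cnt (fun e => a ⬝ᵥ y e ≠ 0 ∧ X e none / algebraMap K F (a ⬝ᵥ y e) = β) :=
    (hP a ha).symm.trans (cnt_fiber _ _)
  rw [h1, ← smul_eq_mul, ← sum_const]
  refine le_trans (sum_le_sum fun β hβ => ?_) (sum_le_sum_of_subset (subset_univ T))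
  rcases lift_pair hX hy hP ha hg β with h | h
  · exact absurd (cnt_pos.2 (hT β hβ)) (by rw [h]; exact lt_irrefl 0)
  · rw [← h]
    refine cnt_mono fun e he => ⟨he.1, ?_⟩
    rw [he.2, mul_div_cancel_right₀ _ ((map_ne_zero _).2 he.1)]

theorem lift1_cheb {y : E → J → K} (hP : PG y c) (hc : 0 < c) {q : ℕ} (hq : Fintype.card K ≤ q)
    (G : E → Prop) (a : E → K) (hG : ∀ e, G e → y e ≠ 0) :
    cnt (fun l : J → K => 1 / (4 * (q : ℝ) ^ 2) * c ≤
      |(cnt (fun e => G e ∧ l ⬝ᵥ y e = a e) : ℝ) - cnt G / Fintype.card K|) ≤ 32 * q ^ 5 := by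
  have h0 : (0 : ℝ) < q := by exact_mod_cast lt_of_lt_of_le Fintype.card_pos hq
  have h1 := hP.cheb hc G a hG (ε := 1 / (4 * (q : ℝ) ^ 2)) (by positivity)
  have h2 : (Fintype.card K : ℝ) ≤ q := by exact_mod_cast hq
  have h3 : 2 * (Fintype.card K : ℝ) / (1 / (4 * (q : ℝ) ^ 2)) ^ 2 = 32 * (Fintype.card K * q ^ 4) := by
    field_simp; ring
  have h4 : (Fintype.card K : ℝ) * q ^ 4 ≤ q ^ 5 := by
    rw [pow_succ' _ 4]; gcongr
  exact_mod_cast h1.trans (by rw [h3]; linarith only [h4] : _ ≤ 32 * (q : ℝ) ^ 5)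

omit [Fintype E] in
theorem lift1_avoid {P : (J → K) → Prop} (hP : cnt P < Fintype.card J) {z : J → K} (hz : z ≠ 0) :
    ∃ a, a ⬝ᵥ z = 1 ∧ ¬ P a := by
  by_contra hn
  have h1 : cnt (fun a : J → K => a ⬝ᵥ z = 1) ≤ cnt P :=
    cnt_mono fun a ha => by_contra fun h => hn ⟨a, ha, h⟩
  have h2 := card_dot hz 1
  obtain ⟨M, hM⟩ : ∃ M, Fintype.card J = M + 1 := ⟨Fintype.card J - 1, by omega⟩
  rw [hM, pow_succ] at h2
  have h3 := Nat.eq_of_mul_eq_mul_right Fintype.card_pos h2
  have h4 : M < Fintype.card K ^ M := Nat.lt_pow_self Fintype.one_lt_card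
  omega

theorem lift_rep {X : E → Option J → F} {y : E → J → K} (hX : Sys X c)
    (hy : ∀ e j, X e (some j) = algebraMap K F (y e j)) (hP : PG y c)
    (hN : 2000 * Fintype.card F ^ 10 < Fintype.card J) :
    (∃ u : F, u ≠ 0 ∧ ∀ e, y e ≠ 0 → ∃ a : K, X e none = u * algebraMap K F a) ∧
      2 * Fintype.card F * cnt (fun e => y e = 0 ∧ X e none ≠ 0) ≤ c := by
  classical
  set q := Fintype.card F with hq
  have hc : 0 < c := hX.toSys0.pos none
  have hKq : Fintype.card K ≤ q := Fintype.card_le_of_injective _ (algebraMap K F).injective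
  have hK2 : 2 ≤ Fintype.card K := Fintype.one_lt_card
  obtain ⟨j0⟩ : Nonempty J := Fintype.card_pos_iff.1 (by omega)
  set φ := cnt (fun e => y e = 0 ∧ X e none ≠ 0) with hφ
  set g1 := cnt (fun e => y e ≠ 0 ∧ X e none ≠ 0) with hg1
  have hφ2 : 2 * φ ≤ c := by
    refine le_trans (Nat.mul_le_mul_left 2 (cnt_mono fun e he => ⟨?_, he.2⟩))
      (hX.toSys0.half (i := some j0) (j := none) (by simp) (hX.inter _ _))
    rw [hy, he.1]; simp
  have hsum : φ + g1 = c := by
    rw [← hX.toSys0.cnt_ne none, cnt_split _ (fun e => y e = 0)]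
    congr 1 <;> exact cnt_congr fun e => and_comm
  obtain ⟨u, -, hu⟩ := exists_max_image univ
    (fun u : F => cnt (fun e => (y e ≠ 0 ∧ X e none ≠ 0) ∧ X e none = u)) univ_nonempty
  have hu1 : g1 ≤ q * cnt (fun e => (y e ≠ 0 ∧ X e none ≠ 0) ∧ X e none = u) := by
    rw [hg1, cnt_fiber _ (fun e => X e none)]
    exact sum_le_card_nsmul _ _ _ hu
  obtain ⟨e1, ⟨he1, he1'⟩, he1''⟩ : ∃ e, (y e ≠ 0 ∧ X e none ≠ 0) ∧ X e none = u := by
    rw [← cnt_pos]
    by_contra h0
    rw [Nat.eq_zero_of_not_pos h0] at hu1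
    omega
  have hu0 : u ≠ 0 := he1'' ▸ he1'
  set G : E → Prop := fun e => y e ≠ 0 ∧ ∃ k : K, k ≠ 0 ∧ X e none = u * algebraMap K F k with hG
  have hGc : c ≤ 2 * q * cnt G := by
    have : cnt (fun e => (y e ≠ 0 ∧ X e none ≠ 0) ∧ X e none = u) ≤ cnt G :=
      cnt_mono fun e he => ⟨he.1.1, 1, one_ne_zero, by rw [he.2]; simp⟩
    nlinarith only [hφ2, hsum, hu1, this]
  choose! k hk using fun e (he : G e) => he.2
  have hq0 : (0 : ℝ) < q := by exact_mod_cast (by omega : 0 < q)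
  have hKr : (2 : ℝ) ≤ Fintype.card K := by exact_mod_cast hK2
  have hKqr : (Fintype.card K : ℝ) ≤ q := by exact_mod_cast hKq
  have hcr : (0 : ℝ) < c := by exact_mod_cast hc
  set ε : ℝ := 1 / (4 * (q : ℝ) ^ 2) with hε
  have hεq : 4 * (q : ℝ) ^ 2 * ε = 1 := by rw [hε]; field_simp
  have hε0 : 0 < ε := by positivity
  -- good functionals
  have key : ∀ z : J → K, z ≠ 0 → ∃ a : J → K, a ⬝ᵥ z = 1 ∧
      (φ : ℝ) + g1 / Fintype.card K - ε * c < cnt (fun e => a ⬝ᵥ y e = 0 ∧ X e none ≠ 0) ∧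
      ∀ T : Finset F, (∀ β ∈ T, (∃ b : K, β = u * algebraMap K F b) ∨
        ∃ e, a ⬝ᵥ y e ≠ 0 ∧ X e none = β * algebraMap K F (a ⬝ᵥ y e)) →
        T.card * cnt (fun e => a ⬝ᵥ y e = 0 ∧ X e none ≠ 0) ≤ c := by
    intro z hz
    have b1 := few_bad hP hc (fun e => X e none = 0) hKq (lift_Z hX hy)
    have b2 := cnt_exists_le (fun (b : K) (l : J → K) => ε * c ≤
      |(cnt (fun e => G e ∧ l ⬝ᵥ y e = k e / b) : ℝ) - cnt G / Fintype.card K|)
    have b2' := sum_le_card_nsmul univ _ _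
      (fun (b : K) _ => lift1_cheb hP hc hKq G (fun e => k e / b) fun e he => he.1)
    have b3 := lift1_cheb hP hc hKq (fun e => y e ≠ 0 ∧ X e none ≠ 0) (fun _ => 0) fun e he => he.1
    have b4 := (cnt_or_le _ _).trans (add_le_add b1
      ((cnt_or_le _ _).trans (add_le_add (b2.trans b2') b3)))
    have hq1 : 1 ≤ q := by omega
    have p1 : q ^ 5 ≤ q ^ 10 := Nat.pow_le_pow_right hq1 (by norm_num)
    have p2 : Fintype.card K * q ^ 5 ≤ q ^ 10 :=
      le_trans (Nat.mul_le_mul_right _ hKq) (by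
        rw [← pow_succ']; exact Nat.pow_le_pow_right hq1 (by norm_num))
    obtain ⟨a, ha1, ha2⟩ := lift1_avoid (lt_of_le_of_lt b4 (by
      rw [card_univ, smul_eq_mul]
      linarith only [hN, p1, p2])) hz
    rw [not_or, not_or, not_not, not_exists, not_le] at ha2
    obtain ⟨⟨ha0, hgood⟩, ht2, ht3⟩ := ha2
    refine ⟨a, ha1, ?_, fun T hT => lift1_classes hX hy hP ha0 hgood T fun β hβ => ?_⟩
    · have e1 : cnt (fun e => a ⬝ᵥ y e = 0 ∧ X e none ≠ 0) =
          φ + cnt (fun e => (y e ≠ 0 ∧ X e none ≠ 0) ∧ a ⬝ᵥ y e = 0) := by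
        rw [cnt_split _ (fun e => y e = 0)]
        congr 1
        · exact cnt_congr fun e => ⟨fun h => ⟨h.2, h.1.2⟩, fun h => ⟨⟨by simp only [h.1, dotProduct_zero], h.2⟩, h.1⟩⟩
        · exact cnt_congr fun e => by tauto
      rw [e1]
      push_cast
      linarith only [(abs_lt.1 ht3).1]
    · rcases hT β hβ with ⟨b, rfl⟩ | h
      · by_cases hb : b = 0
        · have := lift_Z hX hy a ha0
          obtain ⟨e, he⟩ : ∃ e, X e none = 0 ∧ a ⬝ᵥ y e ≠ 0 := by
            rw [← cnt_pos]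
            by_contra h0
            rw [Nat.eq_zero_of_not_pos h0] at this
            omega
          exact ⟨e, he.2, by simp only [he.1, hb, map_zero, mul_zero, zero_mul]⟩
        · have t1 := (abs_lt.1 (not_le.1 (ht2 b))).1
          have t2 : (c : ℝ) ≤ 2 * q * cnt G := by exact_mod_cast hGc
          have t3 : 2 * (ε * c) ≤ cnt G / (Fintype.card K : ℝ) := by
            rw [le_div_iff₀ (by linarith only [hKr])]
            have : 2 * (ε * c) * (Fintype.card K : ℝ) ≤ 2 * (ε * (2 * q * cnt G)) * q := by gcongr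
            nlinarith only [hεq, this]
          obtain ⟨e, he, he'⟩ : ∃ e, G e ∧ a ⬝ᵥ y e = k e / b := by
            rw [← cnt_pos]
            have : (0 : ℝ) < cnt (fun e => G e ∧ a ⬝ᵥ y e = k e / b) := by
              linarith only [mul_pos hε0 hcr, t1, t3]
            exact_mod_cast this
          refine ⟨e, by rw [he']; exact div_ne_zero (hk e he).1 hb, ?_⟩
          rw [he', (hk e he).2, mul_assoc, ← map_mul, mul_div_cancel₀ _ hb]
      · exact h
  have hinj : Function.Injective fun b : K => u * algebraMap K F b := fun b b' h =>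
    (algebraMap K F).injective (mul_left_cancel₀ hu0 h)
  have hsr : (φ : ℝ) + g1 = c := by exact_mod_cast hsum
  have hφ0 : (0 : ℝ) ≤ φ := Nat.cast_nonneg _
  have hdiv : (g1 : ℝ) / Fintype.card K * Fintype.card K = g1 := div_mul_cancel₀ _ (by linarith only [hKr])
  refine ⟨⟨u, hu0, fun e0 he0 => ?_⟩, ?_⟩
  · by_contra hn
    obtain ⟨a, ha1, ha2, ha3⟩ := key _ he0
    have hnm : X e0 none ∉ univ.image fun b : K => u * algebraMap K F b := fun h => by
      obtain ⟨b, -, hb⟩ := mem_image.1 h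
      exact hn ⟨b, hb.symm⟩
    have h4 := ha3 (insert (X e0 none) (univ.image fun b : K => u * algebraMap K F b)) fun β hβ => by
      rcases mem_insert.1 hβ with rfl | h
      · exact Or.inr ⟨e0, by simp only [ha1, ne_eq, one_ne_zero, not_false_eq_true], by simp only [ha1, map_one, mul_one]⟩
      · obtain ⟨b, -, hb⟩ := mem_image.1 h
        exact Or.inl ⟨b, hb.symm⟩
    rw [card_insert_of_notMem hnm, card_image_of_injective _ hinj, card_univ] at h4
    have h5 : ((Fintype.card K : ℝ) + 1) * cnt (fun e => a ⬝ᵥ y e = 0 ∧ X e none ≠ 0) ≤ c := by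
      exact_mod_cast h4
    generalize (cnt (fun e => a ⬝ᵥ y e = 0 ∧ X e none ≠ 0) : ℝ) = d at ha2 h5
    generalize (Fintype.card K : ℝ) = r at *
    have h6 : c - r * (ε * c) < r * d := by nlinarith only [hsr, hKr, hdiv, ha2]
    have h7 : (r + 1) * (c - r * (ε * c)) < r * c := by nlinarith only [hKr, h5, h6]
    have h8 : (r + 1) * r ≤ 2 * q ^ 2 := by nlinarith only [hKr, hKqr]
    have h9 : (r + 1) * r * (ε * c) ≤ 2 * q ^ 2 * (ε * c) := by gcongr
    nlinarith only [hεq, h7, h9]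
  · obtain ⟨a, -, ha2, ha3⟩ := key _ he1
    have h4 := ha3 (univ.image fun b : K => u * algebraMap K F b) fun β h => by
      obtain ⟨b, -, hb⟩ := mem_image.1 h
      exact Or.inl ⟨b, hb.symm⟩
    rw [card_image_of_injective _ hinj, card_univ] at h4
    have h5 : (Fintype.card K : ℝ) * cnt (fun e => a ⬝ᵥ y e = 0 ∧ X e none ≠ 0) ≤ c := by
      exact_mod_cast h4
    generalize (cnt (fun e => a ⬝ᵥ y e = 0 ∧ X e none ≠ 0) : ℝ) = d at ha2 h5
    generalize (Fintype.card K : ℝ) = r at *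
    have h6 : (r - 1) * φ < r * (ε * c) := by nlinarith only [hsr, hKr, hdiv, ha2, h5]
    have h7 : (φ : ℝ) ≤ 2 * (ε * c) := by nlinarith only [hsr, hKr, hdiv, ha2, h5]
    have h8 : 2 * q ^ 2 * (φ : ℝ) ≤ c := by nlinarith only [mul_le_mul_of_nonneg_left h7 (sq_nonneg (q : ℝ)), hεq]
    have h9 : 2 * q * (φ : ℝ) ≤ c := by nlinarith only [hKr, hKqr, h8]
    exact_mod_cast h9

end Pool.Agent.MP_337c4e_co.H33

namespace Pool.Agent.MP_337c4e_co.H33

open Finset Matrix

variable {E : Type} [Fintype E] {K : Type} [Field K] [Fintype K] {c : ℕ}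

omit [Fintype K] in
theorem lift2_dot {J : Type} [Fintype J] (L v : Option J → K) :
    L ⬝ᵥ v = L none * v none + (fun j => L (some j)) ⬝ᵥ fun j => v (some j) := by
  simp only [dotProduct, Fintype.sum_option]

omit [Fintype K] in
theorem lift2_wt {J : Type} [Fintype J] (X : E → Option J → K) (l : J → K) :
    wt X (fun o => o.elim 1 l) + cnt (fun e => res X some e ≠ 0 ∧ l ⬝ᵥ res X some e = -X e none) =
      cnt (fun e => res X some e = 0 ∧ X e none ≠ 0) + W (res X some) := by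
  have hd : ∀ e, (fun o : Option J => o.elim 1 l) ⬝ᵥ X e = X e none + l ⬝ᵥ res X some e := by
    intro e
    rw [lift2_dot]
    simp only [Option.elim_none, Option.elim_some, one_mul]
    rfl
  unfold wt W
  rw [cnt_split (fun e => (fun o : Option J => o.elim 1 l) ⬝ᵥ X e ≠ 0) (fun e => res X some e = 0),
    cnt_split (fun e => res X some e ≠ 0) (fun e => l ⬝ᵥ res X some e = -X e none)]
  have h1 : cnt (fun e => (fun o : Option J => o.elim 1 l) ⬝ᵥ X e ≠ 0 ∧ res X some e = 0) =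
      cnt (fun e => res X some e = 0 ∧ X e none ≠ 0) := by
    refine cnt_congr fun e => ?_
    rw [hd]
    constructor
    · rintro ⟨h1, h2⟩
      rw [h2, dotProduct_zero, add_zero] at h1
      exact ⟨h2, h1⟩
    · rintro ⟨h2, h1⟩
      rw [h2, dotProduct_zero, add_zero]
      exact ⟨h1, rfl⟩
  have h2 : cnt (fun e => (fun o : Option J => o.elim 1 l) ⬝ᵥ X e ≠ 0 ∧ ¬ res X some e = 0) =
      cnt (fun e => res X some e ≠ 0 ∧ ¬ l ⬝ᵥ res X some e = -X e none) := by
    refine cnt_congr fun e => ?_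
    rw [hd, and_comm, Ne, add_comm, add_eq_zero_iff_eq_neg]
  rw [h1, h2]
  ring

theorem lift2_ar {A φ w t q c : ℕ} {Q : ℝ} (hQ : 0 < Q) (hq : (1 : ℝ) < q) (hc : 0 < c)
    (hW : (w : ℝ) * (q - 1) * Q = c * (Q - 1) * q) (hw : t + A = φ + w) (hφ : 2 * q * φ ≤ c)
    (hg : c * (q + 1) ≤ q * t) : 1 / (2 * (q : ℝ)) * c ≤ |(A : ℝ) - w / q| := by
  have hw' : (t : ℝ) + A = φ + w := by exact_mod_cast hw
  have hφ' : 2 * (q : ℝ) * φ ≤ c := by exact_mod_cast hφ
  have hg' : (c : ℝ) * (q + 1) ≤ q * t := by exact_mod_cast hg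
  have hc' : (0 : ℝ) < c := by exact_mod_cast hc
  have hW' : (w : ℝ) * (q - 1) ≤ c * q := by
    refine le_of_mul_le_mul_right ?_ hQ
    rw [hW]
    linarith only [mul_pos hc' (zero_lt_one.trans hq)]
  refine le_abs.2 (Or.inr ?_)
  have e1 : -((A : ℝ) - w / q) = (2 * (w - q * A)) / (2 * q) := by field_simp; ring
  rw [e1, one_div_mul_eq_div]
  refine div_le_div_of_nonneg_right ?_ (by positivity)
  have : (A : ℝ) = φ + w - t := by linarith only [hw']
  rw [this]
  linarith only [hφ', hg', hW']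

theorem lift2_few {J : Type} [Fintype J] [DecidableEq J] {X : E → Option J → K} (hX : Sys X c)
    (hP : PG (res X some) c) (hN : 2000 * Fintype.card K ^ 10 < Fintype.card J) :
    cnt (fun l : J → K => wt X (fun o => o.elim 1 l) ≠ c) ≤ 8 * Fintype.card K ^ 3 := by
  have hc : 0 < c := hX.toSys0.pos none
  have hq : (1 : ℝ) < Fintype.card K := by exact_mod_cast Fintype.one_lt_card
  have hφ := (lift_rep (F := K) (y := res X some) hX (fun _ _ => rfl) hP hN).2
  have hW := hP.W_eq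
  have hch := hP.cheb hc (fun e => res X some e ≠ 0) (fun e => -X e none) (fun _ h => h)
    (ε := 1 / (2 * Fintype.card K)) (by positivity)
  have hm : cnt (fun l : J → K => wt X (fun o => o.elim 1 l) ≠ c) ≤
      cnt (fun l : J → K => 1 / (2 * (Fintype.card K : ℝ)) * c ≤
        |(cnt (fun e => res X some e ≠ 0 ∧ l ⬝ᵥ res X some e = -X e none) : ℝ) -
          cnt (fun e => res X some e ≠ 0) / Fintype.card K|) := by
    refine cnt_mono fun l hl => ?_
    have hne : (fun o : Option J => (o.elim 1 l : K)) ≠ 0 :=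
      fun h => one_ne_zero (α := K) (congrFun h none)
    have hg := Sys0.gap hX.toSys0 hne hl
    have hw := lift2_wt X l
    change _ ≤ |_ - (W (res X some) : ℝ) / _|
    exact lift2_ar (by positivity) hq hc hW hw hφ hg
  have h8 : 2 * (Fintype.card K : ℝ) / (1 / (2 * Fintype.card K)) ^ 2 = 8 * Fintype.card K ^ 3 := by
    field_simp; ring
  rw [h8] at hch
  have : (cnt (fun l : J → K => wt X (fun o => o.elim 1 l) ≠ c) : ℝ) ≤ 8 * Fintype.card K ^ 3 :=
    le_trans (by exact_mod_cast hm) hch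
  exact_mod_cast this

theorem lift_pg {J : Type} [Fintype J] [DecidableEq J] {X : E → Option J → K} (hX : Sys X c)
    (hP : PG (res X some) c) (hN : 2000 * Fintype.card K ^ 10 < Fintype.card J) :
    PG X c ∨ AG X c := by
  classical
  have hf := lift2_few hX hP hN
  rw [cnt_eq, ← Fintype.card_subtype] at hf
  have hq : 1 ≤ Fintype.card K := Fintype.card_pos
  have h3 : Fintype.card K ^ 3 ≤ Fintype.card K ^ 10 := Nat.pow_le_pow_right hq (by norm_num)
  let M : Matrix {l : J → K // wt X (fun o => o.elim 1 l) ≠ c} (Option J) K :=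
    Matrix.of fun b o => o.elim 1 b.1
  have hk : LinearMap.ker M.mulVecLin ≠ ⊥ := by
    refine LinearMap.ker_ne_bot_of_finrank_lt ?_
    rw [Module.finrank_fintype_fun_eq_card, Module.finrank_fintype_fun_eq_card, Fintype.card_option]
    omega
  obtain ⟨z, hz, hz0⟩ := Submodule.exists_mem_ne_zero_of_ne_bot hk
  refine pg_or_ag hX.toSys0 hz0 fun L hL hw => ?_
  by_cases h0 : L none = 0
  · refine absurd ?_ hw
    have hne : (fun j => L (some j)) ≠ 0 := fun h => hL (funext fun o => by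
      cases o with
      | none => exact h0
      | some j => exact congrFun h j)
    rw [← hP _ hne]
    refine cnt_congr fun e => ?_
    rw [lift2_dot, h0, zero_mul, zero_add]
    rfl
  · have hL' : L = L none • fun o : Option J => o.elim 1 fun j => L (some j) / L none := by
      funext o
      cases o with
      | none => simp
      | some j => simp only [Pi.smul_apply, Option.elim_some, smul_eq_mul]; field_simp
    have hb : wt X (fun o : Option J => o.elim 1 fun j => L (some j) / L none) ≠ c := by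
      refine fun h => hw (Eq.trans ?_ h)
      refine cnt_congr fun e => ?_
      conv_lhs => rw [hL', smul_dotProduct, smul_eq_mul]
      simp only [Ne, mul_eq_zero, h0, false_or]
    have := congrFun (LinearMap.mem_ker.1 hz) ⟨_, hb⟩
    rw [hL', smul_dotProduct]
    exact smul_eq_zero_of_right _ this

end Pool.Agent.MP_337c4e_co.H33

namespace Pool.Agent.MP_337c4e_co.H33

open Finset Matrix

variable {E : Type} [Fintype E] {ι : Type} [Fintype ι] [DecidableEq ι] {F : Type} [Field F]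
  [Fintype F] {K : Type} [Field K] [Fintype K] {c N : ℕ}

theorem phase1_col [Algebra K F] {x : E → ι → F} (hx : Sys x c)
    (hN : 2000 * Fintype.card F ^ 10 < N) {f : Fin N → ι} (hf : Function.Injective f)
    {y : E → Fin N → K} (hP : PG y c) {β0 : Fin N → F} (hβ0 : ∀ j, β0 j ≠ 0) {s : E → F}
    (hs0 : ∀ e, s e ≠ 0) (hs : ∀ e j, algebraMap K F (y e j) = s e * β0 j * x e (f j)) (i : ι) :
    ∃ b : F, b ≠ 0 ∧ (∀ j, f j = i → b = β0 j) ∧
      (∀ e, y e ≠ 0 → ∃ a : K, algebraMap K F a = s e * b * x e i) ∧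
      ((∀ j, f j ≠ i) → 2 * Fintype.card F * cnt (fun e => y e = 0 ∧ x e i ≠ 0) ≤ c) := by
  by_cases hi : ∃ j, f j = i
  · obtain ⟨j0, rfl⟩ := hi
    exact ⟨β0 j0, hβ0 j0, fun j hj => by rw [hf hj], fun e _ => ⟨y e j0, hs e j0⟩,
      fun h => absurd rfl (h j0)⟩
  · have hg : Function.Injective (fun o : Option (Fin N) => o.elim i f) := by
      rintro (_ | a) (_ | b) h
      · rfl
      · exact absurd ⟨b, h.symm⟩ hi
      · exact absurd ⟨a, h⟩ hi
      · exact congrArg some (hf h)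
    have hX := (hx.restr hg).scale (β := fun o : Option (Fin N) => o.elim 1 β0) hs0
      (by rintro (_ | a); exacts [one_ne_zero, hβ0 a])
    obtain ⟨⟨u, hu, h1⟩, h2⟩ := lift_rep (K := K) (y := y) hX (fun e j => (hs e j).symm) hP
      (by rwa [Fintype.card_fin])
    refine ⟨u⁻¹, inv_ne_zero hu, fun j hj => absurd ⟨j, hj⟩ hi, fun e he => ?_, fun _ => ?_⟩
    · obtain ⟨a, ha⟩ := h1 e he
      refine ⟨a, ?_⟩
      have ha' : s e * 1 * x e i = u * algebraMap K F a := ha
      rw [mul_one] at ha'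
      rw [mul_right_comm, ha']
      field_simp
    · refine le_trans (Nat.mul_le_mul_left _ (cnt_mono fun e he => ⟨he.1, ?_⟩)) h2
      show s e * 1 * x e i ≠ 0
      exact mul_ne_zero (mul_ne_zero (hs0 e) one_ne_zero) he.2

theorem phase1_cls {x : E → ι → F} (hx : Sys x c) {Y : E → Prop} {i j : ι} (hij : i ≠ j)
    (hφ : 2 * Fintype.card F * cnt (fun e => Y e ∧ x e i ≠ 0) ≤ c) {e : E} (he : x e i ≠ 0) :
    ∃ e', ¬ Y e' ∧ x e' i ≠ 0 ∧ x e' j = x e j / x e i * x e' i := by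
  by_contra hcon
  have h1 : cnt (fun e' => x e' i ≠ 0 ∧ x e' j = x e j / x e i * x e' i) ≤
      cnt (fun e => Y e ∧ x e i ≠ 0) :=
    cnt_mono fun e' he' => ⟨by_contra fun h => hcon ⟨e', h, he'⟩, he'.1⟩
  have h2 : 0 < cnt (fun e' => x e' i ≠ 0 ∧ x e' j = x e j / x e i * x e' i) :=
    cnt_pos.2 ⟨e, he, by field_simp⟩
  have h3 := (hx.toSys0.cpair hij (x e j / x e i)).resolve_left h2.ne'
  have h4 := hx.toSys0.q_d hij
  have h5 := hx.toSys0.pos i
  rw [← h3] at h4
  have h6 := Nat.mul_le_mul_left (Fintype.card F) h1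
  rw [mul_assoc] at hφ
  omega

theorem phase1 [Algebra K F] {x : E → ι → F} (hx : Sys x c)
    (hN : 2000 * Fintype.card F ^ 10 < N) {f : Fin N → ι} (hf : Function.Injective f)
    {y : E → Fin N → K} (ho : Over K (res x f) y) (hP : PG y c) :
    ∃ z : E → ι → K, Over K x z ∧ res z f = y := by
  obtain ⟨β0, hβ0, hs⟩ := ho
  choose s hs0 hs using hs
  have hs' : ∀ e j, algebraMap K F (y e j) = s e * β0 j * x e (f j) := hs
  choose β hβ hβf hβK hβφ using phase1_col hx hN hf hP hβ0 hs0 hs'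
  have key : ∀ e, ∃ t : F, t ≠ 0 ∧ (∀ i, ∃ a : K, algebraMap K F a = t * β i * x e i) ∧
      ∀ j, algebraMap K F (y e j) = t * β (f j) * x e (f j) := by
    intro e
    by_cases hy : y e = 0
    · have hz : ∀ j, x e (f j) = 0 := fun j => by
        have h := hs' e j
        rw [hy, Pi.zero_apply, map_zero] at h
        exact (mul_eq_zero.1 h.symm).resolve_left (mul_ne_zero (hs0 e) (hβ0 j))
      have h2 : ∀ t : F, ∀ j, algebraMap K F (y e j) = t * β (f j) * x e (f j) := fun t j => by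
        rw [hy, hz j, Pi.zero_apply, map_zero, mul_zero]
      by_cases hx0 : ∀ i, x e i = 0
      · exact ⟨1, one_ne_zero, fun i => ⟨0, by rw [hx0 i, map_zero, mul_zero]⟩, h2 1⟩
      · obtain ⟨i, hi⟩ := not_forall.1 hx0
        have hbi := hβ i
        refine ⟨(β i * x e i)⁻¹, inv_ne_zero (mul_ne_zero hbi hi), fun j => ?_, h2 _⟩
        by_cases hij : i = j
        · subst hij
          exact ⟨1, by rw [map_one]; field_simp⟩
        · obtain ⟨e', h1, h3, h4⟩ :=
            phase1_cls hx hij (hβφ i fun k hk => hi (hk ▸ hz k)) hi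
          obtain ⟨a, ha⟩ := hβK i e' h1
          obtain ⟨b, hb⟩ := hβK j e' h1
          have h5 := hs0 e'
          refine ⟨b / a, ?_⟩
          rw [map_div₀, ha, hb, h4]
          field_simp
    · exact ⟨s e, hs0 e, fun i => hβK i e hy, fun j => by rw [hβf (f j) j rfl]; exact hs' e j⟩
  choose t ht0 ht1 ht2 using key
  choose z hz using ht1
  refine ⟨z, ⟨β, hβ, fun e => ⟨t e, ht0 e, hz e⟩⟩, ?_⟩
  funext e j
  exact (algebraMap K F).injective ((hz e (f j)).trans (ht2 e j).symm)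

section
variable {κ κ' : Type} [Fintype κ] [DecidableEq κ] [Fintype κ'] [DecidableEq κ'] {x : E → ι → K}
  {f : κ → ι} {g : κ' → ι}

omit [Fintype ι] [DecidableEq ι] [DecidableEq κ] in
theorem phase2_pg (h : PG (res x g) c) (hf : Function.Injective f) (hs : ∀ a, ∃ b, g b = f a) :
    PG (res x f) c := by
  choose u hu using hs
  obtain rfl : g ∘ u = f := funext hu
  exact h.restr hf.of_comp

omit [Fintype ι] [DecidableEq ι] [DecidableEq κ] in
theorem phase2_ag (h : AG (res x g) c) (hf : Function.Injective f) (hg : Function.Injective g)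
    (hs : ∀ a, ∃ b, g b = f a) (hs' : ∀ b, ∃ a, f a = g b) : AG (res x f) c := by
  choose u hu using hs
  obtain rfl : g ∘ u = f := funext hu
  exact h.restr_bij ⟨hf.of_comp, fun b => (hs' b).imp fun a ha => hg ha⟩

omit [DecidableEq ι] [DecidableEq κ] in
theorem phase2_lt (h : AG (res x g) c) (h0 : Sys0 x c) (hf : Function.Injective f)
    (hg : Function.Injective g) (hs : ∀ a, ∃ b, g b = f a) (b : κ') (hb : ∀ a, f a ≠ g b) :
    PG (res x f) c := by
  choose u hu using hs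
  obtain rfl : g ∘ u = f := funext hu
  exact h.restr (h0.restr hg) hf.of_comp fun hu => (hu b).elim fun a ha => hb a (congrArg g ha)

end

theorem phase2 {x : E → ι → K} (hx : Sys x c) (hN : 2000 * Fintype.card K ^ 10 < N)
    {f : Fin N → ι} (hf : Function.Injective f) (hP : PG (res x f) c) : PG x c ∨ AG x c := by
  classical
  have hv : ∀ J : Finset ι, Function.Injective (Subtype.val : J → ι) := fun _ =>
    Subtype.val_injective
  have h0 : PG (res x (Subtype.val : {a // a ∈ univ.image f} → ι)) c :=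
    phase2_pg hP (hv _) fun a => (mem_image.1 a.2).imp fun _ h => h.2
  obtain ⟨J, hJ, hmax⟩ := exists_max_image
    (univ.filter fun J : Finset ι => PG (res x (Subtype.val : J → ι)) c) card
    ⟨_, mem_filter.2 ⟨mem_univ _, h0⟩⟩
  replace hJ := (mem_filter.1 hJ).2
  replace hmax := fun J' h => hmax J' (mem_filter.2 ⟨mem_univ _, h⟩)
  have hNJ : N ≤ J.card := by
    have := hmax _ h0
    rwa [card_image_of_injective _ hf, card_univ, Fintype.card_fin] at this
  have step : ∀ J₀ : Finset ι, PG (res x (Subtype.val : J₀ → ι)) c → J₀.card = J.card →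
      ∀ i, i ∉ J₀ → AG (res x (Subtype.val : {a // a ∈ insert i J₀} → ι)) c := by
    intro J₀ h1 h2 i hi
    have hg : Function.Injective fun o : Option J₀ => o.elim i Subtype.val := by
      rintro (_ | a) (_ | b) h
      · rfl
      · exact absurd ((show i = b from h) ▸ b.2) hi
      · exact absurd ((show a = i from h) ▸ a.2) hi
      · exact congrArg some (Subtype.ext h)
    have hs : ∀ a : {a // a ∈ insert i J₀}, ∃ o : Option J₀, o.elim i Subtype.val = a := fun a =>
      (mem_insert.1 a.2).elim (fun h => ⟨none, h.symm⟩) fun h => ⟨some ⟨a, h⟩, rfl⟩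
    rcases lift_pg (hx.restr hg) h1 (by rw [Fintype.card_coe]; omega) with h | h
    · have := hmax _ (phase2_pg h (hv _) hs)
      rw [card_insert_of_notMem hi] at this
      omega
    · refine phase2_ag h (hv _) hg hs ?_
      rintro (_ | a)
      · exact ⟨⟨i, mem_insert_self _ _⟩, rfl⟩
      · exact ⟨⟨a, mem_insert_of_mem a.2⟩, rfl⟩
  by_cases h1 : ∀ i, i ∈ J
  · exact .inl (phase2_pg (f := id) hJ Function.injective_id fun a => ⟨⟨a, h1 a⟩, rfl⟩)
  obtain ⟨i, hi⟩ := not_forall.1 h1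
  have hA := step J hJ rfl i hi
  by_cases h2 : ∀ j, j ∈ insert i J
  · exact .inr (phase2_ag (f := id) hA Function.injective_id (hv _) (fun a => ⟨⟨a, h2 a⟩, rfl⟩)
      fun b => ⟨b, rfl⟩)
  obtain ⟨j, hj⟩ := not_forall.1 h2
  refine (not_all_ag (hx.toSys0.restr (hv (insert j (insert i J)))) ?_ fun a => ?_).elim
  · have h3 := Nat.pow_le_pow_right (Fintype.card_pos (α := K)) (show 4 ≤ 10 by norm_num)
    rw [Fintype.card_coe, card_insert_of_notMem hj, card_insert_of_notMem hi]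
    omega
  have hw : Function.Injective fun b : {b // b ≠ a} => (b.1 : ι) :=
    (hv _).comp Subtype.val_injective
  show AG (res x fun b : {b // b ≠ a} => (b.1 : ι)) c
  rcases mem_insert.1 a.2 with h | h
  · refine phase2_ag hA hw (hv _) (fun b => ⟨⟨b.1, ?_⟩, rfl⟩) fun b =>
      ⟨⟨⟨b, mem_insert_of_mem b.2⟩, fun e => hj ?_⟩, rfl⟩
    · exact (mem_insert.1 b.1.2).resolve_left fun e => b.2 (Subtype.ext (e.trans h.symm))
    · rw [← h, ← e]
      exact b.2
  · have h4 : PG (res x (Subtype.val : {b // b ∈ (insert i J).erase a} → ι)) c :=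
      phase2_lt hA hx.toSys0 (hv _) (hv _) (fun b => ⟨⟨b, mem_of_mem_erase b.2⟩, rfl⟩) ⟨a, h⟩
        fun b => ne_of_mem_erase b.2
    have h5 := step _ h4 (by rw [card_erase_of_mem h, card_insert_of_notMem hi]; rfl) j
      fun e => hj (mem_of_mem_erase e)
    refine phase2_ag h5 hw (hv _) (fun b => ⟨⟨b.1, ?_⟩, rfl⟩) fun b =>
      ⟨⟨⟨b, insert_subset_insert _ (erase_subset _ _) b.2⟩, fun e => ?_⟩, rfl⟩
    · exact mem_insert.2 ((mem_insert.1 b.1.2).imp_right fun e =>
        mem_erase.2 ⟨fun e' => b.2 (Subtype.ext e'), e⟩)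
    · have e' : (b : ι) = a := congrArg Subtype.val e
      rcases mem_insert.1 b.2 with h6 | h6
      · exact hj (by rwa [← h6, e'])
      · exact ne_of_mem_erase h6 e'

end Pool.Agent.MP_337c4e_co.H33

namespace Pool.Agent.MP_337c4e_co.H33

open Finset Matrix

variable {E : Type} [Fintype E] {F : Type} [Field F] {c : ℕ}

theorem ulift_sub {p q : E → Prop} (h : ∀ e, p e → q e) (hc : cnt q ≤ cnt p) (e : E) (he : q e) :
    p e := by
  by_contra hp
  have h1 := cnt_split q p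
  have h2 : cnt (fun e => q e ∧ p e) = cnt p := cnt_congr fun e => ⟨fun a => a.2, fun a => ⟨h e a, a⟩⟩
  have h3 : 0 < cnt (fun e => q e ∧ ¬ p e) := cnt_pos.2 ⟨e, he, hp⟩
  omega

theorem ulift_sum {J : Type} [Fintype J] {p : J → E → Prop} {q : E → Prop}
    (h : ∀ j e, p j e → q e) (hd : ∀ j k e, p j e → p k e → j = k) : ∑ j, cnt (p j) ≤ cnt q := by
  classical
  simp only [cnt_eq]
  rw [← card_biUnion]
  · refine card_le_card fun e he => ?_
    obtain ⟨j, -, hj⟩ := mem_biUnion.1 he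
    exact mem_filter.2 ⟨mem_univ _, h j e (mem_filter.1 hj).2⟩
  · intro j _ k _ hjk
    exact disjoint_filter.2 fun e _ a b => hjk (hd j k e a b)

theorem lift_ut {J : Type} [Fintype J] [DecidableEq J] {X : E → Option J → F} (hX : Sys X c)
    (hU : UT (res X some)) (hN : 6 ≤ Fintype.card J) : UT X := by
  classical
  obtain ⟨u, hu, hT⟩ := hU
  simp only [res] at hT
  have h0 := hX.toSys0
  obtain ⟨U, hUd⟩ : ∃ U : E → Prop, ∀ e, U e ↔ ∃ s : F, s ≠ 0 ∧ ∀ j, X e (some j) = s * u j :=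
    ⟨_, fun _ => Iff.rfl⟩
  obtain ⟨D, hDd⟩ : ∃ D : J → E → Prop, ∀ j e, D j e ↔
      X e (some j) ≠ 0 ∧ ∀ k, k ≠ j → X e (some k) = 0 := ⟨_, fun _ _ => Iff.rfl⟩
  have Une : ∀ e j, U e → X e (some j) ≠ 0 := fun e j he => by
    obtain ⟨s, hs, h⟩ := (hUd e).1 he
    rw [h]; exact mul_ne_zero hs (hu j)
  have tri : ∀ e j, X e (some j) ≠ 0 → D j e ∨ U e := fun e j he => by
    rcases hT e with ⟨i, hi⟩ | ⟨s, hs⟩
    · have : j = i := by by_contra hji; exact he (hi j hji)
      subst this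
      exact Or.inl ((hDd j e).2 ⟨he, hi⟩)
    · have hs' : ∀ j, X e (some j) = s * u j := fun j => congrFun hs j
      refine Or.inr ((hUd e).2 ⟨s, fun h => he ?_, hs'⟩)
      rw [hs', h, zero_mul]
  have other : ∀ j : J, ∃ i, i ≠ j := fun j => Fintype.exists_ne_of_one_lt_card (by omega) j
  have DU : ∀ j e, D j e → ¬ U e := fun j e h1 h2 => by
    obtain ⟨i, hi⟩ := other j
    exact Une e i h2 (((hDd j e).1 h1).2 i hi)
  have hDU : ∀ j, cnt (D j) = cnt U ∧ 0 < cnt U := fun j => by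
    obtain ⟨i, hi⟩ := other j
    have e1 : cnt (fun e => X e (some i) ≠ 0 ∧ X e (some j) = u j / u i * X e (some i)) = cnt U := by
      refine cnt_congr fun e => ⟨fun ⟨a, b⟩ => (tri e i a).resolve_left fun h => ?_, fun h => ?_⟩
      · rw [((hDd i e).1 h).2 j hi.symm] at b
        exact mul_ne_zero (div_ne_zero (hu j) (hu i)) a b.symm
      · refine ⟨Une e i h, ?_⟩
        obtain ⟨s, -, h⟩ := (hUd e).1 h
        have := hu i
        rw [h, h]; field_simp
    have e2 : cnt (fun e => X e (some i) = 0 ∧ X e (some j) ≠ 0) = cnt (D j) :=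
      cnt_congr fun e => ⟨fun ⟨a, b⟩ => (tri e j b).resolve_right fun h => Une e i h a,
        fun h => ⟨((hDd j e).1 h).2 i hi, ((hDd j e).1 h).1⟩⟩
    have e3 : 0 < cnt U := by
      obtain ⟨e, a, b⟩ := hX.inter (some i) (some j)
      exact cnt_pos.2 ⟨e, (tri e j b).resolve_left fun h => a (((hDd j e).1 h).2 i hi)⟩
    have := h0.cpair (i := some i) (j := some j) (by simpa using hi) (u j / u i)
    rw [e1, e2] at this
    omega
  have hc : ∀ j, cnt (D j) + cnt U = c := fun j => by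
    rw [← cnt_or (DU j), ← h0.cnt_ne (some j)]
    exact cnt_congr fun e => ⟨fun h => h.elim (fun h => ((hDd j e).1 h).1) (Une e j), tri e j⟩
  obtain ⟨j0, hj0⟩ : ∃ j0, ∀ e, D j0 e → X e none = 0 := by
    by_contra hcon
    push Not at hcon
    have ch : ∀ j, ∃ η : F, (∃ e, D j e ∧ X e none = η * X e (some j)) ∧
        cnt U ≤ 2 * cnt (fun e => D j e ∧ X e none ≠ η * X e (some j)) := fun j => by
      obtain ⟨e1, a1, b1⟩ := hcon j
      obtain ⟨e0, a0, b0⟩ := h0.unit (some j)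
      have s0 := cnt_split (D j) fun e => X e none = 0 * X e (some j)
      by_cases hle : cnt U ≤ 2 * cnt (fun e => D j e ∧ X e none ≠ 0 * X e (some j))
      · exact ⟨0, ⟨e0, (hDd j e0).2 ⟨a0, fun k hk => b0 _ (by simpa using hk)⟩,
          by rw [b0 none (by simp), zero_mul]⟩, hle⟩
      · have n1 := ((hDd j e1).1 a1).1
        refine ⟨X e1 none / X e1 (some j), ⟨e1, a1, by field_simp⟩, ?_⟩
        have m : cnt (fun e => D j e ∧ X e none = 0 * X e (some j)) ≤
            cnt (fun e => D j e ∧ X e none ≠ X e1 none / X e1 (some j) * X e (some j)) :=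
          cnt_mono fun e ⟨a, b⟩ => ⟨a, by
            rw [b, zero_mul]
            exact (mul_ne_zero (div_ne_zero b1 n1) ((hDd j e).1 a).1).symm⟩
        have := (hDU j).1
        simp only [ne_eq] at hle m ⊢
        omega
    choose η hη hη' using ch
    have dot : ∀ (m : Option J → F) j e, D j e →
        m ⬝ᵥ X e = m none * X e none + m (some j) * X e (some j) := fun m j e he => by
      rw [dotProduct, Fintype.sum_option, Finset.sum_eq_single j]
      · intro k _ hk; rw [((hDd j e).1 he).2 k hk, mul_zero]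
      · simp only [mem_univ, not_true_eq_false, mul_eq_zero, IsEmpty.forall_iff]
    have hmin : Min X (fun o => o.elim 1 fun j => -η j) := by
      refine ⟨fun h => one_ne_zero (congrFun h none), fun m hm => ⟨m none, ?_⟩⟩
      funext o
      cases o with
      | none => simp
      | some j =>
        obtain ⟨e, a, b⟩ := hη j
        have := hm e (by rw [dot _ j e a, b]; simp)
        rw [dot _ j e a, b] at this
        have n := ((hDd j e).1 a).1
        have h2 : (m none * η j + m (some j)) * X e (some j) = 0 := by linear_combination this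
        have h3 := (mul_eq_zero.1 h2).resolve_right n
        simp only [Pi.smul_apply, Option.elim, smul_eq_mul]
        linear_combination h3
    have hw := h0.eq _ hmin
    have hs : ∑ j, cnt (fun e => D j e ∧ X e none ≠ η j * X e (some j)) ≤ c := by
      rw [← hw, wt]
      refine ulift_sum (fun j e ⟨a, b⟩ h => b ?_) fun j k e a b => ?_
      · rw [dot _ j e a] at h
        simp only [Option.elim] at h
        linear_combination h
      · by_contra hjk
        exact ((hDd j e).1 a.1).1 (((hDd k e).1 b.1).2 j hjk)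
    have hs2 : ∑ _j : J, cnt U ≤ ∑ j, 2 * cnt (fun e => D j e ∧ X e none ≠ η j * X e (some j)) :=
      sum_le_sum fun j _ => hη' j
    rw [← mul_sum, sum_const, card_univ, smul_eq_mul] at hs2
    obtain ⟨j⟩ : Nonempty J := Fintype.card_pos_iff.1 (by omega)
    have a1 := hDU j
    have a2 := hc j
    have a3 := Nat.mul_le_mul_right (cnt U) hN
    omega
  obtain ⟨e0, a0, b0⟩ := hX.inter (some j0) none
  have hh := h0.half (i := some j0) (j := none) (by simp) ⟨e0, a0, b0⟩
  have hz := h0.cpair_zero (some j0) none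
  have hm : cnt (D j0) ≤ cnt (fun e => X e (some j0) ≠ 0 ∧ X e none = 0) :=
    cnt_mono fun e he => ⟨((hDd j0 e).1 he).1, hj0 e he⟩
  have hβ := div_ne_zero b0 a0
  obtain ⟨β, hβe⟩ : ∃ β, β = X e0 none / X e0 (some j0) := ⟨_, rfl⟩
  rw [← hβe] at hβ
  have hcl : ∀ e, U e → X e (some j0) ≠ 0 ∧ X e none = β * X e (some j0) := by
    refine ulift_sub (fun e ⟨a, b⟩ => (tri e j0 a).resolve_left fun h => ?_) ?_
    · rw [hj0 e h] at b; exact mul_ne_zero hβ a b.symm
    · have p1 : 0 < cnt (fun e => X e (some j0) ≠ 0 ∧ X e none = β * X e (some j0)) :=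
        cnt_pos.2 ⟨e0, a0, by rw [hβe]; field_simp⟩
      have := h0.cpair (i := some j0) (j := none) (by simp) β
      have := (hDU j0).1
      omega
  have hall : ∀ j e, D j e → X e none = 0 := fun j e he => by
    have m1 : cnt U ≤ cnt (fun e => X e (some j) ≠ 0 ∧ X e none = β * u j0 / u j * X e (some j)) :=
      cnt_mono fun e he => ⟨Une e j he, by
        obtain ⟨s, -, h⟩ := (hUd e).1 he
        have := hu j
        rw [(hcl e he).2, h, h]; field_simp⟩
    have m2 := h0.cpair (i := some j) (j := none) (by simp) (β * u j0 / u j)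
    have m3 := h0.cpair_zero (some j) none
    have m4 := hDU j
    refine (ulift_sub (p := fun e => X e (some j) ≠ 0 ∧ X e none = 0) (fun e ⟨a, b⟩ =>
      (tri e j a).resolve_right fun h => ?_) (by omega) e he).2
    exact mul_ne_zero hβ (hcl e h).1 ((hcl e h).2.symm.trans b)
  refine ⟨fun o => o.elim (β * u j0) u, fun o => ?_, fun e => ?_⟩
  · cases o with
    | none => exact mul_ne_zero hβ (hu j0)
    | some j => exact hu j
  · by_cases hz : ∃ j, X e (some j) ≠ 0
    · obtain ⟨j, hj⟩ := hz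
      rcases tri e j hj with h | h
      · refine Or.inl ⟨some j, fun o ho => ?_⟩
        cases o with
        | none => exact hall j e h
        | some k => exact ((hDd j e).1 h).2 k (by simpa using ho)
      · obtain ⟨s, -, h'⟩ := (hUd e).1 h
        refine Or.inr ⟨s, funext fun o => ?_⟩
        cases o with
        | none =>
          simp only [Pi.smul_apply, Option.elim, smul_eq_mul]
          rw [(hcl e h).2, h']; ring
        | some k => simpa using h' k
    · push Not at hz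
      refine Or.inl ⟨none, fun o ho => ?_⟩
      cases o with
      | none => exact absurd rfl ho
      | some k => exact hz k

theorem ulift_ind {ι : Type} [Fintype ι] {x : E → ι → F} (hx : Sys x c) (n : ℕ) :
    ∀ (κ : Type) [Fintype κ] (f : κ → ι), Function.Injective f → 6 ≤ Fintype.card κ →
      Fintype.card ι ≤ Fintype.card κ + n → UT (res x f) → UT x := by
  classical
  have key : ∀ (κ : Type) [Fintype κ] (f : κ → ι), Function.Bijective f → UT (res x f) → UT x := by
    rintro κ _ f hf ⟨u, hu, hT⟩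
    obtain ⟨g, hg1, hg2⟩ := Function.bijective_iff_has_inverse.1 hf
    refine ⟨fun i => u (g i), fun i => hu _, fun e => (hT e).imp ?_ ?_⟩
    · rintro ⟨i, hi⟩
      refine ⟨f i, fun j hj => ?_⟩
      have := hi (g j) fun h => hj (by rw [← h, hg2])
      rwa [res, hg2] at this
    · rintro ⟨s, hs⟩
      refine ⟨s, funext fun i => ?_⟩
      have := congrFun hs (g i)
      rwa [res, hg2] at this
  induction n with
  | zero =>
    intro κ _ f hf _ hc hU
    exact key κ f ((Fintype.bijective_iff_injective_and_card f).2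
      ⟨hf, le_antisymm (Fintype.card_le_of_injective f hf) hc⟩) hU
  | succ n ih =>
    intro κ _ f hf h6 hc hU
    by_cases hs : Function.Surjective f
    · exact key κ f ⟨hf, hs⟩ hU
    · obtain ⟨i, hi⟩ := not_forall.1 hs
      have hg : Function.Injective (fun o : Option κ => o.elim i f) := by
        rintro (_ | a) (_ | b) h
        · rfl
        · exact absurd ⟨b, h.symm⟩ hi
        · exact absurd ⟨a, h⟩ hi
        · exact congrArg some (hf h)
      exact ih (Option κ) _ hg (by simp only [Fintype.card_option, Nat.reduceLeDiff]; omega) (by simp only [Fintype.card_option]; omega) (lift_ut (hx.restr hg) hU h6)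

theorem ut_all {ι : Type} [Fintype ι] [DecidableEq ι] {x : E → ι → F} (hx : Sys x c) {N : ℕ}
    (hN : 6 ≤ N) {f : Fin N → ι} (hf : Function.Injective f) (hU : UT (res x f)) : UT x := by
  exact ulift_ind hx (Fintype.card ι) (Fin N) f hf (by simpa only [Fintype.card_fin] using hN) (Nat.le_add_left _ _) hU

end Pool.Agent.MP_337c4e_co.H33

end
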