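import Pool.Agent.MP_337c4e_co.Mg.H33_RepB

attribute [-instance] Pi.instNonempty FunLike.toDecidableEq AddQuantale.instAddLeftMono
  Group.IsPerfect.subsingleton_of_isMulCommutative instCharZeroOfIsSemireal
  Fintype.decidableForallFintype NumberField.to_charZero LinearOrder.toDecidableEq RKHS.instFunLike
  bot_nonempty CategoryTheory.Limits.Concrete.instUniqueToTypeTerminal
  IdemSemiring.toCanonicallyOrderedAdd Zero.instNonempty One.instNonempty IdemSemiring.toSemiring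
  AddTorsor.nonempty AddQuantale.instAddRightMono RCLike.charZero_rclike Unique.instSubsingleton
  LinearOrderedCommMonoidWithZero.toPosMulStrictMono FirstOrder.Language.instDecidableEqRelations
  ConnectedSpace.toNonempty top_nonempty continuousSub_of_discreteTopology Torsor.nonempty
  instCoeTOfCoeDep Infinite.instNontrivial instNonemptyOfMonad Quantale.instMulRightMono
  decidableEq_of_subsingleton instInhabitedOfMonad IsSimpleRing.instNontrivial
  FirstOrder.Language.instDecidableEqFunctions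

namespace Pool.Agent.MP_337c4e_co.H33

open Finset Matrix

theorem ramA_lim {C : Type} [Finite C] (f : ℕ → C) :
    ∃ c, ∀ᶠ a in (Filter.hyperfilter ℕ : Filter ℕ), f a = c :=
  Ultrafilter.eventually_exists_iff.1 (Filter.Eventually.of_forall fun a => ⟨f a, rfl⟩)

theorem ramA_set {C : Type} [Finite C] (r R : ℕ) (col : Finset ℕ → C) :
    ∃ s : Finset ℕ, #s = R ∧ ∃ c, ∀ u ⊆ s, #u = r → col u = c := by
  choose lim hlim using ramA_lim (C := C)
  let G : ℕ → Finset ℕ → C := fun k => Nat.rec col (fun _ H u => lim fun a => H (insert a u)) k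
  have key : ∃ s : Finset ℕ, #s = R ∧ ∀ u ⊆ s, ∀ k, k + #u ≤ r → G k u = G (k + #u) ∅ := by
    induction R with
    | zero => exact ⟨∅, rfl, fun u hu k _ => by rw [subset_empty.1 hu]; rfl⟩
    | succ R ih =>
      obtain ⟨s, hs, h⟩ := ih
      obtain ⟨a, ha, h2⟩ := (s.eventually_cofinite_notMem.filter_mono Filter.hyperfilter_le_cofinite).and
        ((s.powerset ×ˢ range r).eventually_all.2 fun p _ => hlim fun a => G p.2 (insert a p.1)) |>.exists
      refine ⟨insert a s, by rw [card_insert_of_notMem ha, hs], fun u hu k hk => ?_⟩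
      by_cases hau : a ∈ u
      · have h3 : u.erase a ⊆ s := subset_insert_iff.1 hu
        have h4 := card_erase_add_one hau
        have h5 := h2 (u.erase a, k) (mem_product.2 ⟨mem_powerset.2 h3, mem_range.2 (by omega)⟩)
        rw [insert_erase hau] at h5
        rw [h5, show k + #u = k + 1 + #(u.erase a) by omega]
        exact h _ h3 (k + 1) (by omega)
      · exact h u ((subset_insert_iff_of_notMem hau).1 hu) k hk
  obtain ⟨s, hs, h⟩ := key
  exact ⟨s, hs, G (0 + r) ∅, fun u hu hr => hr ▸ h u hu 0 (by omega)⟩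

theorem ramA_nat {C : Type} [Finite C] (r R : ℕ) (col : (Fin r → ℕ) → C) :
    ∃ g : Fin R → ℕ, StrictMono g ∧ ∃ c, ∀ t : Fin r → Fin R, StrictMono t → col (g ∘ t) = c := by
  obtain ⟨s, hs, c, h⟩ := ramA_set r R fun u => col (if h : #u = r then u.orderEmbOfFin h else 0)
  have hg := (s.orderEmbOfFin hs).strictMono
  refine ⟨_, hg, c, fun t ht => ?_⟩
  have h1 : #(univ.image (s.orderEmbOfFin hs ∘ t)) = r := by
    rw [card_image_of_injective _ (hg.comp ht).injective, card_univ, Fintype.card_fin]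
  rw [← h (univ.image (s.orderEmbOfFin hs ∘ t)) (image_subset_iff.2 fun i _ => s.orderEmbOfFin_mem hs _) h1, dif_pos h1,
    ← orderEmbOfFin_unique h1 (fun i => mem_image_of_mem _ (mem_univ i)) (hg.comp ht)]

theorem ramsey (C : Type) [Finite C] (r R : ℕ) : ∃ n : ℕ, ∀ col : (Fin r → Fin n) → C,
    ∃ g : Fin R → Fin n, StrictMono g ∧ ∀ t t' : Fin r → Fin R, StrictMono t → StrictMono t' →
      col (g ∘ t) = col (g ∘ t') := by
  by_contra hc
  choose bad hbad using fun n => not_forall.1 (not_exists.1 hc (n + 1))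
  choose lim hlim using ramA_lim (C := C)
  obtain ⟨g, hg, c, h⟩ := ramA_nat r R fun t => lim fun n => bad n fun i => Fin.ofNat (n + 1) (t i)
  obtain ⟨n, h1, h2⟩ := ((Filter.eventually_all.2 fun i => Filter.eventually_ge_atTop (g i)).filter_mono
    Nat.hyperfilter_le_atTop).and (Filter.eventually_all.2 fun t : Fin r → Fin R =>
      hlim fun n => bad n fun i => Fin.ofNat (n + 1) ((g ∘ t) i)) |>.exists
  refine hbad n ⟨fun i => Fin.ofNat (n + 1) (g i), fun i j hij => ?_, fun t t' ht ht' =>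
    ((h2 t).trans (h t ht)).trans ((h2 t').trans (h t' ht')).symm⟩
  simpa [Fin.lt_def, Nat.mod_eq_of_lt (Nat.lt_succ_of_le (h1 _))] using hg hij

theorem ramA_one (F : Type) [Field F] [Finite F] (r R : ℕ) : ∃ n : ℕ,
    ∀ (E : Type) (x : E → Fin n → F), ∃ g : Fin R → Fin n, StrictMono g ∧ Homog (res x g) r := by
  obtain ⟨n, h⟩ := ramsey (Set (Fin r → F)) r R
  refine ⟨n, fun E x => ?_⟩
  obtain ⟨g, hg, h⟩ := h fun t => {π | Pres x t π}
  exact ⟨g, hg, fun t t' ht ht' π hπ => (h t t' ht ht').subset hπ⟩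

theorem ramA_res {E F : Type} [Field F] {R R' r : ℕ} {x : E → Fin R → F} (h : Homog x r)
    {g : Fin R' → Fin R} (hg : StrictMono g) : Homog (res x g) r :=
  fun _ _ ht ht' π hπ => h _ _ (hg.comp ht) (hg.comp ht') π hπ

theorem exists_homog (F : Type) [Field F] [Finite F] (R : ℕ) : ∃ n : ℕ,
    ∀ (E : Type) [Fintype E] (x : E → Fin n → F), ∃ g : Fin R → Fin n, StrictMono g ∧
      Homog (res x g) 2 ∧ Homog (res x g) 3 ∧ Homog (res x g) 4 := by
  obtain ⟨n₂, h₂⟩ := ramA_one F 2 R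
  obtain ⟨n₃, h₃⟩ := ramA_one F 3 n₂
  obtain ⟨n₄, h₄⟩ := ramA_one F 4 n₃
  refine ⟨n₄, fun E _ x => ?_⟩
  obtain ⟨g₄, m₄, k₄⟩ := h₄ E x
  obtain ⟨g₃, m₃, k₃⟩ := h₃ E (res x g₄)
  obtain ⟨g₂, m₂, k₂⟩ := h₂ E (res (res x g₄) g₃)
  exact ⟨g₄ ∘ g₃ ∘ g₂, m₄.comp (m₃.comp m₂), k₂, ramA_res k₃ m₂, ramA_res k₄ (m₃.comp m₂)⟩

theorem Homog.inj {E : Type} [Fintype E] {F : Type} [Field F] {R r : ℕ} {x : E → Fin R → F}
    (h : Homog x r) (A : Set F)
    (hA : ∀ π : Fin r → F, (∀ a, π a ∈ A) → ∃ t, StrictMono t ∧ Pres x t π)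
    {t : Fin r → Fin R} (ht : Function.Injective t) {π : Fin r → F} (hπ : ∀ a, π a ∈ A) :
    Pres x t π := by
  obtain ⟨t', ht', h'⟩ := hA (π ∘ Tuple.sort t) fun a => hπ _
  obtain ⟨e, s, hs, he⟩ := h t' _ ht' ((Tuple.monotone_sort t).strictMono_of_injective
    (ht.comp (Tuple.sort t).injective)) _ h'
  exact ⟨e, s, hs, fun a => by simpa using he ((Tuple.sort t).symm a)⟩

lemma ramB_pair {N R : ℕ} (a b : Fin N) :
    cnt (fun t : Fin N → Fin R => a ≠ b ∧ t a = t b) * R ≤ R ^ N := by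
  classical
  rw [cnt_eq]
  have h1 : ((univ.filter fun t : Fin N → Fin R => a ≠ b ∧ t a = t b) ×ˢ
      (univ : Finset (Fin R))).card ≤ (univ : Finset (Fin N → Fin R)).card := by
    refine card_le_card_of_injOn (fun p => Function.update p.1 a p.2) (fun _ _ => mem_univ _) ?_
    rintro ⟨t, v⟩ ht ⟨t', v'⟩ ht' h
    simp only [coe_product, Set.mem_prod, mem_coe, mem_filter, mem_univ, true_and,
      and_true] at ht ht'
    have hne : ∀ j, j ≠ a → t j = t' j := fun j hj => by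
      have := congrFun h j
      simpa [Function.update_of_ne hj] using this
    have hv : v = v' := by simpa using congrFun h a
    refine Prod.ext (funext fun j => ?_) hv
    by_cases hj : j = a
    · subst hj
      show t j = t' j
      rw [ht.2, ht'.2]; exact hne b (Ne.symm ht.1)
    · exact hne j hj
  simpa only [ne_eq, ge_iff_le, card_product, card_univ, Fintype.card_fin, Fintype.card_pi, prod_const] using h1

theorem card_noninj (N R : ℕ) :
    cnt (fun t : Fin N → Fin R => ¬ Function.Injective t) * R ≤ N ^ 2 * R ^ N := by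
  have h1 : cnt (fun t : Fin N → Fin R => ¬ Function.Injective t) ≤
      ∑ p : Fin N × Fin N, cnt (fun t : Fin N → Fin R => p.1 ≠ p.2 ∧ t p.1 = t p.2) := by
    refine le_trans (cnt_mono fun t ht => ?_)
      (cnt_exists_le fun (p : Fin N × Fin N) (t : Fin N → Fin R) => p.1 ≠ p.2 ∧ t p.1 = t p.2)
    by_contra hc
    exact ht fun a b hab => by
      by_contra hne
      exact hc ⟨(a, b), hne, hab⟩
  calc _ ≤ (∑ p : Fin N × Fin N,
        cnt (fun t : Fin N → Fin R => p.1 ≠ p.2 ∧ t p.1 = t p.2)) * R := Nat.mul_le_mul_right _ h1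
    _ = ∑ p : Fin N × Fin N, cnt (fun t : Fin N → Fin R => p.1 ≠ p.2 ∧ t p.1 = t p.2) * R :=
        sum_mul _ _ _
    _ ≤ ∑ _p : Fin N × Fin N, R ^ N := sum_le_sum fun p _ => ramB_pair p.1 p.2
    _ = N ^ 2 * R ^ N := by simp only [sum_const, card_univ, Fintype.card_prod, Fintype.card_fin, smul_eq_mul, sq]

lemma ramB_sum {A : Type} {Q : Set A} {T : ℕ → (A → ℝ) → ℝ} (hT : ∀ B, PosFn Q (T B))
    (U : Filter ℕ) {J : Type} (s : Finset J) (G : J → A → ℝ)
    (h : ∀ j ∈ s, Filter.Tendsto (fun B => T B (G j)) U (nhds 0)) :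
    Filter.Tendsto (fun B => T B fun z => ∑ j ∈ s, G j z) U (nhds 0) := by
  classical
  induction s using Finset.induction_on with
  | empty =>
    have : ∀ B, T B (fun _ => 0) = 0 := fun B => by
      simpa using (hT B).smul 0 fun _ => 0
    simpa [this] using tendsto_const_nhds
  | insert j s hj ih =>
    simp only [sum_insert hj]
    have := (h j (mem_insert_self _ _)).add (ih fun i hi => h i (mem_insert_of_mem hi))
    rw [add_zero] at this
    exact this.congr fun B => ((hT B).add _ _).symm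

lemma ramB_dom {A : Type} [TopologicalSpace A] {Q : Set A} (hQ : IsCompact Q)
    {T : ℕ → (A → ℝ) → ℝ} (hT : ∀ B, PosFn Q (T B)) (U : Filter ℕ) {g : A → ℝ}
    (hg : Continuous g) (h0 : ∀ y ∈ Supp Q T U, g y = 0) {η : ℝ} (hη : 0 < η) :
    ∃ G : A → ℝ, (∀ z ∈ Q, 0 ≤ G z) ∧ Filter.Tendsto (fun B => T B G) U (nhds 0) ∧
      ∀ z ∈ Q, |g z| ≤ η + G z := by
  classical
  obtain ⟨M, hM⟩ := hQ.bddAbove_image hg.abs.continuousOn
  have hK : IsCompact (Q ∩ {z | η ≤ |g z|}) :=
    hQ.inter_right (isClosed_le continuous_const hg.abs)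
  have key : ∀ y : ↥(Q ∩ {z | η ≤ |g z|}), ∃ f : A → ℝ, Continuous f ∧ (∀ z ∈ Q, 0 ≤ f z) ∧
      Filter.Tendsto (fun B => T B f) U (nhds 0) ∧ M < f y := by
    rintro ⟨y, hy, hy'⟩
    have hn : y ∉ Supp Q T U := fun h => by
      have h2 : η ≤ |g y| := hy'
      rw [h0 y h, abs_zero] at h2; linarith
    have : ∃ f : A → ℝ, Continuous f ∧ (∀ z ∈ Q, 0 ≤ f z) ∧
        Filter.Tendsto (fun B => T B f) U (nhds 0) ∧ f y ≠ 0 := by
      by_contra hc
      exact hn ⟨hy, fun f h1 h2 h3 => by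
        by_contra h4
        exact hc ⟨f, h1, h2, h3, h4⟩⟩
    obtain ⟨f, h1, h2, h3, h4⟩ := this
    have hp : 0 < f y := lt_of_le_of_ne (h2 y hy) (Ne.symm h4)
    have hc : 0 ≤ (|M| + 1) / f y := by positivity
    refine ⟨fun z => (|M| + 1) / f y * f z, continuous_const.mul h1,
      fun z hz => mul_nonneg hc (h2 z hz), ?_, ?_⟩
    · have := h3.const_mul ((|M| + 1) / f y)
      rw [mul_zero] at this
      exact this.congr fun B => ((hT B).smul _ _).symm
    · show M < (|M| + 1) / f y * f y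
      rw [div_mul_cancel₀ _ h4]; linarith only [le_abs_self M]
  choose f hf1 hf2 hf3 hf4 using key
  obtain ⟨s, hs⟩ := hK.elim_finite_subcover (fun y => {z | M < f y z})
    (fun y => isOpen_lt continuous_const (hf1 y))
    (fun z hz => Set.mem_iUnion.2 ⟨⟨z, hz⟩, hf4 ⟨z, hz⟩⟩)
  have hn : ∀ z ∈ Q, 0 ≤ ∑ j ∈ s, f j z := fun z hz => sum_nonneg fun j _ => hf2 j z hz
  refine ⟨fun z => ∑ j ∈ s, f j z, hn, ramB_sum hT U s f fun j _ => hf3 j, fun z hz => ?_⟩
  by_cases hz' : η ≤ |g z|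
  · obtain ⟨j, hj, hj'⟩ := Set.mem_iUnion₂.1 (hs ⟨hz, hz'⟩)
    have h1 : f j z ≤ ∑ j ∈ s, f j z := single_le_sum (fun i _ => hf2 i z hz) hj
    have h2 : |g z| ≤ M := hM ⟨z, hz, rfl⟩
    have h3 : M < f j z := hj'
    show |g z| ≤ η + ∑ j ∈ s, f j z
    linarith
  · have := hn z hz
    show |g z| ≤ η + ∑ j ∈ s, f j z
    linarith [not_le.1 hz']

theorem supp_tendsto {A : Type} [TopologicalSpace A] {Q : Set A} (hQ : IsCompact Q)
    {T : ℕ → (A → ℝ) → ℝ} (hT : ∀ B, PosFn Q (T B)) (U : Filter ℕ) {g : A → ℝ}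
    (hg : Continuous g) (h0 : ∀ y ∈ Supp Q T U, g y = 0) :
    Filter.Tendsto (fun B => T B g) U (nhds 0) := by
  rw [Metric.tendsto_nhds]
  intro ε hε
  obtain ⟨G, hG0, hGT, hG⟩ := ramB_dom hQ hT U hg h0 (half_pos hε)
  filter_upwards [(Metric.tendsto_nhds.1 hGT) (ε / 2) (half_pos hε)] with B hB
  have e1 : T B (fun z => ε / 2 * 1 + G z) = ε / 2 + T B G := by
    rw [(hT B).add (fun _ => ε / 2 * 1) G, (hT B).smul (ε / 2) (fun _ => 1), (hT B).one, mul_one]
  have h1 := (hT B).mono g (fun z => ε / 2 * 1 + G z) fun z hz => by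
    have := hG z hz; have := le_abs_self (g z); linarith
  have h2 := (hT B).mono (fun z => (-1) * g z) (fun z => ε / 2 * 1 + G z) fun z hz => by
    have := hG z hz; have := neg_abs_le (g z); linarith
  rw [(hT B).smul, e1] at h2
  rw [e1] at h1
  rw [Real.dist_eq, sub_zero, abs_lt] at hB ⊢
  constructor <;> linarith only [hB.2, h2, h1]

end Pool.Agent.MP_337c4e_co.H33

namespace Pool.Agent.MP_337c4e_co.H33

open Finset Matrix

variable {E : Type} [Fintype E] {F : Type} [Field F] [Fintype F] {R : ℕ} {x : E → Fin R → F}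
  {c : ℕ}

omit [Fintype E] [Field F] [Fintype F] in
theorem empA1_nn (e : E) (a : F) : 0 ≤ emp x e a := by unfold emp; positivity

omit [Fintype E] [Field F] in
theorem empA1_sum (e : E) (G : F → ℝ) : ∑ s, emp x e s * G s = (∑ i, G (x e i)) / R := by
  classical
  simp only [emp, cnt_cast, div_mul_eq_mul_div, sum_mul, ← sum_div]
  rw [sum_comm]
  congr 1
  refine sum_congr rfl fun i _ => ?_
  simp only [ite_mul, one_mul, zero_mul, sum_ite_eq, mem_univ, ↓ reduceIte]

omit [Fintype E] [Field F] in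
theorem empA1_one (hR : 0 < R) (e : E) : ∑ s, emp x e s = 1 := by
  have h := empA1_sum (x := x) e fun _ => 1
  have h0 : (R : ℝ) ≠ 0 := by positivity
  simpa only [mul_one, sum_const, card_univ, Fintype.card_fin, nsmul_eq_mul, ne_eq, h0, not_false_eq_true, div_self] using h

open Classical in
theorem empA1_th (g : (F → ℝ) → ℝ) : Th x c g =
    (∑ e, ∑ i, if x e i = 0 then (0 : ℝ) else g fun z => emp x e (x e i * z)) / R / c := by
  unfold Th
  congr 1
  rw [sum_div]
  refine sum_congr rfl fun e _ => ?_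
  refine Eq.trans ?_ (empA1_sum (x := x) e fun s =>
    if s = 0 then (0 : ℝ) else g fun z => emp x e (s * z))
  refine sum_congr rfl fun s _ => ?_
  split_ifs <;> simp

open Classical in
theorem empA1_pairs (hR : 2 ≤ R) :
    (R : ℝ) ^ 2 / 4 ≤ ∑ i : Fin R, ∑ j : Fin R, if i < j then (1 : ℝ) else 0 := by
  have h1 : (∑ i : Fin R, ∑ j : Fin R, if i < j then (1 : ℝ) else 0) =
      ∑ i : Fin R, ∑ j : Fin R, if j < i then (1 : ℝ) else 0 := sum_comm
  have h2 : (∑ i : Fin R, ∑ j : Fin R, if i < j then (1 : ℝ) else 0) +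
      (∑ i : Fin R, ∑ j : Fin R, if j < i then (1 : ℝ) else 0) +
      (∑ i : Fin R, ∑ j : Fin R, if i = j then (1 : ℝ) else 0) =
      ∑ _i : Fin R, ∑ _j : Fin R, (1 : ℝ) := by
    simp only [← sum_add_distrib]
    refine sum_congr rfl fun i _ => sum_congr rfl fun j _ => ?_
    rcases lt_trichotomy i j with h | h | h
    · simp [h, h.ne, h.not_gt]
    · simp [h]
    · simp [h, h.ne', h.not_gt]
  have h3 : (∑ i : Fin R, ∑ j : Fin R, if i = j then (1 : ℝ) else 0) = R := by simp only [sum_ite_eq, mem_univ, ↓ reduceIte, sum_const, card_univ, Fintype.card_fin, nsmul_eq_mul, mul_one]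
  have h4 : (∑ _i : Fin R, ∑ _j : Fin R, (1 : ℝ)) = R * R := by simp only [sum_const, card_univ, Fintype.card_fin, nsmul_eq_mul, mul_one]
  have h5 : (2 : ℝ) ≤ R := by exact_mod_cast hR
  nlinarith only [h1, h2, h3, h4, h5]

theorem empA1_sm {i j : Fin R} (hij : i < j) : StrictMono ![i, j] := by
  intro a b hab
  fin_cases a <;> fin_cases b <;> simp_all

theorem emp_mem (hR : 0 < R) (e : E) {s : F} (hs : s ≠ 0) :
    (fun z => emp x e (s * z)) ∈ stdSimplex ℝ F := by
  refine ⟨fun z => empA1_nn e _, ?_⟩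
  rw [← empA1_one (x := x) hR e]
  exact Equiv.sum_comp (Equiv.mulLeft₀ s hs) (emp x e)

theorem th_pos (h : Sys0 x c) (hR : 0 < R) : PosFn (stdSimplex ℝ F) (Th x c) := by
  classical
  have hc : (0 : ℝ) < c := by exact_mod_cast h.pos ⟨0, hR⟩
  have hR' : (0 : ℝ) < R := by exact_mod_cast hR
  refine ⟨fun g g' => ?_, fun a g => ?_, fun g g' hg => ?_, ?_⟩
  · unfold Th
    rw [← add_div, ← sum_add_distrib]
    congr 1
    refine sum_congr rfl fun e _ => ?_
    rw [← sum_add_distrib]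
    refine sum_congr rfl fun s _ => ?_
    split_ifs <;> ring
  · unfold Th
    rw [← mul_div_assoc, mul_sum]
    congr 1
    refine sum_congr rfl fun e _ => ?_
    rw [mul_sum]
    refine sum_congr rfl fun s _ => ?_
    split_ifs <;> ring
  · unfold Th
    refine div_le_div_of_nonneg_right (sum_le_sum fun e _ => sum_le_sum fun s _ => ?_) hc.le
    split_ifs with hs
    · exact le_rfl
    · exact mul_le_mul_of_nonneg_left (hg _ (emp_mem hR e hs)) (empA1_nn e s)
  · rw [empA1_th, sum_comm]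
    have : ∀ i, (∑ e, if x e i = 0 then (0 : ℝ) else 1) = c := fun i => by
      rw [← h.cnt_ne i, cnt_cast]
      refine sum_congr rfl fun e _ => ?_
      by_cases he : x e i = 0 <;> simp [he]
    simp only [this, sum_const, card_univ, Fintype.card_fin, nsmul_eq_mul]
    field_simp

theorem th_swap {a : F} (ha : a ≠ 0) :
    Th x c (fun ν => ν a ^ 2) = Th x c (fun ν => ν 1 * ν a⁻¹) := by
  classical
  unfold Th
  congr 1
  refine sum_congr rfl fun e _ => ?_
  rw [← Equiv.sum_comp (Equiv.mulRight₀ a ha)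
    fun s => if s = 0 then 0 else emp x e s * (emp x e (s * 1) * emp x e (s * a⁻¹))]
  refine sum_congr rfl fun s _ => ?_
  by_cases hs : s = 0
  · simp [hs]
  · simp [hs, ha]
    ring

theorem th_ratio (h : Sys0 x c) (h2 : Homog x 2) {β : F} {i j : Fin R} (hij : i < j)
    (he : ∃ e, x e i ≠ 0 ∧ x e j = β * x e i) :
    1 / (4 * (Fintype.card F : ℝ)) ≤ Th x c (fun ν => ν β) := by
  classical
  have hR : 2 ≤ R := by have := j.2; have : (i : ℕ) < j := hij; omega
  have hc : (0 : ℝ) < c := by exact_mod_cast h.pos i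
  have hR' : (0 : ℝ) < R := by positivity
  have hq : (0 : ℝ) < Fintype.card F := by exact_mod_cast Fintype.card_pos
  have hcl : ∀ i' j' : Fin R, (if i' < j' then (1 : ℝ) else 0) * (c / Fintype.card F) ≤
      cnt (fun e => x e i' ≠ 0 ∧ x e j' = β * x e i') := by
    intro i' j'
    split_ifs with hlt
    · obtain ⟨e, he1, he2⟩ := he
      obtain ⟨e', s, hs, hs'⟩ := h2 ![i, j] ![i', j'] (empA1_sm hij) (empA1_sm hlt) ![1, β]
        ⟨e, x e i, he1, fun a => by fin_cases a <;> simp [he2, mul_comm]⟩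
      have a0 : x e' i' = s := by simpa using hs' 0
      have a1 : x e' j' = s * β := by simpa using hs' 1
      have hpos : 0 < cnt (fun e => x e i' ≠ 0 ∧ x e j' = β * x e i') :=
        cnt_pos.2 ⟨e', a0 ▸ hs, by rw [a1, a0, mul_comm]⟩
      have := h.q_d hlt.ne
      rw [← (h.cpair hlt.ne β).resolve_left hpos.ne'] at this
      rw [one_mul, div_le_iff₀ hq, mul_comm]
      exact_mod_cast this
    · simp only [zero_mul, ne_eq, Nat.cast_nonneg]
  have hsum : (∑ e, ∑ i', if x e i' = 0 then 0 else emp x e (x e i' * β)) =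
      (∑ i' : Fin R, ∑ j' : Fin R,
        (cnt (fun e => x e i' ≠ 0 ∧ x e j' = β * x e i') : ℝ)) / R := by
    rw [sum_comm, sum_div]
    refine sum_congr rfl fun i' _ => ?_
    simp only [cnt_cast]
    rw [sum_comm, sum_div]
    refine sum_congr rfl fun e _ => ?_
    by_cases h0 : x e i' = 0
    · simp only [h0, ↓ reduceIte, ne_eq, not_true_eq_false, mul_zero, false_and, sum_const_zero, zero_div]
    · simp only [h0, ↓ reduceIte, emp, mul_comm, cnt_cast, sum_boole, ne_eq, not_false_eq_true, true_and]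
  have hlow : (R : ℝ) ^ 2 / 4 * (c / Fintype.card F) ≤ ∑ i' : Fin R, ∑ j' : Fin R,
      (cnt (fun e => x e i' ≠ 0 ∧ x e j' = β * x e i') : ℝ) := by
    refine (mul_le_mul_of_nonneg_right (empA1_pairs hR) (by positivity)).trans ?_
    simp only [sum_mul]
    exact sum_le_sum fun i' _ => sum_le_sum fun j' _ => hcl i' j'
  rw [empA1_th]
  simp only []
  rw [hsum, le_div_iff₀ hc, le_div_iff₀ hR', le_div_iff₀ hR']
  refine le_trans (le_of_eq ?_) hlow
  field_simp

lemma empA2_comb (p q r w : E → Prop)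
    (hw : ∀ e, (p e ∧ ¬ q e ∧ ¬ r e) ∨ (¬ p e ∧ q e ∧ ¬ r e) ∨ (¬ p e ∧ ¬ q e ∧ r e) ∨
      (p e ∧ q e ∧ r e) → w e) :
    cnt p + cnt q + cnt r + 4 * cnt (fun e => p e ∧ q e ∧ r e) ≤ cnt w +
      2 * cnt (fun e => p e ∧ q e) + 2 * cnt (fun e => p e ∧ r e) + 2 * cnt (fun e => q e ∧ r e) := by
  zify
  simp only [cnt_cast ℤ, mul_sum, ← sum_add_distrib]
  refine sum_le_sum fun e _ => ?_
  have := hw e
  by_cases a : p e <;> by_cases b : q e <;> by_cases c : r e <;> by_cases d : w e <;> simp_all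

lemma empA2_split (p q r : E → Prop) : cnt (fun e => p e ∧ q e) =
    cnt (fun e => p e ∧ q e ∧ r e) + cnt (fun e => p e ∧ q e ∧ ¬ r e) := by
  rw [cnt_split _ r]
  simp only [and_assoc]

lemma empA2_prod {A : Type} [Fintype A] (p q r : A → Prop) :
    cnt (fun t : Fin 3 → A => p (t 0) ∧ q (t 1) ∧ r (t 2)) = cnt p * cnt q * cnt r := by
  classical
  have : univ.filter (fun t : Fin 3 → A => p (t 0) ∧ q (t 1) ∧ r (t 2)) =
      Fintype.piFinset ![univ.filter p, univ.filter q, univ.filter r] := by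
    ext t
    simp only [Fin.isValue, mem_filter, mem_univ, true_and, Nat.succ_eq_add_one, Nat.reduceAdd, Fintype.mem_piFinset, Fin.forall_fin_succ, cons_val_zero, cons_val_succ, Fin.succ_zero_eq_one, cons_val_fin_one, Fin.succ_one_eq_two, IsEmpty.forall_iff, and_true]
  rw [cnt_eq, this, Fintype.card_piFinset, Fin.prod_univ_three, cnt_eq, cnt_eq, cnt_eq]
  rfl

omit [Fintype F] in
lemma empA2_two (h : Sys x c) (h1 : ∀ e i j, x e i ≠ 0 → x e j ≠ 0 → x e j = x e i)
    {i j : Fin R} (hij : i ≠ j) : 2 * cnt (fun e => x e i ≠ 0 ∧ x e j ≠ 0) = c := by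
  have a1 := cnt_split (fun e => x e i ≠ 0) (fun e => x e j ≠ 0)
  have a2 := h.toSys0.cnt_ne i
  have a3 := h.toSys0.cpair_zero i j
  have a4 := h.toSys0.cpair hij 1
  have a5 : cnt (fun e => x e i ≠ 0 ∧ x e j = 1 * x e i) = cnt (fun e => x e i ≠ 0 ∧ x e j ≠ 0) :=
    cnt_congr fun e => ⟨fun a => ⟨a.1, by rw [a.2, one_mul]; exact a.1⟩,
      fun a => ⟨a.1, by rw [one_mul]; exact h1 e i j a.1 a.2⟩⟩
  have a6 : 0 < cnt (fun e => x e i ≠ 0 ∧ x e j ≠ 0) := cnt_pos.2 (h.inter i j)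
  simp only [not_not] at a1
  omega

omit [Fintype F] in
lemma empA2_lt (h : Sys x c) (h3 : Homog x 3)
    (h1 : ∀ e i j, x e i ≠ 0 → x e j ≠ 0 → x e j = x e i) (hU : ¬ UT x) {t : Fin 3 → Fin R}
    (ht : Function.Injective t) : 2 * cnt (fun e => ∀ a, x e (t a) ≠ 0) < c := by
  have hT : ∀ t : Fin 3 → Fin R, cnt (fun e => ∀ a, x e (t a) ≠ 0) =
      cnt (fun e => x e (t 0) ≠ 0 ∧ x e (t 1) ≠ 0 ∧ x e (t 2) ≠ 0) := fun t =>
    cnt_congr fun e => by simp only [ne_eq, Fin.forall_fin_succ, Fin.isValue, Fin.succ_zero_eq_one, Fin.succ_one_eq_two, IsEmpty.forall_iff, and_true]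
  have hiff : ∀ t : Fin 3 → Fin R, Function.Injective t →
      (2 * cnt (fun e => ∀ a, x e (t a) ≠ 0) < c ↔ Pres x t ![1, 1, 0]) := fun t ht => by
    have a1 := empA2_two h h1 (ht.ne (show (0 : Fin 3) ≠ 1 by decide))
    have a2 := empA2_split (fun e => x e (t 0) ≠ 0) (fun e => x e (t 1) ≠ 0) (fun e => x e (t 2) ≠ 0)
    have a3 : 0 < cnt (fun e => x e (t 0) ≠ 0 ∧ x e (t 1) ≠ 0 ∧ ¬ x e (t 2) ≠ 0) ↔
        Pres x t ![1, 1, 0] := by
      rw [cnt_pos]
      constructor
      · rintro ⟨e, b0, b1, b2⟩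
        refine ⟨e, x e (t 0), b0, fun a => ?_⟩
        fin_cases a
        · simp
        · simpa using h1 e _ _ b0 b1
        · simpa using b2
      · rintro ⟨e, s, hs, b⟩
        exact ⟨e, by simpa [b 0] using hs, by simpa [b 1] using hs, by simp [b 2]⟩
    rw [← a3, hT]
    omega
  have hsort : ∀ t : Fin 3 → Fin R, Function.Injective t → ∃ t' : Fin 3 → Fin R, StrictMono t' ∧
      cnt (fun e => ∀ a, x e (t' a) ≠ 0) = cnt (fun e => ∀ a, x e (t a) ≠ 0) := fun t ht =>
    ⟨t ∘ Tuple.sort t,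
      (Tuple.monotone_sort t).strictMono_of_injective (ht.comp (Tuple.sort t).injective),
      cnt_congr fun e => ⟨fun b a => by simpa using b ((Tuple.sort t).symm a), fun b a => b _⟩⟩
  have hex : ∃ e, ¬ ((∃ i, ∀ j, j ≠ i → x e j = 0) ∨ ∃ s : F, x e = s • fun _ => (1 : F)) := by
    by_contra hc
    exact hU ⟨fun _ => 1, fun _ => one_ne_zero, fun e => by_contra fun a => hc ⟨e, a⟩⟩
  obtain ⟨e, he⟩ := hex
  rw [not_or, not_exists, not_exists] at he
  have hi : ∃ i, x e i ≠ 0 := by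
    by_contra hc
    exact he.2 0 (funext fun i => by simpa using by_contra fun a => hc ⟨i, a⟩)
  obtain ⟨i, hi⟩ := hi
  have hj : ∃ j, j ≠ i ∧ x e j ≠ 0 := by
    by_contra hc
    exact he.1 i fun j hj => by_contra fun a => hc ⟨j, hj, a⟩
  obtain ⟨j, hji, hj⟩ := hj
  have hk : ∃ k, x e k = 0 := by
    by_contra hc
    exact he.2 (x e i) (funext fun k => by simpa using h1 e i k hi fun a => hc ⟨k, a⟩)
  obtain ⟨k, hk⟩ := hk
  have hik : i ≠ k := fun a => hi (a ▸ hk)
  have hjk : j ≠ k := fun a => hj (a ▸ hk)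
  have hinj : Function.Injective ![i, j, k] := by
    intro a b hab
    fin_cases a <;> fin_cases b <;> simp_all
  have hp : Pres x ![i, j, k] ![1, 1, 0] := by
    refine ⟨e, x e i, hi, fun a => ?_⟩
    fin_cases a
    · simp
    · simpa using h1 e _ _ hi hj
    · simpa using hk
  obtain ⟨t0, m0, e0⟩ := hsort _ hinj
  obtain ⟨t1, m1, e1⟩ := hsort t ht
  rw [← e1, hiff t1 m1.injective]
  refine h3 t0 t1 m0 m1 _ ((hiff t0 m0.injective).1 ?_)
  rw [e0]
  exact (hiff _ hinj).2 hp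

omit [Fintype F] in
lemma empA2_key (h : Sys x c) (h3 : Homog x 3)
    (h1 : ∀ e i j, x e i ≠ 0 → x e j ≠ 0 → x e j = x e i) (hU : ¬ UT x) {t : Fin 3 → Fin R}
    (ht : Function.Injective t) :
    c ≤ 4 * cnt (fun e => x e (t 0) ≠ 0 ∧ x e (t 1) = x e (t 0) ∧ x e (t 2) = 0) := by
  have a0 := empA2_lt h h3 h1 hU ht
  have hT : cnt (fun e => ∀ a, x e (t a) ≠ 0) =
      cnt (fun e => x e (t 0) ≠ 0 ∧ x e (t 1) ≠ 0 ∧ x e (t 2) ≠ 0) :=
    cnt_congr fun e => by simp only [ne_eq, Fin.forall_fin_succ, Fin.isValue, Fin.succ_zero_eq_one, Fin.succ_one_eq_two, IsEmpty.forall_iff, and_true]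
  have hT' : cnt (fun e => x e (t 0) ≠ 0 ∧ x e (t 2) ≠ 0 ∧ x e (t 1) ≠ 0) =
      cnt (fun e => x e (t 0) ≠ 0 ∧ x e (t 1) ≠ 0 ∧ x e (t 2) ≠ 0) :=
    cnt_congr fun e => by tauto
  have hG : cnt (fun e => x e (t 0) ≠ 0 ∧ x e (t 1) = x e (t 0) ∧ x e (t 2) = 0) =
      cnt (fun e => x e (t 0) ≠ 0 ∧ x e (t 1) ≠ 0 ∧ ¬ x e (t 2) ≠ 0) :=
    cnt_congr fun e => ⟨fun a => ⟨a.1, by rw [a.2.1]; exact a.1, not_not.2 a.2.2⟩,
      fun a => ⟨a.1, h1 e _ _ a.1 a.2.1, not_not.1 a.2.2⟩⟩
  have a01 := empA2_two h h1 (ht.ne (show (0 : Fin 3) ≠ 1 by decide))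
  have a02 := empA2_two h h1 (ht.ne (show (0 : Fin 3) ≠ 2 by decide))
  have a12 := empA2_two h h1 (ht.ne (show (1 : Fin 3) ≠ 2 by decide))
  have s1 := empA2_split (fun e => x e (t 0) ≠ 0) (fun e => x e (t 1) ≠ 0) (fun e => x e (t 2) ≠ 0)
  have s2 := empA2_split (fun e => x e (t 0) ≠ 0) (fun e => x e (t 2) ≠ 0) (fun e => x e (t 1) ≠ 0)
  obtain ⟨e1, p0, p1, p2⟩ := cnt_pos.1 (show
    0 < cnt (fun e => x e (t 0) ≠ 0 ∧ x e (t 1) ≠ 0 ∧ ¬ x e (t 2) ≠ 0) by omega)
  obtain ⟨e2, q0, q2, q1⟩ := cnt_pos.1 (show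
    0 < cnt (fun e => x e (t 0) ≠ 0 ∧ x e (t 2) ≠ 0 ∧ ¬ x e (t 1) ≠ 0) by omega)
  have hdot : ∀ (m : Fin 3 → F) e, m ⬝ᵥ res x t e =
      m 0 * x e (t 0) + m 1 * x e (t 1) + m 2 * x e (t 2) := fun m e => by
    simp only [dotProduct, res, Fin.sum_univ_three, Fin.isValue]
  have hmin : Min (res x t) ![1, -1, -1] := by
    refine ⟨fun a => by simpa using congrFun a 0, fun m hm => ⟨m 0, ?_⟩⟩
    have b1 := hm e1
    have b2 := hm e2
    rw [hdot, hdot, h1 e1 _ _ p0 p1, not_not.1 p2] at b1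
    rw [hdot, hdot, h1 e2 _ _ q0 q2, not_not.1 q1] at b2
    have c1 : (m 0 + m 1) * x e1 (t 0) = 0 := by linear_combination b1 (by simp)
    have c2 : (m 0 + m 2) * x e2 (t 0) = 0 := by linear_combination b2 (by simp)
    have d1 := (mul_eq_zero.1 c1).resolve_right p0
    have d2 := (mul_eq_zero.1 c2).resolve_right q0
    funext a
    fin_cases a
    · simp
    · simpa using eq_neg_of_add_eq_zero_right d1
    · simpa using eq_neg_of_add_eq_zero_right d2
  have hw : cnt (fun e => ![1, -1, -1] ⬝ᵥ res x t e ≠ 0) = c := (h.toSys0.restr ht).eq _ hmin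
  have hc := empA2_comb (fun e => x e (t 0) ≠ 0) (fun e => x e (t 1) ≠ 0) (fun e => x e (t 2) ≠ 0)
    (fun e => ![1, -1, -1] ⬝ᵥ res x t e ≠ 0) fun e he => by
      rw [hdot]
      rcases he with ⟨a, b, c⟩ | ⟨a, b, c⟩ | ⟨a, b, c⟩ | ⟨a, b, c⟩
      · simpa [not_not.1 b, not_not.1 c] using a
      · simpa [not_not.1 a, not_not.1 c] using b
      · simpa [not_not.1 a, not_not.1 b] using c
      · simpa [h1 e _ _ a b, h1 e _ _ a c] using a
  have n0 := h.toSys0.cnt_ne (t 0)
  have n1 := h.toSys0.cnt_ne (t 1)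
  have n2 := h.toSys0.cnt_ne (t 2)
  omega

theorem th_triple (h : Sys x c) (h3 : Homog x 3)
    (h1 : ∀ e i j, x e i ≠ 0 → x e j ≠ 0 → x e j = x e i) (hU : ¬ UT x) :
    (1 - 9 / (R : ℝ)) / 4 ≤ Th x c (fun ν => ν 1 * ν 0) := by
  classical
  have hR : 0 < R := by
    refine Nat.pos_of_ne_zero fun a => hU ?_
    subst a
    exact ⟨fun _ => 1, fun _ => one_ne_zero, fun e => Or.inr ⟨0, funext fun i => i.elim0⟩⟩
  have hc : 0 < c := h.toSys0.pos ⟨0, hR⟩
  have hR' : (0 : ℝ) < R := by exact_mod_cast hR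
  have hc' : (0 : ℝ) < c := by exact_mod_cast hc
  have he : ∀ e, (∑ s, if s = 0 then 0 else emp x e s * (emp x e (s * 1) * emp x e (s * 0))) =
      (cnt (fun t : Fin 3 → Fin R =>
        x e (t 0) ≠ 0 ∧ x e (t 1) = x e (t 0) ∧ x e (t 2) = 0) : ℝ) / R ^ 3 := fun e => by
    rw [cnt_fiber _ fun t => x e (t 0), Nat.cast_sum, sum_div]
    refine sum_congr rfl fun s _ => ?_
    split_ifs with hs
    · rw [cnt_eq_zero.2 fun t a => a.1.1 (a.2.trans hs)]
      simp
    · rw [cnt_congr (q := fun t : Fin 3 → Fin R => x e (t 0) = s ∧ x e (t 1) = s ∧ x e (t 2) = 0)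
        fun t => ⟨fun a => ⟨a.2, a.1.2.1.trans a.2, a.1.2.2⟩,
          fun a => ⟨⟨by rw [a.1]; exact hs, a.2.1.trans a.1.symm, a.2.2⟩, a.1⟩⟩,
        empA2_prod (fun i => x e i = s) (fun i => x e i = s) (fun i => x e i = 0), mul_one, mul_zero]
      unfold emp
      push_cast
      field_simp
  have hsum : c * cnt (fun t : Fin 3 → Fin R => Function.Injective t) ≤
      4 * ∑ e, cnt (fun t : Fin 3 → Fin R =>
        x e (t 0) ≠ 0 ∧ x e (t 1) = x e (t 0) ∧ x e (t 2) = 0) := by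
    rw [sum_cnt_comm, mul_sum, cnt_eq, card_filter, mul_sum]
    refine sum_le_sum fun t _ => ?_
    split_ifs with ht
    · rw [mul_one]; exact empA2_key h h3 h1 hU ht
    · simp
  have hn := card_noninj 3 R
  have ha := cnt_add_not (fun t : Fin 3 → Fin R => Function.Injective t)
  rw [Fintype.card_fun, Fintype.card_fin, Fintype.card_fin] at ha
  unfold Th
  simp only [he]
  rw [← sum_div, ← Nat.cast_sum]
  generalize ∑ e, cnt (fun t : Fin 3 → Fin R =>
    x e (t 0) ≠ 0 ∧ x e (t 1) = x e (t 0) ∧ x e (t 2) = 0) = S at hsum ⊢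
  generalize cnt (fun t : Fin 3 → Fin R => Function.Injective t) = I at hsum ha
  generalize cnt (fun t : Fin 3 → Fin R => ¬ Function.Injective t) = J at hn ha
  have b1 : (c : ℝ) * I ≤ 4 * S := by exact_mod_cast hsum
  have b2 : (J : ℝ) * R ≤ 3 ^ 2 * R ^ 3 := by exact_mod_cast hn
  have b3 : (I : ℝ) + J = R ^ 3 := by exact_mod_cast ha
  have b4 : (1 - 9 / (R : ℝ)) * R ^ 3 ≤ I := by
    have : (J : ℝ) ≤ 9 / R * R ^ 3 := by
      rw [div_mul_eq_mul_div, le_div_iff₀ hR']; linarith only [b2]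
    linarith only [b3, this]
  rw [div_div, div_le_div_iff₀ (by norm_num) (by positivity)]
  linarith only [mul_le_mul_of_nonneg_left b4 hc'.le, b1]

theorem th_W (h : Sys0 x c) (hR : 0 < R) (N : ℕ) {σ : ℝ} (hσ : 0 ≤ σ)
    (hW : ∀ t : Fin N → Fin R, Function.Injective t → σ * c ≤ W (res x t)) :
    σ * (1 - (N : ℝ) ^ 2 / R) ≤ Th x c (fun ν => ∑ r ∈ range N, ν 0 ^ r) := by
  classical
  have hc : (0 : ℝ) < c := by exact_mod_cast h.pos ⟨0, hR⟩
  have hR' : (0 : ℝ) < R := by exact_mod_cast hR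
  have h1 : Th x c (fun ν => ∑ r ∈ range N, ν 0 ^ r) = (∑ e, (1 - emp x e 0 ^ N)) / c := by
    unfold Th
    congr 1
    refine sum_congr rfl fun e _ => ?_
    have a1 : 1 - emp x e 0 = ∑ s ∈ univ.erase 0, emp x e s := by
      rw [← empA1_one (x := x) hR e, ← add_sum_erase _ _ (mem_univ (0 : F))]
      ring
    rw [← mul_neg_geom_sum, a1, sum_mul, ← sum_erase (a := (0 : F)) univ (by simp)]
    refine sum_congr rfl fun s hs => ?_
    simp [ne_of_mem_erase hs]
  have h2 : ∀ e, (cnt fun t : Fin N → Fin R => res x t e ≠ 0 : ℝ) =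
      (R : ℝ) ^ N * (1 - emp x e 0 ^ N) := by
    intro e
    have a1 := cnt_add_not fun t : Fin N → Fin R => res x t e = 0
    have a2 : (cnt fun t : Fin N → Fin R => res x t e = 0 : ℝ) =
        (cnt fun i => x e i = 0 : ℝ) ^ N := by
      rw [cnt_cast, cnt_cast, Fintype.sum_pow]
      refine sum_congr rfl fun t _ => ?_
      rw [prod_boole]
      simp only [funext_iff, res, Pi.zero_apply, mem_univ, forall_const]
    have a3 : (cnt fun t : Fin N → Fin R => res x t e = 0 : ℝ) +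
        (cnt fun t : Fin N → Fin R => res x t e ≠ 0 : ℝ) = (R : ℝ) ^ N := by
      simp only [Fintype.card_fun, Fintype.card_fin] at a1
      exact_mod_cast a1
    rw [emp, div_pow, mul_sub, mul_one, mul_div_cancel₀ _ (by positivity), ← a2]
    linarith only [a3]
  have h3 : ∑ t : Fin N → Fin R, (W (res x t) : ℝ) = (R : ℝ) ^ N * ∑ e, (1 - emp x e 0 ^ N) := by
    rw [mul_sum, ← sum_congr rfl fun e _ => h2 e]
    exact_mod_cast sum_cnt_comm fun (t : Fin N → Fin R) e => res x t e ≠ 0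
  have h4 : σ * c * cnt (fun t : Fin N → Fin R => Function.Injective t) ≤
      ∑ t : Fin N → Fin R, (W (res x t) : ℝ) := by
    rw [cnt_cast, mul_sum]
    refine sum_le_sum fun t _ => ?_
    split_ifs with ht
    · simpa only [mul_one] using hW t ht
    · simp
  have h5 : (R : ℝ) ^ N * (1 - (N : ℝ) ^ 2 / R) ≤
      cnt (fun t : Fin N → Fin R => Function.Injective t) := by
    have a1 := cnt_add_not fun t : Fin N → Fin R => Function.Injective t
    simp only [Fintype.card_fun, Fintype.card_fin] at a1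
    have a2 : (cnt (fun t : Fin N → Fin R => Function.Injective t) : ℝ) +
        cnt (fun t : Fin N → Fin R => ¬ Function.Injective t) = (R : ℝ) ^ N := by
      exact_mod_cast a1
    have a3 : (cnt (fun t : Fin N → Fin R => ¬ Function.Injective t) : ℝ) * R ≤
        (N : ℝ) ^ 2 * (R : ℝ) ^ N := by exact_mod_cast card_noninj N R
    rw [← le_div_iff₀ hR'] at a3
    rw [mul_sub, mul_one, ← mul_div_assoc, mul_comm]
    linarith only [a2, a3]
  rw [h1, le_div_iff₀ hc]
  refine le_of_mul_le_mul_left ?_ (pow_pos hR' N)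
  rw [← h3]
  refine le_trans ?_ h4
  calc _ = σ * c * ((R : ℝ) ^ N * (1 - (N : ℝ) ^ 2 / R)) := by ring
    _ ≤ _ := mul_le_mul_of_nonneg_left h5 (by positivity)

end Pool.Agent.MP_337c4e_co.H33

namespace Pool.Agent.MP_337c4e_co.H33

open Finset Matrix

variable {E : Type} [Fintype E] {F : Type} [Field F] [Fintype F] {R : ℕ} {x : E → Fin R → F}
  {c : ℕ}

theorem empB_sq (ν : F → ℝ) (z : F) :
    ∑ a, (ν (a + z) - ν a) ^ 2 = 2 * (rho ν 0 - rho ν z) := by
  have h1 : ∑ a, ν (a + z) ^ 2 = ∑ a, ν a ^ 2 :=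
    Fintype.sum_equiv (Equiv.addRight z) _ _ fun _ => rfl
  have h2 : rho ν 0 = ∑ a, ν a ^ 2 := by simp [rho, sq]
  have h3 : ∀ a, (ν (a + z) - ν a) ^ 2 = ν (a + z) ^ 2 + ν a ^ 2 - 2 * (ν a * ν (a + z)) :=
    fun a => by ring
  simp only [h3, sum_sub_distrib, sum_add_distrib, ← mul_sum, h1, h2]
  unfold rho
  ring

theorem rho_le (ν : F → ℝ) (z : F) : rho ν z ≤ rho ν 0 := by
  have h1 : 0 ≤ ∑ a, (ν (a + z) - ν a) ^ 2 := sum_nonneg fun _ _ => sq_nonneg _
  rw [empB_sq] at h1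
  linarith

theorem rho_eq {ν : F → ℝ} {z : F} (h : rho ν z = rho ν 0) (a : F) : ν (a + z) = ν a := by
  have h1 := empB_sq ν z
  rw [h, sub_self, mul_zero, sum_eq_zero_iff_of_nonneg fun _ _ => sq_nonneg _] at h1
  exact sub_eq_zero.1 (pow_eq_zero_iff two_ne_zero |>.1 (h1 a (mem_univ _)))

theorem empB_cnt {A : Type} [Fintype A] (p : A → Prop) [DecidablePred p] :
    (cnt p : ℝ) = ∑ e, if p e then 1 else 0 := by
  rw [cnt_eq, card_filter]
  simp only [sum_boole, Nat.cast_id]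

omit [Fintype E] [Field F] [Fintype F] in
open Classical in
theorem empB_emp (e : E) (a : F) :
    emp x e a = (R : ℝ)⁻¹ * ∑ i, if x e i = a then 1 else 0 := by
  unfold emp
  rw [empB_cnt, div_eq_inv_mul]

omit [Fintype E] [Field F] [Fintype F] in
theorem empB_nonneg (e : E) (a : F) : 0 ≤ emp x e a := by
  unfold emp
  positivity

omit [Fintype E] in
theorem empB_int (e : E) (g : F → ℝ) :
    ∑ a, emp x e a * g a = (R : ℝ)⁻¹ * ∑ i, g (x e i) := by
  classical
  simp only [empB_emp, mul_assoc, ← mul_sum, sum_mul]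
  rw [sum_comm]
  simp only [ite_mul, one_mul, zero_mul, sum_ite_eq, mem_univ, ↓ reduceIte]

omit [Fintype E] in
theorem empB_one (hR : 0 < R) (e : E) : ∑ a, emp x e a = 1 := by
  have h1 := empB_int (x := x) e fun _ => 1
  have h2 : (R : ℝ) ≠ 0 := by positivity
  simpa only [mul_one, sum_const, card_univ, Fintype.card_fin, nsmul_eq_mul, ne_eq, h2, not_false_eq_true, inv_mul_cancel₀] using h1

theorem empB_four {A : Type} [Fintype A] (g : (Fin 4 → A) → ℝ) :
    ∑ t, g t = ∑ k, ∑ l, ∑ i, ∑ j, g ![i, j, k, l] := by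
  let φ : A × A × A × A ≃ (Fin 4 → A) :=
    { toFun := fun p => ![p.2.2.1, p.2.2.2, p.1, p.2.1]
      invFun := fun t => (t 2, t 3, t 0, t 1)
      left_inv := fun _ => rfl
      right_inv := fun t => by ext i; fin_cases i <;> rfl }
  rw [← φ.sum_comp]
  simp only [Fintype.sum_prod_type]
  rfl

omit [Fintype E] in
open Classical in
theorem empB_PP (β : F) (e : E) : PP β (emp x e) = ((R : ℝ)⁻¹) ^ 4 *
    ∑ t : Fin 4 → Fin R, if ![1, -1, β, -β] ⬝ᵥ res x t e = 0 then 1 else 0 := by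
  have h1 : ∀ z, rho (emp x e) z = (R : ℝ)⁻¹ * ∑ i, (R : ℝ)⁻¹ *
      ∑ j, if x e j = x e i + z then 1 else 0 := fun z => by
    unfold rho
    rw [empB_int e fun a => emp x e (a + z)]
    simp only [empB_emp]
  unfold PP
  simp only [mul_assoc, ← mul_sum]
  rw [empB_int e fun b => ∑ b', emp x e b' * rho (emp x e) (β * (b - b')), empB_four]
  have h3 : ∀ b, ∑ b', emp x e b' * rho (emp x e) (β * (b - b')) =
      (R : ℝ)⁻¹ * ∑ l, rho (emp x e) (β * (b - x e l)) := fun b =>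
    empB_int e fun b' => rho (emp x e) (β * (b - b'))
  simp only [h3]
  simp only [h1, ← mul_sum]
  have h2 : ∀ k l i j, (![1, -1, β, -β] ⬝ᵥ res x ![i, j, k, l] e = 0) ↔
      x e j = x e i + β * (x e k - x e l) := fun k l i j => by
    simp only [dotProduct, Fin.sum_univ_four, res]
    simp only [cons_val_zero, cons_val_one, Matrix.cons_val]
    constructor <;> intro h <;> linear_combination (-1 : F) * h
  simp only [h2]
  ring

theorem sum_PP (h : Sys0 x c) (hR : 0 < R) (β : F)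
    (hM : ∀ t : Fin 4 → Fin R, Function.Injective t → Min (res x t) ![1, -1, β, -β]) :
    |∑ e, (1 - PP β (emp x e)) - c| ≤ 64 * c / R := by
  classical
  have hR' : (0 : ℝ) < R := by positivity
  have h1 : ∀ e, 1 - PP β (emp x e) = ((R : ℝ)⁻¹) ^ 4 *
      ∑ t : Fin 4 → Fin R, if ![1, -1, β, -β] ⬝ᵥ res x t e ≠ 0 then 1 else 0 := fun e => by
    have h2 : (∑ t : Fin 4 → Fin R, if ![1, -1, β, -β] ⬝ᵥ res x t e ≠ 0 then (1 : ℝ) else 0) =
        ∑ t : Fin 4 → Fin R, (1 - if ![1, -1, β, -β] ⬝ᵥ res x t e = 0 then (1 : ℝ) else 0) :=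
      sum_congr rfl fun t _ => by split_ifs <;> simp_all
    rw [h2, sum_sub_distrib, empB_PP, mul_sub]
    congr 1
    simp only [inv_pow, sum_const, card_univ, Fintype.card_pi, Fintype.card_fin, prod_const, nsmul_eq_mul, Nat.cast_pow, mul_one]
    field_simp
  have h3 : ∑ e, (1 - PP β (emp x e)) - c = ((R : ℝ)⁻¹) ^ 4 *
      ∑ t : Fin 4 → Fin R, ((wt (res x t) ![1, -1, β, -β] : ℝ) - c) := by
    simp only [h1, ← mul_sum]
    rw [sum_comm, sum_sub_distrib, mul_sub]
    congr 1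
    · congr 1
      refine sum_congr rfl fun t _ => ?_
      unfold wt
      rw [empB_cnt]
    · simp only [inv_pow, sum_const, card_univ, Fintype.card_pi, Fintype.card_fin, prod_const, nsmul_eq_mul, Nat.cast_pow]
      field_simp
  have h4 : ∀ t : Fin 4 → Fin R, |(wt (res x t) ![1, -1, β, -β] : ℝ) - c| ≤
      (if ¬ Function.Injective t then 1 else 0) * (4 * c) := fun t => by
    by_cases ht : Function.Injective t
    · rw [(h.restr ht).eq _ (hM t ht)]
      simp [ht]
    · have h5 : wt (res x t) ![1, -1, β, -β] ≤ 4 * c := by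
        refine (cnt_mono (q := fun e => ∃ a, x e (t a) ≠ 0) fun e he => ?_).trans
          ((cnt_exists_le fun a e => x e (t a) ≠ 0).trans ?_)
        · by_contra h6
          push Not at h6
          exact he (by simp [dotProduct, res, h6])
        · simp [h.cnt_ne]
      have h7 : (wt (res x t) ![1, -1, β, -β] : ℝ) ≤ 4 * c := by exact_mod_cast h5
      have h8 : (0 : ℝ) ≤ wt (res x t) ![1, -1, β, -β] := by positivity
      have h9 : (0 : ℝ) ≤ c := by positivity
      rw [if_pos ht, one_mul, abs_le]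
      constructor <;> linarith only [h7]
  have h5 : (cnt (fun t : Fin 4 → Fin R => ¬ Function.Injective t) : ℝ) * R ≤ 4 ^ 2 * R ^ 4 := by
    exact_mod_cast card_noninj 4 R
  have h6 : (cnt (fun t : Fin 4 → Fin R => ¬ Function.Injective t) : ℝ) ≤ 16 * R ^ 3 :=
    le_of_mul_le_mul_right (by linarith only [h5]) hR'
  have h7 := (abs_sum_le_sum_abs _ _).trans (sum_le_sum fun t (_ : t ∈ univ) => h4 t)
  rw [← sum_mul, ← empB_cnt fun t : Fin 4 → Fin R => ¬ Function.Injective t] at h7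
  rw [h3, abs_mul, abs_of_nonneg (by positivity)]
  calc _ ≤ ((R : ℝ)⁻¹) ^ 4 * (16 * R ^ 3 * (4 * c)) :=
        mul_le_mul_of_nonneg_left (h7.trans (mul_le_mul_of_nonneg_right h6 (by positivity)))
          (by positivity)
    _ = 64 * c / R := by
        field_simp
        ring

theorem empB_rho_mul (ν : F → ℝ) {s : F} (hs : s ≠ 0) (z : F) :
    rho (fun a => ν (s * a)) z = rho ν (s * z) :=
  Fintype.sum_equiv (Equiv.mulLeft₀ s hs) _ _ fun a => by simp only [mul_add, Equiv.mulLeft₀_apply]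

theorem empB_ff (ν : F → ℝ) {s : F} (hs : s ≠ 0) (β : F) :
    ff β (fun a => ν (s * a)) = ∑ b, ν b * (rho ν 0 - rho ν (β * (s - b))) := by
  unfold ff
  refine Fintype.sum_equiv (Equiv.mulLeft₀ s hs) _ _ fun a => ?_
  rw [empB_rho_mul ν hs, empB_rho_mul ν hs, mul_zero]
  have : s * (β * (1 - a)) = β * (s - s * a) := by ring
  simp [this]

theorem th_ff (h : Sys0 x c) (hR : 0 < R) (β : F)
    (hM0 : ∀ t : Fin 4 → Fin R, Function.Injective t → Min (res x t) ![1, -1, 0, -0])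
    (hM : ∀ t : Fin 4 → Fin R, Function.Injective t → Min (res x t) ![1, -1, β, -β]) :
    Th x c (ff β) ≤ 128 / R := by
  classical
  have hc : (0 : ℝ) < c := by exact_mod_cast h.pos ⟨0, hR⟩
  have h1 := abs_le.1 (sum_PP h hR 0 hM0)
  have h2 := abs_le.1 (sum_PP h hR β hM)
  have h3 : ∀ e, (∑ s, if s = 0 then 0 else emp x e s * ff β fun z => emp x e (s * z)) ≤
      (1 - PP β (emp x e)) - (1 - PP 0 (emp x e)) := fun e => by
    have h4 : (1 - PP β (emp x e)) - (1 - PP 0 (emp x e)) = ∑ s, emp x e s *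
        ∑ b, emp x e b * (rho (emp x e) 0 - rho (emp x e) (β * (s - b))) := by
      unfold PP
      have h0 : ∀ b b' : F, 0 * (b - b') = 0 := fun _ _ => zero_mul _
      simp only [h0]
      simp only [mul_sum, mul_sub (emp x e _), sum_sub_distrib, mul_assoc]
      ring
    rw [h4]
    refine sum_le_sum fun s _ => ?_
    split_ifs with hs
    · exact mul_nonneg (empB_nonneg e s) (sum_nonneg fun b _ =>
        mul_nonneg (empB_nonneg e b) (sub_nonneg.2 (rho_le _ _)))
    · rw [empB_ff _ hs]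
  have h5 := sum_le_sum fun e (_ : e ∈ univ) => h3 e
  rw [sum_sub_distrib] at h5
  unfold Th
  rw [div_le_iff₀ hc]
  have h6 : 128 / (R : ℝ) * c = 64 * c / R + 64 * c / R := by ring
  rw [h6]
  linarith only [h1.1, h2.2, h5]

theorem th_diff (h : Sys0 x c) (hR : 0 < R)
    (hM0 : ∀ t : Fin 4 → Fin R, Function.Injective t → Min (res x t) ![1, -1, 0, -0]) :
    |Th x c (fun ν => ν 1 - ν 0)| ≤ 64 / R := by
  classical
  have hc : (0 : ℝ) < c := by exact_mod_cast h.pos ⟨0, hR⟩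
  have hR' : (0 : ℝ) < R := by positivity
  have h1 := sum_PP h hR 0 hM0
  have h2 : ∀ e, (∑ s, if s = 0 then 0 else emp x e s * (emp x e (s * 1) - emp x e (s * 0))) =
      (1 - emp x e 0) - (1 - PP 0 (emp x e)) := fun e => by
    have h3 : PP 0 (emp x e) = ∑ s, emp x e s * emp x e s := by
      unfold PP
      simp only [zero_mul, ← sum_mul, ← mul_sum, empB_one hR, mul_one, one_mul]
      simp [rho]
    have h4 : (∑ s, if s = 0 then 0 else emp x e s * (emp x e (s * 1) - emp x e (s * 0))) =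
        ∑ s, (emp x e s * emp x e s - emp x e s * emp x e 0) :=
      sum_congr rfl fun s _ => by split_ifs with hs <;> simp [hs, mul_sub]
    rw [h4, sum_sub_distrib, ← sum_mul, empB_one hR, h3]
    ring
  have h5 : ∑ e, (1 - emp x e 0) = c := by
    have h6 : ∀ e, 1 - emp x e 0 = (R : ℝ)⁻¹ * (cnt fun i => x e i ≠ 0 : ℕ) := fun e => by
      have h7 : ((cnt fun i => x e i = 0 : ℕ) : ℝ) + (cnt fun i => x e i ≠ 0 : ℕ) = R := by
        exact_mod_cast (cnt_add_not fun i => x e i = 0).trans (Fintype.card_fin R)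
      unfold emp
      field_simp
      linarith only [h7]
    simp only [h6, ← mul_sum]
    rw [← Nat.cast_sum, ← sum_cnt_comm fun i e => x e i ≠ 0]
    simp only [ne_eq, h.cnt_ne, sum_const, card_univ, Fintype.card_fin, smul_eq_mul, Nat.cast_mul]
    field_simp
  unfold Th
  simp only [h2]
  rw [sum_sub_distrib, h5, abs_div, abs_of_pos hc, div_le_iff₀ hc, abs_sub_comm]
  refine h1.trans (le_of_eq ?_)
  ring

omit [Fintype E] [Fintype F] in
theorem empB_pat {y : E → Fin 4 → F} {l m π : Fin 4 → F} (hp : Pres y id π)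
    (hm : ∀ e, l ⬝ᵥ y e = 0 → m ⬝ᵥ y e = 0) (hl : l ⬝ᵥ π = 0) : m ⬝ᵥ π = 0 := by
  obtain ⟨e, s, hs, he⟩ := hp
  have h1 : y e = s • π := funext fun a => he a
  have h2 := hm e (by rw [h1, dotProduct_smul, hl, smul_zero])
  rw [h1, dotProduct_smul, smul_eq_mul] at h2
  exact (mul_eq_zero.1 h2).resolve_left hs

theorem min_zero {y : E → Fin 4 → F} (h : Sys0 y c) {a : F} (ha : a ≠ 0)
    (hp : Pres y id fun _ => a) : Min y ![1, -1, 0, -0] := by
  refine ⟨fun h0 => one_ne_zero (α := F) (congrFun h0 0), fun m hm => ⟨m 0, ?_⟩⟩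
  have h1 := empB_pat hp hm (by simp [dotProduct, Fin.sum_univ_four])
  have h2 : m 2 = 0 := by
    obtain ⟨e, he, he'⟩ := h.unit 2
    have := hm e (by simp [dotProduct, Fin.sum_univ_four, he' 0, he' 1])
    simpa [dotProduct, Fin.sum_univ_four, he' 0, he' 1, he' 3, he] using this
  have h3 : m 3 = 0 := by
    obtain ⟨e, he, he'⟩ := h.unit 3
    have := hm e (by simp [dotProduct, Fin.sum_univ_four, he' 0, he' 1])
    simpa [dotProduct, Fin.sum_univ_four, he' 0, he' 1, he' 2, he] using this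
  simp only [dotProduct, Fin.sum_univ_four, h2, h3] at h1
  have h4 : m 1 = -m 0 := mul_left_cancel₀ ha (by linear_combination h1)
  ext i
  fin_cases i <;> simp [h2, h3, h4]

theorem min_one {y : E → Fin 4 → F} {a b : F} (ha : a ≠ 0) (hab : a ≠ b)
    (hp : ∀ π : Fin 4 → F, (∀ i, π i = a ∨ π i = b) → Pres y id π) : Min y ![1, -1, 1, -1] := by
  refine ⟨fun h0 => one_ne_zero (α := F) (congrFun h0 0), fun m hm => ⟨m 0, ?_⟩⟩
  have h1 := empB_pat (hp ![a, a, a, a] fun i => by fin_cases i <;> simp) hm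
    (by simp [dotProduct, Fin.sum_univ_four])
  have h2 := empB_pat (hp ![a, a, b, b] fun i => by fin_cases i <;> simp) hm
    (by simp [dotProduct, Fin.sum_univ_four])
  have h3 := empB_pat (hp ![a, b, b, a] fun i => by fin_cases i <;> simp) hm
    (by simp [dotProduct, Fin.sum_univ_four])
  simp only [dotProduct, Fin.sum_univ_four, cons_val_zero, cons_val_one, Matrix.cons_val] at h1 h2 h3
  have hab' : a - b ≠ 0 := sub_ne_zero.2 hab
  have h4 : m 0 + m 1 + m 2 + m 3 = 0 := mul_left_cancel₀ ha (by linear_combination h1)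
  have h5 : m 1 = -m 0 := mul_left_cancel₀ hab' (by linear_combination h2 - b * h4)
  have h6 : m 3 = -m 2 := by linear_combination h4 - h5
  have h7 : m 2 = m 0 := mul_left_cancel₀ hab' (by linear_combination b * h5 + a * h6 - h3)
  ext i
  fin_cases i <;> simp [h5, h6, h7]

theorem min_beta {y : E → Fin 4 → F} {β : F}
    (hp : ∀ π : Fin 4 → F, (∀ i, π i = 0 ∨ π i = 1 ∨ π i = β) → Pres y id π) :
    Min y ![1, -1, β, -β] := by
  refine ⟨fun h0 => one_ne_zero (α := F) (congrFun h0 0), fun m hm => ⟨m 0, ?_⟩⟩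
  have h1 := empB_pat (hp ![1, 1, 0, 0] fun i => by fin_cases i <;> simp) hm
    (by simp [dotProduct, Fin.sum_univ_four])
  have h2 := empB_pat (hp ![0, 0, 1, 1] fun i => by fin_cases i <;> simp) hm
    (by simp [dotProduct, Fin.sum_univ_four])
  have h3 := empB_pat (hp ![0, β, 1, 0] fun i => by fin_cases i <;> simp) hm
    (by simp [dotProduct, Fin.sum_univ_four])
  simp only [dotProduct, Fin.sum_univ_four, cons_val_zero, cons_val_one, Matrix.cons_val] at h1 h2 h3
  have h5 : m 1 = -m 0 := by linear_combination h1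
  have h7 : m 2 = m 0 * β := by linear_combination h3 - β * h5
  have h6 : m 3 = -(m 0 * β) := by linear_combination h2 - h7
  ext i
  fin_cases i <;> simp [h5, h6, h7]

end Pool.Agent.MP_337c4e_co.H33

namespace Pool.Agent.MP_337c4e_co.H33

open Finset Matrix

variable {E : Type} [Fintype E] {F : Type} [Field F] [Fintype F] {c : ℕ}

theorem empC_sum {R : ℕ} {x : E → Fin R → F} (h : Sys0 x c) (i j : Fin R) :
    ∑ β, cnt (fun e => x e i ≠ 0 ∧ x e j = β * x e i) = c := by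
  rw [← h.cnt_ne i, cnt_fiber _ fun e => x e j / x e i]
  exact sum_congr rfl fun β _ => cnt_congr fun e => and_congr_right fun he =>
    (div_eq_iff he).symm

theorem empC_le {R : ℕ} {x : E → Fin R → F} (h : Sys0 x c) (h2 : Homog x 2) {i j i' j' : Fin R}
    (a : i < j) (b : i' < j')
    (hd : cnt (fun e => x e i = 0 ∧ x e j ≠ 0) ≤ cnt (fun e => x e i' = 0 ∧ x e j' ≠ 0)) :
    cnt (fun e => x e i ≠ 0 ∧ x e j = 1 * x e i) = cnt (fun e => x e i' ≠ 0 ∧ x e j' = 1 * x e i') := by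
  refine (sum_eq_sum_iff_of_le fun β _ => ?_).1 ((empC_sum h i j).trans (empC_sum h i' j').symm) 1
    (mem_univ _)
  rcases h.cpair a.ne β with h0 | h0
  · rw [h0]; exact Nat.zero_le _
  rcases Nat.eq_zero_or_pos (cnt fun e => x e i ≠ 0 ∧ x e j = β * x e i) with h1 | h1
  · rw [h1]; exact Nat.zero_le _
  obtain ⟨e, e1, e2⟩ := cnt_pos.1 h1
  have sm : ∀ {i j : Fin R}, i < j → StrictMono ![i, j] := fun t =>
    Fin.strictMono_iff_lt_succ.2 fun k => by fin_cases k; exact t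
  obtain ⟨e', s, hs, k⟩ := h2 ![i, j] ![i', j'] (sm a) (sm b) ![1, β]
    ⟨e, x e i, e1, fun k => by fin_cases k <;> simp [e2, mul_comm]⟩
  have k0 : x e' i' = s := by simpa using k 0
  have k1 : x e' j' = s * β := by simpa using k 1
  rcases h.cpair b.ne β with h3 | h3
  · exact absurd ⟨k0 ▸ hs, by rw [k0, k1, mul_comm]⟩ (cnt_eq_zero.1 h3 e')
  · rw [h0, h3]; exact hd

theorem pair_const {R : ℕ} {x : E → Fin R → F} (h : Sys0 x c) (h2 : Homog x 2) :
    ∃ n0 : ℕ, n0 ≤ c ∧ ∀ i j, i ≠ j → cnt (fun e => x e i ≠ 0 ∧ x e j = x e i) = n0 := by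
  by_cases hex : ∃ i j : Fin R, i < j
  · obtain ⟨i', j', b⟩ := hex
    have key : ∀ i j, i < j → cnt (fun e => x e i ≠ 0 ∧ x e j = x e i) =
        cnt (fun e => x e i' ≠ 0 ∧ x e j' = x e i') := fun i j a => by
      rcases le_total (cnt fun e => x e i = 0 ∧ x e j ≠ 0) (cnt fun e => x e i' = 0 ∧ x e j' ≠ 0)
        with t | t
      · simpa only [one_mul] using empC_le h h2 a b t
      · simpa only [one_mul] using (empC_le h h2 b a t).symm
    refine ⟨cnt (fun e => x e i' ≠ 0 ∧ x e j' = x e i'),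
      (cnt_mono fun e he => he.1).trans (h.cnt_ne i').le, fun i j hij => ?_⟩
    rcases lt_or_gt_of_ne hij with t | t
    · exact key i j t
    · rw [← key j i t]
      exact cnt_congr fun e => ⟨fun k => ⟨k.2 ▸ k.1, k.2.symm⟩, fun k => ⟨k.2 ▸ k.1, k.2.symm⟩⟩
  · exact ⟨0, Nat.zero_le _, fun i j hij =>
      absurd ((lt_or_gt_of_ne hij).elim (fun t => ⟨i, j, t⟩) fun t => ⟨j, i, t⟩) hex⟩

open Classical in
theorem empC_var {R : ℕ} {x : E → Fin R → F} (h : Sys0 x c) (h2 : Homog x 2) {w : Fin R → ℝ}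
    (hw : ∑ i, w i = 0) :
    ∑ e, ∑ v ∈ univ.erase (0 : F), (∑ i, if x e i = v then w i else 0) ^ 2 ≤ c * ∑ i, w i ^ 2 := by
  obtain ⟨n0, h0, hn⟩ := pair_const h h2
  have e1 : ∀ e, ∑ v ∈ univ.erase (0 : F), (∑ i, if x e i = v then w i else 0) ^ 2 =
      ∑ i, ∑ j, w i * w j * if x e i ≠ 0 ∧ x e j = x e i then 1 else 0 := fun e => by
    simp only [sq, sum_mul_sum]
    rw [sum_comm]
    refine sum_congr rfl fun i _ => ?_
    rw [sum_comm]
    refine sum_congr rfl fun j _ => ?_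
    by_cases a : x e i = 0
    · rw [if_neg (by simp [a]), mul_zero]
      exact sum_eq_zero fun v hv => by rw [if_neg (a ▸ (ne_of_mem_erase hv).symm), zero_mul]
    · rw [sum_eq_single_of_mem (x e i) (by simp [a]) fun v _ hv => by rw [if_neg hv.symm, zero_mul]]
      by_cases b : x e j = x e i <;> simp [a, b]
  have e2 : ∀ i j, ∑ e, (w i * w j * if x e i ≠ 0 ∧ x e j = x e i then 1 else 0) =
      w i * w j * n0 + if i = j then w i ^ 2 * (c - n0) else 0 := fun i j => by
    rw [← mul_sum]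
    have := cnt_cast ℝ fun e => x e i ≠ 0 ∧ x e j = x e i
    by_cases a : i = j
    · subst a
      rw [cnt_congr (q := fun e => x e i ≠ 0) (by simp), h.cnt_ne] at this
      rw [if_pos rfl, show ∑ e, (if x e i ≠ 0 ∧ x e i = x e i then (1 : ℝ) else 0) = c by
        convert this.symm]
      ring
    · rw [hn i j a] at this
      rw [if_neg a, add_zero, show ∑ e, (if x e i ≠ 0 ∧ x e j = x e i then (1 : ℝ) else 0) = n0 by
        convert this.symm]
  simp only [e1]
  rw [sum_comm]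
  simp only [sum_comm (s := (univ : Finset E)), e2, sum_add_distrib, sum_ite_eq, mem_univ, if_true,
    ← sum_mul, ← mul_sum, hw, zero_mul, zero_add]
  have : 0 ≤ ∑ i, w i ^ 2 := sum_nonneg fun i _ => sq_nonneg _
  linarith only [mul_nonneg this (Nat.cast_nonneg (α := ℝ) n0)]

theorem empC_cs [DecidableEq F] {y : F → ℝ} (hy : ∑ v, y v = 0) (v : F) :
    y v ^ 2 ≤ Fintype.card F * ∑ u ∈ univ.erase (0 : F), y u ^ 2 := by
  have h0 : 0 ≤ ∑ u ∈ univ.erase (0 : F), y u ^ 2 := sum_nonneg fun i _ => sq_nonneg _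
  by_cases a : v = 0
  · rw [← add_sum_erase _ _ (mem_univ 0)] at hy
    rw [a, eq_neg_of_add_eq_zero_left hy, neg_sq]
    exact sq_sum_le_card_mul_sum_sq.trans (mul_le_mul_of_nonneg_right
      (by exact_mod_cast card_le_univ _) h0)
  · exact (single_le_sum (f := fun u => y u ^ 2) (fun i _ => sq_nonneg _) (by simp [a])).trans
      (le_mul_of_one_le_left h0 (by exact_mod_cast Fintype.card_pos))

theorem th_cube {B : ℕ} (hB : 0 < B) {x : E → Fin (4 * B) → F} (h : Sys0 x c) (h2 : Homog x 2)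
    (A : Finset F) {δ : ℝ} (hδ : 0 < δ) :
    (∀ π : Fin 4 → F, (∀ a, π a ∈ A) → ∃ t, StrictMono t ∧ Pres x t π) ∨
      Th x c (fun ν => ∏ a ∈ A, max (ν a - δ) 0) ≤ 4 * Fintype.card F / (δ ^ 2 * B) := by
  classical
  refine or_iff_not_imp_left.2 fun hn => ?_
  push Not at hn
  obtain ⟨π, hπ, hn⟩ := hn
  have hB' : (0 : ℝ) < B := by exact_mod_cast hB
  have hR : 0 < 4 * B := by omega
  have hc : (0 : ℝ) < c := by exact_mod_cast h.pos ⟨0, hR⟩
  obtain ⟨w, hw⟩ : ∃ w : Fin 4 → Fin (4 * B) → ℝ, w = fun k i =>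
    if (finProdFinEquiv.symm i).1 = k then 3 / (4 * (B : ℝ)) else -1 / (4 * B) := ⟨_, rfl⟩
  have ws : ∀ (f : ℝ → ℝ) k, ∑ i, f (w k i) = B * f (3 / (4 * B)) + 3 * B * f (-1 / (4 * B)) := by
    intro f k
    rw [← finProdFinEquiv.sum_comp, Fintype.sum_prod_type, hw]
    fin_cases k <;> simp only [Equiv.symm_apply_apply, Fin.zero_eta, Fin.isValue, sum_const, card_univ, Fintype.card_fin, nsmul_eq_mul, Fin.sum_univ_four, ↓ reduceIte, one_ne_zero, Fin.reduceEq, Fin.mk_one, zero_ne_one, Fin.reduceFinMk] <;> ring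
  have w0 : ∀ k, ∑ i, w k i = 0 := fun k => (ws id k).trans (by simp only [id]; field_simp; ring)
  have w2 : ∀ k, ∑ i, w k i ^ 2 ≤ 1 / B := fun k => (ws (· ^ 2) k).le.trans (by
    field_simp
    norm_num)
  have key : ∀ e, (∑ s, if s = 0 then 0 else emp x e s * ∏ a ∈ A, max (emp x e (s * a) - δ) 0) ≤
      ∑ k, Fintype.card F / δ ^ 2 *
        ∑ v ∈ univ.erase (0 : F), (∑ i, if x e i = v then w k i else 0) ^ 2 := by
    intro e
    have hs := emp_mem (x := x) hR e one_ne_zero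
    simp only [one_mul] at hs
    have nn : ∀ k ∈ (univ : Finset (Fin 4)), 0 ≤ Fintype.card F / δ ^ 2 *
        ∑ v ∈ univ.erase (0 : F), (∑ i, if x e i = v then w k i else 0) ^ 2 := fun k _ =>
      mul_nonneg (by positivity) (sum_nonneg fun i _ => sq_nonneg _)
    by_cases bad : ∃ k v, δ < emp x e v ∧ ∀ b, x e (finProdFinEquiv (k, b)) ≠ v
    · obtain ⟨k, v, h1, h3⟩ := bad
      refine le_trans ?_ (single_le_sum nn (mem_univ k))
      have e1 : (∑ i, if x e i = v then w k i else 0) = -emp x e v := by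
        rw [emp, cnt_cast, ← neg_div, ← sum_neg_distrib, sum_div]
        refine sum_congr rfl fun i _ => ?_
        by_cases a : x e i = v
        · rw [if_pos a, if_pos a, hw]
          beta_reduce
          rw [if_neg, Nat.cast_mul, Nat.cast_ofNat]
          rintro rfl
          exact h3 (finProdFinEquiv.symm i).2 (by rw [Prod.mk.eta, Equiv.apply_symm_apply]; exact a)
        · simp [a]
      have e2 := empC_cs (y := fun v => ∑ i, if x e i = v then w k i else 0)
        (by rw [sum_comm]; simpa only [sum_ite_eq, mem_univ, ↓ reduceIte] using w0 k) v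
      rw [e1, neg_sq] at e2
      refine le_trans (le_of_le_of_eq (sum_le_sum fun s _ => ?_) hs.2) ?_
      · split_ifs
        · exact hs.1 s
        · refine mul_le_of_le_one_right (hs.1 s) (prod_le_one (fun a _ => le_max_right _ _)
            fun a _ => max_le ?_ zero_le_one)
          linarith only [(mem_Icc_of_mem_stdSimplex hs (s * a)).2, hδ]
      · rw [div_mul_eq_mul_div, one_le_div (by positivity)]
        exact (pow_le_pow_left₀ hδ.le h1.le 2).trans e2
    · refine le_trans (sum_eq_zero fun s _ => ?_).le (sum_nonneg nn)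
      split_ifs with s0
      · rfl
      by_contra h1
      push Not at bad
      have h3 : ∀ k, δ < emp x e (s * π k) := fun k => by
        by_contra h4
        exact h1 (by rw [prod_eq_zero (hπ k) (max_eq_right (by linarith only [h4])), mul_zero])
      choose b hb using fun k => bad k _ (h3 k)
      refine hn (fun k => finProdFinEquiv (k, b k)) (fun k l hkl => ?_) ⟨e, s, s0, hb⟩
      rw [Fin.lt_def, finProdFinEquiv_apply_val, finProdFinEquiv_apply_val]
      have := Nat.mul_le_mul_left B (Nat.succ_le_of_lt (Fin.lt_def.1 hkl))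
      have := (b k).2
      simp only [Nat.succ_eq_add_one, mul_add, mul_one] at *
      omega
  rw [Th, div_le_iff₀ hc]
  refine le_trans (le_of_eq_of_le (by congr) (sum_le_sum fun e _ => key e)) ?_
  rw [sum_comm]
  refine (sum_le_sum (g := fun _ => Fintype.card F / δ ^ 2 * (c * (1 / B))) fun k _ => ?_).trans ?_
  · rw [← mul_sum]
    refine mul_le_mul_of_nonneg_left (le_trans ?_ (mul_le_mul_of_nonneg_left (w2 k) hc.le))
      (by positivity)
    convert empC_var h h2 (w0 k)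
  · simp only [sum_const, card_univ, Fintype.card_fin, nsmul_eq_mul]
    refine le_of_eq ?_
    push_cast
    field_simp

end Pool.Agent.MP_337c4e_co.H33

namespace Pool.Agent.MP_337c4e_co.H33

open Finset Matrix Filter Topology

lemma PosFn.nonneg {A : Type} {Q : Set A} {T : (A → ℝ) → ℝ} (h : PosFn Q T) {g : A → ℝ}
    (hg : ∀ z ∈ Q, 0 ≤ g z) : 0 ≤ T g := by
  have h0 := h.smul 0 (fun _ => 1)
  have := h.mono (fun _ => 0 * 1) g (fun z hz => by simpa only [mul_one] using hg z hz)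
  rw [h0] at this
  simpa only [ge_iff_le, zero_mul] using this

lemma PosFn.sub {A : Type} {Q : Set A} {T : (A → ℝ) → ℝ} (h : PosFn Q T) (g g' : A → ℝ) :
    T (fun z => g z - g' z) = T g - T g' := by
  have h1 := h.add g (fun z => (-1) * g' z)
  rw [h.smul] at h1
  have : (fun z => g z - g' z) = fun z => g z + (-1) * g' z := by ext; ring
  rw [this, h1]; ring

lemma UT.restr {E ι κ F : Type} [Field F] {x : E → ι → F} (h : UT x) {f : κ → ι}
    (hf : Function.Injective f) : UT (res x f) := by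
  obtain ⟨u, hu, h⟩ := h
  refine ⟨fun j => u (f j), fun j => hu _, fun e => ?_⟩
  rcases h e with ⟨i, hi⟩ | ⟨s, hs⟩
  · by_cases hr : ∃ j, f j = i
    · obtain ⟨j, rfl⟩ := hr
      exact Or.inl ⟨j, fun k hk => hi _ (hf.ne hk)⟩
    · exact Or.inr ⟨0, funext fun k => by simpa [res] using hi _ fun h => hr ⟨k, h⟩⟩
  · exact Or.inr ⟨s, funext fun k => by simp [res, hs]⟩

variable {F : Type} [Field F] [Fintype F]

lemma loc_ff_nonneg (β : F) {ν : F → ℝ} (h : ν ∈ stdSimplex ℝ F) : 0 ≤ ff β ν :=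
  sum_nonneg fun b _ => mul_nonneg (h.1 b) (sub_nonneg.2 (rho_le ν _))

lemma loc_ff_zero {β : F} {ν : F → ℝ} (h : ν ∈ stdSimplex ℝ F) (h0 : ff β ν = 0) {b : F}
    (hb : 0 < ν b) (a : F) : ν (a + β * (1 - b)) = ν a := by
  have := (sum_eq_zero_iff_of_nonneg fun b _ =>
    mul_nonneg (h.1 b) (sub_nonneg.2 (rho_le ν (β * (1 - b))))).1 h0 b (mem_univ _)
  exact rho_eq (sub_eq_zero.1 ((mul_eq_zero.1 this).resolve_left hb.ne')).symm a

lemma loc_ff_cont (β : F) : Continuous (ff β : (F → ℝ) → ℝ) := by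
  unfold ff rho
  fun_prop

lemma loc_one {ν : F → ℝ} (h : ν ∈ stdSimplex ℝ F) (h0 : ff 1 ν = 0) {b : F} (hb : 0 < ν b) :
    ν 1 = ν b := by
  simpa using loc_ff_zero h h0 hb b

omit [Field F] in
lemma loc_exists {ν : F → ℝ} (h : ν ∈ stdSimplex ℝ F) : ∃ b, 0 < ν b := by
  by_contra hc
  push Not at hc
  have := h.2
  rw [sum_eq_zero fun b _ => le_antisymm (hc b) (h.1 b)] at this
  exact zero_ne_one this

/-- the limit laws are uniform on a subfield -/
lemma loc_field {S : Set (F → ℝ)} (hS : S ⊆ stdSimplex ℝ F) (h1 : ∀ ν ∈ S, ff 1 ν = 0)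
    (h0 : ∀ ν ∈ S, ν 1 = ν 0) (hβ : ∀ ν ∈ S, ∀ β, 0 < ν β → ∀ ν' ∈ S, ff β ν' = 0)
    {ν0 : F → ℝ} (hν0 : ν0 ∈ S) : ∃ K : Subfield F, ∀ ν ∈ S,
      (∀ a, a ∉ K → ν a = 0) ∧ ν 0 * Nat.card K = 1 := by
  classical
  have p0 : ∀ ν ∈ S, 0 < ν 0 := fun ν hν => by
    obtain ⟨b, hb⟩ := loc_exists (hS hν)
    rw [← h0 ν hν, loc_one (hS hν) (h1 ν hν) hb]; exact hb
  have per : ∀ ν ∈ S, ∀ b, 0 < ν b → ∀ a, ν (a + b) = ν a := fun ν hν b hb a => by
    have e1 := loc_ff_zero (hS hν) (h1 ν hν) hb (a + b)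
    have e2 := loc_ff_zero (hS hν) (h1 ν hν) (p0 ν hν) a
    rw [← e1, ← e2]; congr 1; ring
  have mul : ∀ ν ∈ S, ∀ ν' ∈ S, ∀ β b, 0 < ν β → 0 < ν' b → 0 < ν' (β * b) :=
    fun ν hν ν' hν' β b hb hb' => by
      have e1 := loc_ff_zero (hS hν') (h1 ν' hν') hb' 0
      have e2 : 0 < ν' (1 - b) := by
        have := p0 ν' hν'
        rw [← e1] at this; simpa using this
      have e3 := loc_ff_zero (hS hν') (hβ ν hν β hb ν' hν') e2 0
      have := p0 ν' hν'
      rw [← e3] at this; simpa using this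
  have sub : ∀ ν ∈ S, ∀ ν' ∈ S, ∀ β, 0 < ν β → 0 < ν' β := fun ν hν ν' hν' β hb => by
    simpa using mul ν hν ν' hν' β 1 hb (by rw [h0 ν' hν']; exact p0 ν' hν')
  let A : Subring F :=
    { carrier := {a | 0 < ν0 a}
      mul_mem' := fun ha hb => mul ν0 hν0 ν0 hν0 _ _ ha hb
      one_mem' := by change 0 < ν0 1; rw [h0 ν0 hν0]; exact p0 ν0 hν0
      add_mem' := fun {a b} ha hb => by change 0 < ν0 (a + b); rw [per ν0 hν0 b hb]; exact ha
      zero_mem' := p0 ν0 hν0
      neg_mem' := fun {a} ha => by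
        change 0 < ν0 (-a)
        rw [← per ν0 hν0 a ha]; simpa using p0 ν0 hν0 }
  have hinv : ∀ a ∈ A, a⁻¹ ∈ A := fun a ha => by
    by_cases h : a = 0
    · simp [h]
    have e := FiniteField.pow_card_sub_one_eq_one a h
    have h2 : 1 < Fintype.card F := Fintype.one_lt_card
    obtain ⟨m, hm⟩ : ∃ m, Fintype.card F - 1 = m + 1 := ⟨Fintype.card F - 2, by omega⟩
    rw [hm, pow_succ'] at e
    rw [inv_eq_of_mul_eq_one_right e]
    exact A.pow_mem ha m
  refine ⟨A.toSubfield hinv, fun ν hν => ?_⟩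
  have hz : ∀ a, a ∉ A.toSubfield hinv → ν a = 0 := fun a ha =>
    le_antisymm (not_lt.1 fun h => ha (sub ν hν ν0 hν0 a h)) ((hS hν).1 a)
  refine ⟨hz, ?_⟩
  rw [← (hS hν).2, ← sum_subset (subset_univ (univ.filter (· ∈ A.toSubfield hinv)))
    (fun a _ ha => hz a (by simpa using ha)),
    sum_congr rfl (g := fun _ => ν 0) (fun a ha => by
      simpa using per ν hν a (sub ν0 hν0 ν hν a (mem_filter.1 ha).2) 0),
    sum_const, nsmul_eq_mul, mul_comm, Nat.card_eq_fintype_card, Fintype.card_subtype]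

/-- the ultrafilter along which limits are taken -/
noncomputable abbrev UU : Filter ℕ := (hyperfilter ℕ : Filter ℕ)

lemma loc_lim (a : ℝ) : Tendsto (fun B : ℕ => a / ((4 * (B + 1) : ℕ) : ℝ)) UU (𝓝 0) := by
  refine Tendsto.mono_left ?_ Nat.hyperfilter_le_atTop
  exact (tendsto_const_div_atTop_nhds_zero_nat a).comp
    (tendsto_atTop_mono (f := fun B : ℕ => B) (fun B => by omega) tendsto_id)

structure Sq {E : ℕ → Type} [∀ B, Fintype (E B)] (x : ∀ B, E B → Fin (4 * (B + 1)) → F)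
    (c : ℕ → ℕ) : Prop where
  sys : ∀ B, Sys (x B) (c B)
  h2 : ∀ B, Homog (x B) 2
  h3 : ∀ B, Homog (x B) 3
  h4 : ∀ B, Homog (x B) 4

variable {E : ℕ → Type} [∀ B, Fintype (E B)] {x : ∀ B, E B → Fin (4 * (B + 1)) → F} {c : ℕ → ℕ}

variable (x c) in
/-- the limit laws -/
def SS : Set (F → ℝ) := Supp (stdSimplex ℝ F) (fun B => Th (x B) (c B)) UU

lemma Sq.pos (h : Sq x c) (B : ℕ) : PosFn (stdSimplex ℝ F) (Th (x B) (c B)) :=
  th_pos (h.sys B).toSys0 (by omega)

lemma Sq.tend (h : Sq x c) {g : (F → ℝ) → ℝ} (hg : Continuous g) (h0 : ∀ ν ∈ SS x c, g ν = 0) :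
    Tendsto (fun B => Th (x B) (c B) g) UU (𝓝 0) :=
  supp_tendsto (isCompact_stdSimplex ℝ F) h.pos UU hg h0

lemma Sq.zero (h : Sq x c) {g : (F → ℝ) → ℝ} (hg : Continuous g)
    (h0 : ∀ ν ∈ stdSimplex ℝ F, 0 ≤ g ν) {a : ℝ}
    (ha : ∀ᶠ B in UU, Th (x B) (c B) g ≤ a / ((4 * (B + 1) : ℕ) : ℝ)) {ν : F → ℝ}
    (hν : ν ∈ SS x c) : g ν = 0 :=
  hν.2 g hg h0 (squeeze_zero' (Eventually.of_forall fun B => (h.pos B).nonneg h0) ha (loc_lim a))

lemma Sq.pat (h : Sq x c) {ν : F → ℝ} (hν : ν ∈ SS x c) (A : Finset F) (hA : ∀ a ∈ A, 0 < ν a) :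
    ∀ᶠ B in UU, ∀ t : Fin 4 → Fin (4 * (B + 1)), Function.Injective t →
      ∀ π : Fin 4 → F, (∀ a, π a ∈ A) → Pres (res (x B) t) id π := by
  obtain ⟨δ, hδ, hd⟩ : ∃ δ : ℝ, 0 < δ ∧ ∀ a ∈ A, δ < ν a := by
    have := (eventually_all_finset (l := 𝓝[>] (0 : ℝ)) A).2 fun a ha =>
      mem_nhdsWithin_of_mem_nhds (gt_mem_nhds (hA a ha))
    exact (eventually_mem_nhdsWithin.and this).exists
  rcases (hyperfilter ℕ).em (fun B => ∀ π : Fin 4 → F, (∀ a, π a ∈ A) →
    ∃ t, StrictMono t ∧ Pres (x B) t π) with h1 | h1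
  · filter_upwards [h1] with B hB t ht π hπ
    exact (h.h4 B).inj (A : Set F) hB ht hπ
  · exfalso
    have := h.zero (g := fun ν => ∏ a ∈ A, max (ν a - δ) 0) (by fun_prop)
      (fun ν _ => prod_nonneg fun a _ => le_max_right _ _) (a := 16 * Fintype.card F / δ ^ 2) ?_ hν
    · exact (prod_pos fun a ha => lt_max_of_lt_left (sub_pos.2 (hd a ha))).ne' this
    filter_upwards [h1] with B hB
    refine ((th_cube (Nat.succ_pos B) (h.sys B).toSys0 (h.h2 B) A hδ).resolve_left hB).trans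
      (le_of_eq ?_)
    push_cast; field_simp; norm_num

lemma Sq.noratio (h : Sq x c) {P : F → Prop} (hP : ∀ ν ∈ SS x c, ∀ β, ¬ P β → ν β = 0) :
    ∀ᶠ B in UU, ∀ e i j, i < j → x B e i ≠ 0 → P (x B e j / x B e i) := by
  have : ∀ β, ∀ᶠ B in UU, ¬ P β → Th (x B) (c B) (fun ν => ν β) < 1 / (4 * Fintype.card F) := by
    intro β
    by_cases hβ : P β
    · exact Eventually.of_forall fun _ h => absurd hβ h
    have hq : (0 : ℝ) < 1 / (4 * Fintype.card F) := by
      have : (0 : ℝ) < Fintype.card F := by exact_mod_cast Fintype.card_pos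
      positivity
    filter_upwards [(h.tend (g := fun ν => ν β) (by fun_prop) fun ν hν => hP ν hν β hβ).eventually
      (gt_mem_nhds hq)] with B hB _ using hB
  filter_upwards [eventually_all.2 this] with B hB e i j hij hi
  by_contra hc
  exact absurd (th_ratio (h.sys B).toSys0 (h.h2 B) hij ⟨e, hi, (div_mul_cancel₀ _ hi).symm⟩)
    (not_le.2 (hB _ hc))

lemma Sq.case1 (h : Sq x c) (h1 : ∀ ν ∈ SS x c, ∀ a b, a ≠ b → ν a * ν b = 0) :
    ∀ᶠ B in UU, UT (x B) := by
  have e1 := h.noratio (P := fun β => β = 0 ∨ β = 1) fun ν hν β hβ => by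
    push Not at hβ
    have := h.tend (g := fun ν => ν 1 * ν β⁻¹) (by fun_prop) fun ν hν =>
      h1 ν hν _ _ fun e => hβ.2 (inv_eq_one.1 e.symm)
    simp only [← th_swap hβ.1] at this
    exact pow_eq_zero_iff two_ne_zero |>.1
      (hν.2 (fun ν => ν β ^ 2) (by fun_prop) (fun _ _ => sq_nonneg _) this)
  have e2 := (h.tend (g := fun ν => ν 1 * ν 0) (by fun_prop) fun ν hν =>
    h1 ν hν _ _ one_ne_zero).eventually (gt_mem_nhds (show (0 : ℝ) < 1 / 8 by norm_num))
  filter_upwards [e1, e2, (loc_lim 9).eventually (gt_mem_nhds (show (0 : ℝ) < 1 / 2 by norm_num))]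
    with B b1 b2 b3
  by_contra hU
  have key : ∀ e i j, i < j → x B e i ≠ 0 → x B e j ≠ 0 → x B e j = x B e i :=
    fun e i j hij hi hj => (div_eq_one_iff_eq hi).1
      ((b1 e i j hij hi).resolve_left (div_ne_zero hj hi))
  have := th_triple (h.sys B) (h.h3 B) (fun e i j hi hj => by
    rcases lt_trichotomy i j with hij | rfl | hij
    exacts [key e i j hij hi hj, rfl, (key e j i hij hj hi).symm]) hU
  linarith

lemma Sq.case2 (h : Sq x c) {ν0 : F → ℝ} (hν0 : ν0 ∈ SS x c) {a b : F} (ha : a ≠ 0) (hab : a ≠ b)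
    (pa : 0 < ν0 a) (pb : 0 < ν0 b) : ∃ K : Subfield F, ∀ ν ∈ SS x c,
      (∀ a, a ∉ K → ν a = 0) ∧ ν 0 * Nat.card K = 1 := by
  classical
  have hS : SS x c ⊆ stdSimplex ℝ F := fun ν hν => hν.1
  have e0 := h.pat hν0 {a, b} (by simp [pa, pb])
  have m0 : ∀ᶠ B in UU, ∀ t : Fin 4 → Fin (4 * (B + 1)), Function.Injective t →
      Min (res (x B) t) ![1, -1, 0, -0] := by
    filter_upwards [e0] with B hB t ht
    exact min_zero ((h.sys B).toSys0.restr ht) ha (hB t ht _ (by simp))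
  have hff : ∀ β, (∀ᶠ B in UU, ∀ t : Fin 4 → Fin (4 * (B + 1)), Function.Injective t →
      Min (res (x B) t) ![1, -1, β, -β]) → ∀ ν ∈ SS x c, ff β ν = 0 := fun β hβ ν hν => by
    refine h.zero (loc_ff_cont β) (fun ν => loc_ff_nonneg β) (a := 128) ?_ hν
    filter_upwards [m0, hβ] with B b1 b2
    exact th_ff (h.sys B).toSys0 (by omega) β b1 b2
  have h1 : ∀ ν ∈ SS x c, ff 1 ν = 0 := hff 1 (by
    filter_upwards [e0] with B hB t ht
    exact min_one ha hab fun π hπ => hB t ht π (by simpa using hπ))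
  have hle : ∀ ν ∈ SS x c, ν 0 ≤ ν 1 := fun ν hν => by
    rcases ((hS hν).1 0).eq_or_lt with e | e
    · rw [← e]; exact (hS hν).1 1
    · exact (loc_one (hS hν) (h1 ν hν) e).ge
  have h0 : ∀ ν ∈ SS x c, ν 1 = ν 0 := fun ν hν => by
    have t1 := h.tend (g := fun ν => max (ν 0 - ν 1) 0) (by fun_prop) fun ν hν =>
      max_eq_right (sub_nonpos.2 (hle ν hν))
    have t2 : Tendsto (fun B => Th (x B) (c B) (fun ν => ν 1 - ν 0)) UU (𝓝 0) := by
      refine squeeze_zero_norm' ?_ (loc_lim 64)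
      filter_upwards [m0] with B hB
      exact th_diff (h.sys B).toSys0 (by omega) hB
    have t3 := t2.add t1
    simp only [← (h.pos _).add, add_zero] at t3
    have := hν.2 _ (by fun_prop) (fun z _ => by
      have := le_max_left (z 0 - z 1) 0
      linarith) t3
    rw [max_eq_right (sub_nonpos.2 (hle ν hν))] at this
    linarith
  refine loc_field hS h1 h0 (fun ν hν β hβ => hff β ?_) hν0
  obtain ⟨b', hb'⟩ := loc_exists (hS hν)
  have p1 : 0 < ν 1 := by rw [loc_one (hS hν) (h1 ν hν) hb']; exact hb'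
  filter_upwards [h.pat hν {0, 1, β} (by simp only [mem_insert, mem_singleton, forall_eq_or_imp, ← h0 ν hν, p1, forall_eq, hβ, and_self])] with B hB t ht
  exact min_beta fun π hπ => hB t ht π (by simpa only [mem_insert, mem_singleton] using hπ)

lemma Sq.final (h : Sq x c) {K : Subfield F}
    (hK : ∀ ν ∈ SS x c, (∀ a, a ∉ K → ν a = 0) ∧ ν 0 * Nat.card K = 1) (N : ℕ) :
    ∀ᶠ B in UU, ∃ f : Fin N → Fin (4 * (B + 1)), Function.Injective f ∧
      ∃ y : E B → Fin N → K, Over K (res (x B) f) y ∧ PG y (c B) := by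
  classical
  have : Fintype K := Fintype.ofFinite K
  rw [Nat.card_eq_fintype_card] at hK
  set q : ℝ := (Fintype.card K : ℝ) with hq
  have q1 : 1 < q := by rw [hq]; exact_mod_cast Fintype.one_lt_card
  have q0 : 0 < q - 1 := by linarith
  have qN : 0 < q ^ N := by positivity
  set D : ℝ := (q - 1) * q ^ N with hD
  have D0 : 0 < D := mul_pos q0 qN
  set σ0 : ℝ := (q ^ N - 1) * q / D with hσ0
  set σ : ℝ := ((q ^ N - 1) * q + 1) / D with hσ
  have hlt : σ0 < σ := div_lt_div_of_pos_right (lt_add_one _) D0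
  have σp : 0 ≤ σ := by
    have : 1 ≤ q ^ N := one_le_pow₀ q1.le
    exact div_nonneg (by nlinarith) D0.le
  have t1 := h.tend (g := fun ν => ∑ r ∈ range N, ν 0 ^ r - σ0 * 1) (by fun_prop) fun ν hν => by
    have e : ν 0 = q⁻¹ := eq_inv_of_mul_eq_one_left (hK ν hν).2
    rw [e, geom_sum_eq (inv_ne_one.2 q1.ne'), hσ0, hD, inv_pow]
    have : q⁻¹ - 1 ≠ 0 := sub_ne_zero.2 (inv_ne_one.2 q1.ne')
    have : 1 - q ≠ 0 := by linarith only [q1]
    field_simp
    ring
  have t2 : Tendsto (fun B => Th (x B) (c B) (fun ν => ∑ r ∈ range N, ν 0 ^ r - σ0 * 1) +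
      σ * ((N : ℝ) ^ 2 / ((4 * (B + 1) : ℕ) : ℝ))) UU (𝓝 (0 + σ * 0)) :=
    t1.add ((loc_lim _).const_mul σ)
  filter_upwards [h.noratio (P := fun β => β ∈ K) fun ν hν => (hK ν hν).1,
    t2.eventually (gt_mem_nhds (show 0 + σ * 0 < σ - σ0 by linarith only [hlt]))] with B b1 b2
  obtain ⟨y, hy⟩ := exists_over (x := x B) K fun e i j hi => by
    refine ⟨x B e j / x B e i, ?_, (div_mul_cancel₀ _ hi).symm⟩
    rcases lt_trichotomy i j with hij | rfl | hij
    · exact b1 e i j hij hi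
    · rw [div_self hi]; exact K.one_mem
    · by_cases hj : x B e j = 0
      · rw [hj, zero_div]; exact K.zero_mem
      · rw [← inv_div]; exact K.inv_mem (b1 e j i hij hj)
  rw [(h.pos B).sub, (h.pos B).smul, (h.pos B).one] at b2
  have : ¬ ∀ t : Fin N → Fin (4 * (B + 1)), Function.Injective t → σ * c B ≤ W (res (x B) t) :=
    fun hW => by
      have := th_W (h.sys B).toSys0 (by omega) N σp hW
      linarith
  push Not at this
  obtain ⟨t, ht, hW⟩ := this
  refine ⟨t, ht, res y t, hy.restr t, pg_of_W ((hy.sys (h.sys B)).toSys0.restr ht) ?_⟩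
  have eW : W (res y t) = W (res (x B) t) := cnt_congr fun e => by
    simp only [ne_eq, funext_iff, Pi.zero_apply, (hy.restr t).zero_iff]
  rw [eW, Fintype.card_fin, ← hq, mul_assoc, ← hD]
  rw [hσ, div_mul_eq_mul_div, lt_div_iff₀ D0] at hW
  linarith only [hW]

theorem loc (F : Type) [Field F] [Fintype F] (N : ℕ) : ∃ n : ℕ,
    ∀ (E : Type) [Fintype E] (x : E → Fin n → F) (c : ℕ), Sys x c →
      ∃ f : Fin N → Fin n, Function.Injective f ∧ (UT (res x f) ∨
        ∃ (K : Subfield F) (y : E → Fin N → K), Over K (res x f) y ∧ PG y c) := by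
  by_contra hc
  push Not at hc
  choose n hn using fun B => exists_homog F (4 * (B + 1))
  choose E iE x c hx hbad using fun B => hc (n B)
  choose g hg h2 h3 h4 using fun B => hn B (E B) (x B)
  have h : Sq (fun B => res (x B) (g B)) c :=
    ⟨fun B => (hx B).restr (hg B).injective, h2, h3, h4⟩
  by_cases h1 : ∀ ν ∈ SS (fun B => res (x B) (g B)) c, ∀ a b, a ≠ b → ν a * ν b = 0
  · obtain ⟨B, b1, b2⟩ := ((h.case1 h1).and
      (Nat.hyperfilter_le_atTop (eventually_ge_atTop N))).exists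
    have hle : N ≤ 4 * (B + 1) := by omega
    exact (hbad B (g B ∘ Fin.castLE hle) ((hg B).injective.comp (Fin.castLE_injective hle))).1
      (b1.restr (Fin.castLE_injective hle))
  · push Not at h1
    obtain ⟨ν, hν, a, b, hab, h0⟩ := h1
    have pa := (hν.1.1 a).lt_of_ne' (left_ne_zero_of_mul h0)
    have pb := (hν.1.1 b).lt_of_ne' (right_ne_zero_of_mul h0)
    obtain ⟨K, hK⟩ : ∃ K : Subfield F, ∀ ν ∈ SS (fun B => res (x B) (g B)) c,
        (∀ a, a ∉ K → ν a = 0) ∧ ν 0 * Nat.card K = 1 := by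
      by_cases ha : a = 0
      · exact h.case2 hν (fun hb => hab (ha.trans hb.symm)) hab.symm pb pa
      · exact h.case2 hν ha hab pa pb
    obtain ⟨B, f, hf, y, ho, hP⟩ := (h.final hK N).exists
    exact (hbad B (g B ∘ f) ((hg B).injective.comp hf)).2 K y ho hP

end Pool.Agent.MP_337c4e_co.H33
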