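import Pool.Agent.MP_337c4e_co.Mg.H33_RepC
import Pool.Agent.MP_337c4e_co.H33.RDefs

namespace Pool.Agent.MP_337c4e_co.H33

open Finset Matrix

variable {F : Type} [Field F]

section brgA
open Submodule Module
variable {α ι : Type} {M : Matroid α} {x : α → ι → F}

lemma brgA_cl_indep (hE : M.E = Set.univ)
    (hx : ∀ I : Set α, M.Indep I ↔ LinearIndepOn F x I) {I : Set α} (hI : M.Indep I) (e : α) :
    e ∈ M.closure I ↔ x e ∈ span F (x '' I) := by
  rw [hI.mem_closure_iff', hx, linearIndepOn_insert_iff]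
  have hI' := (hx I).1 hI
  constructor
  · rintro ⟨-, h2⟩
    by_contra hns
    exact hns (subset_span ⟨e, h2 ⟨hI', fun h3 => absurd h3 hns⟩, rfl⟩)
  · intro h2
    exact ⟨hE ▸ Set.mem_univ e, fun h3 => h3.2 h2⟩

lemma brgA_span_basis (hE : M.E = Set.univ)
    (hx : ∀ I : Set α, M.Indep I ↔ LinearIndepOn F x I) {I X : Set α} (hI : M.IsBasis I X) :
    span F (x '' I) = span F (x '' X) := by
  apply le_antisymm (span_mono (Set.image_mono hI.subset))
  rw [span_le]
  rintro _ ⟨e, he, rfl⟩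
  exact (brgA_cl_indep hE hx hI.indep e).1 (hI.subset_closure he)

lemma brgA_cl (hE : M.E = Set.univ)
    (hx : ∀ I : Set α, M.Indep I ↔ LinearIndepOn F x I) (X : Set α) (e : α) :
    e ∈ M.closure X ↔ x e ∈ span F (x '' X) := by
  obtain ⟨I, hI⟩ := M.exists_isBasis X (hE ▸ Set.subset_univ X)
  rw [← hI.closure_eq_closure, ← brgA_span_basis hE hx hI, brgA_cl_indep hE hx hI.indep e]

lemma brgA_rk [Fintype α] (hE : M.E = Set.univ)
    (hx : ∀ I : Set α, M.Indep I ↔ LinearIndepOn F x I) (X : Set α) :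
    M.eRk X = (finrank F (span F (x '' X)) : ℕ) := by
  classical
  obtain ⟨I, hI⟩ := M.exists_isBasis X (hE ▸ Set.subset_univ X)
  have : Fintype I := Fintype.ofFinite I
  have h := finrank_span_eq_card (R := F) (b := fun e : I => x e) ((hx I).1 hI.indep)
  rw [← brgA_span_basis hE hx hI, hI.eRk_eq_encard, Set.image_eq_range, h,
    ← Nat.card_eq_fintype_card, Nat.card_coe_set_eq, (Set.toFinite I).cast_ncard_eq]

variable [Fintype ι]

/-- the functional given by a word -/
def brgA_L (l : ι → F) : (ι → F) →ₗ[F] F where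
  toFun v := l ⬝ᵥ v
  map_add' := dotProduct_add l
  map_smul' a v := by simp only [dotProduct_smul, smul_eq_mul, RingHom.id_apply]

lemma brgA_mem {l v : ι → F} : v ∈ LinearMap.ker (brgA_L l) ↔ l ⬝ᵥ v = 0 := Iff.rfl

lemma brgA_sep {W : Submodule F (ι → F)} {v : ι → F} (hv : v ∉ W) :
    ∃ l : ι → F, l ⬝ᵥ v ≠ 0 ∧ ∀ w ∈ W, l ⬝ᵥ w = 0 := by
  classical
  obtain ⟨f, hf, hW⟩ := Submodule.exists_le_ker_of_notMem hv
  have key : ∀ w : ι → F, (fun i => f fun j => if i = j then 1 else 0) ⬝ᵥ w = f w := by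
    intro w
    rw [LinearMap.pi_apply_eq_sum_univ f w]
    simp only [dotProduct, mul_comm, smul_eq_mul]
  exact ⟨_, by rwa [key], fun w hw => by rw [key]; exact hW hw⟩

lemma brgA_one {l : ι → F} (hl : l ≠ 0) : ∃ v : ι → F, l ⬝ᵥ v = 1 := by
  classical
  obtain ⟨i, hi⟩ := Function.ne_iff.1 hl
  exact ⟨Pi.single i (l i)⁻¹, by rw [dotProduct_single]; exact mul_inv_cancel₀ hi⟩

lemma brgA_ker {l : ι → F} (hl : l ≠ 0) :
    finrank F (LinearMap.ker (brgA_L l)) + 1 = finrank F (ι → F) := by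
  apply Module.Dual.finrank_ker_add_one_of_ne_zero
  obtain ⟨v, hv⟩ := brgA_one hl
  intro h0
  have : brgA_L l v = 0 := by rw [h0]; rfl
  exact one_ne_zero (hv.symm.trans this)

lemma brgA_smul {l m : ι → F} (hl : l ≠ 0) (h : ∀ v, l ⬝ᵥ v = 0 → m ⬝ᵥ v = 0) :
    ∃ t : F, m = t • l := by
  classical
  obtain ⟨v, hv⟩ := brgA_one hl
  refine ⟨m ⬝ᵥ v, funext fun i => ?_⟩
  have h1 := h (Pi.single i 1 - l i • v) (by simp only [dotProduct_sub, dotProduct_single, mul_one, dotProduct_smul, hv, smul_eq_mul, sub_self])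
  simp only [dotProduct_sub, dotProduct_single, mul_one, dotProduct_smul, smul_eq_mul] at h1
  rw [Pi.smul_apply, smul_eq_mul, mul_comm]
  exact sub_eq_zero.1 h1

lemma brgA_kill {l : ι → F} {X : Set α} (h : ∀ e ∈ X, l ⬝ᵥ x e = 0) :
    span F (x '' X) ≤ LinearMap.ker (brgA_L l) := by
  rw [span_le]
  rintro _ ⟨e, he, rfl⟩
  exact h e he

lemma brgA_top [Fintype α] (hs : Span x) : span F (x '' Set.univ) = ⊤ := by
  rw [eq_top_iff]
  intro v _
  by_contra hv
  obtain ⟨l, hl, hW⟩ := brgA_sep hv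
  rw [hs l fun e => hW _ (subset_span ⟨e, trivial, rfl⟩)] at hl
  exact hl (zero_dotProduct v)

end brgA

theorem hyp_iff {α ι : Type} [Fintype α] [Fintype ι] {M : Matroid α} (hE : M.E = Set.univ)
    {x : α → ι → F} (hx : ∀ I : Set α, M.Indep I ↔ LinearIndepOn F x I) (hs : Span x)
    (H : Set α) : IsHyperplane M H ↔ H ∈ Hs x := by
  have hR : M.eRank = (Module.finrank F (ι → F) : ℕ) := by
    rw [M.eRank_def, hE, brgA_rk hE hx, brgA_top hs, finrank_top]
  rw [IsHyperplane, Matroid.isFlat_iff_closure_eq, brgA_rk hE hx, hR]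
  constructor
  · rintro ⟨hcl, hrk⟩
    have hrk' : Module.finrank F (Submodule.span F (x '' H)) + 1 = Module.finrank F (ι → F) := by
      exact_mod_cast hrk
    obtain ⟨v, hv⟩ : ∃ v, v ∉ Submodule.span F (x '' H) := by
      by_contra hc
      push Not at hc
      rw [Submodule.eq_top_iff'.2 hc, finrank_top] at hrk'
      omega
    obtain ⟨l, hl, hW⟩ := brgA_sep hv
    have hl0 : l ≠ 0 := by
      rintro rfl
      exact hl (zero_dotProduct v)
    have heq : Submodule.span F (x '' H) = LinearMap.ker (brgA_L l) := by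
      refine Submodule.eq_of_le_of_finrank_eq (fun w hw => hW w hw) ?_
      have := brgA_ker hl0
      omega
    have hH : H = {e | l ⬝ᵥ x e = 0} := by
      ext e
      rw [Set.mem_ofPred_eq, ← brgA_mem, ← heq, ← brgA_cl hE hx, hcl]
    refine ⟨l, ⟨hl0, fun m hm => brgA_smul hl0 fun w hw => ?_⟩, hH⟩
    have h1 : Submodule.span F (x '' H) ≤ LinearMap.ker (brgA_L m) :=
      brgA_kill fun e he => hm e (by rwa [hH] at he)
    exact h1 (heq ▸ hw)
  · rintro ⟨l, ⟨hl0, hm⟩, hH⟩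
    have heq : Submodule.span F (x '' H) = LinearMap.ker (brgA_L l) := by
      refine le_antisymm (brgA_kill fun e he => by rwa [hH] at he) fun w hw => ?_
      by_contra hw'
      obtain ⟨m, hm1, hm2⟩ := brgA_sep hw'
      obtain ⟨t, rfl⟩ := hm m fun e he =>
        hm2 _ (Submodule.subset_span ⟨e, by rw [hH]; exact he, rfl⟩)
      exact hm1 (by rw [smul_dotProduct, brgA_mem.1 hw, smul_zero])
    refine ⟨?_, ?_⟩
    · ext e
      rw [brgA_cl hE hx, heq, brgA_mem]
      rw [hH]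
      rfl
    · rw [heq]
      exact_mod_cast brgA_ker hl0

theorem over_fwd {b v r k lam : ℕ} (h : MatroidalOver F b v r k lam) :
    ∃ (α : Type) (_ : Fintype α) (n : ℕ) (x : α → Fin n → F),
      (∀ i, ∃ e, x e i ≠ 0 ∧ ∀ j, j ≠ i → x e j = 0) ∧ Fintype.card α = v ∧
      Des (Hs x) b k r lam := by
  classical
  obtain ⟨α, _, M, ⟨n, φ, hφ⟩, hE, hv, hb, hk, hr, hl⟩ := h
  obtain ⟨κ, a, ha, hsp, hli⟩ := exists_linearIndependent' F φ
  have : Finite κ := Finite.of_injective a ha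
  obtain ⟨m, ⟨σ⟩⟩ := Finite.exists_equiv_fin κ
  have hli' : LinearIndependent F ((φ ∘ a) ∘ σ.symm) := hli.comp _ σ.symm.injective
  set g := Fintype.linearCombination F ((φ ∘ a) ∘ σ.symm) with hg
  have hginj : Function.Injective g := linearIndependent_iff_injective_fintypeLinearCombination.1 hli'
  have hex : ∀ e, ∃ y, g y = φ e := fun e => by
    rw [← LinearMap.mem_range, hg, Fintype.range_linearCombination,
      σ.symm.surjective.range_comp, hsp]
    exact Submodule.subset_span ⟨e, rfl⟩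
  choose x hx using hex
  have hu : ∀ i, x (a (σ.symm i)) = Pi.single i 1 := fun i => hginj (by
    rw [hx, hg, Fintype.linearCombination_apply_single, one_smul]
    rfl)
  have hI : ∀ I : Set α, M.Indep I ↔ LinearIndepOn F x I := fun I => by
    rw [hφ, ← g.linearIndepOn_iff_of_injOn hginj.injOn, show g ∘ x = φ from funext hx]
  have hs : Span x := fun l hl => funext fun i => by
    have := hl (a (σ.symm i))
    rwa [hu, dotProduct_single_one] at this
  simp only [hyp_iff hE hI hs] at hb hk hr hl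
  refine ⟨α, inferInstance, m, x, fun i => ⟨a (σ.symm i), ?_, fun j hj => ?_⟩, hv, hb, hk, hr, hl⟩
  · simp [hu]
  · simp [hu, hj]

theorem brgB_rank {α V : Type} [Finite α] [AddCommGroup V] [Module F V] {v : α → V} {I : Set α}
    (hI : LinearIndepOn F v I) : Module.finrank F (Submodule.span F (v '' I)) = I.ncard := by
  classical
  have : Fintype I := Fintype.ofFinite I
  have h := finrank_span_eq_card (R := F) (b := fun x : I => v x) hI
  rw [Set.image_eq_range, h, ← Nat.card_eq_fintype_card, Nat.card_coe_set_eq]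

theorem brgB_mat {α V : Type} [Finite α] [AddCommGroup V] [Module F V] (v : α → V) :
    ∃ M : Matroid α, M.E = Set.univ ∧ ∀ I, M.Indep I ↔ LinearIndepOn F v I := by
  refine ⟨(IndepMatroid.ofFinite (Set.toFinite Set.univ) (fun I => LinearIndepOn F v I)
    (linearIndepOn_empty F v) (fun _ _ hJ hIJ => hJ.mono hIJ) (fun I J hI hJ hlt => ?_)
    fun _ _ => Set.subset_univ _).matroid, rfl, fun _ => Iff.rfl⟩
  by_contra hcon
  have hle : Submodule.span F (v '' J) ≤ Submodule.span F (v '' I) := by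
    rw [Submodule.span_le]
    rintro _ ⟨e, he, rfl⟩
    by_cases heI : e ∈ I
    · exact Submodule.subset_span ⟨e, heI, rfl⟩
    · by_contra hns
      exact hcon ⟨e, he, heI, (linearIndepOn_insert heI).2 ⟨hI, hns⟩⟩
  have : FiniteDimensional F (Submodule.span F (v '' I)) :=
    FiniteDimensional.span_of_finite F ((Set.toFinite I).image v)
  have h2 := Submodule.finrank_mono hle
  rw [brgB_rank hI, brgB_rank hJ] at h2
  omega

theorem over_bwd {α ι : Type} [Fintype α] [Fintype ι] {x : α → ι → F} (hs : Span x)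
    {b r k lam : ℕ} (h : Des (Hs x) b k r lam) :
    MatroidalOver F b (Fintype.card α) r k lam := by
  obtain ⟨M, hE, hI⟩ := brgB_mat (F := F) x
  set g := LinearEquiv.funCongrLeft F F (Fintype.equivFin ι).symm
  refine ⟨α, inferInstance, M, ⟨Fintype.card ι, g.toLinearMap ∘ x, fun I => ?_⟩, hE, rfl, ?_⟩
  · rw [hI, g.toLinearMap.linearIndepOn_iff_of_injOn g.injective.injOn]
  · simp only [hyp_iff hE hI hs]
    exact ⟨h.hb, h.hk, h.hr, h.hl⟩

end Pool.Agent.MP_337c4e_co.H33

namespace Pool.Agent.MP_337c4e_co.H33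

open Finset Matrix

variable {E : Type} [Fintype E] {ι : Type} [Fintype ι] [DecidableEq ι] {F : Type} [Field F]
  {x : E → ι → F} {b r k lam : ℕ}

theorem dsgA_cnt {S : Set (Set E)} (h : Des S b k r lam) {e e' : E} (he : e ≠ e') :
    lam + cnt (fun H => H ∈ S ∧ e ∈ H ∧ e' ∉ H) = r ∧
      b + lam = 2 * r + cnt (fun H => H ∈ S ∧ e ∉ H ∧ e' ∉ H) := by
  have h0 : ∀ {e e' : E}, e ≠ e' → lam + cnt (fun H => H ∈ S ∧ e ∈ H ∧ e' ∉ H) = r :=
    fun {e e'} he => by
      rw [← h.hr e, ← h.hl e e' he, ← cnt_eq_ncard, ← cnt_eq_ncard,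
        cnt_split (fun H => H ∈ S ∧ e ∈ H) (e' ∈ ·)]
      simp only [and_assoc]
  have h1 := h0 he
  have h2 := cnt_split (· ∈ S) (e' ∈ ·)
  have h3 := cnt_split (fun H => H ∈ S ∧ e' ∉ H) (e ∈ ·)
  rw [cnt_eq_ncard (· ∈ S), cnt_eq_ncard fun H => H ∈ S ∧ e' ∈ H, h.hr e', Set.ofPred_mem_eq,
    h.hb] at h2
  simp only [and_assoc, and_comm (a := e' ∉ _)] at h3
  omega

omit [DecidableEq ι] in
theorem dsgA_trans {c : ℕ} (h : Sys0 x c) {i j l : ι} (h1 : ∃ e, x e i ≠ 0 ∧ x e j ≠ 0)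
    (h2 : ∃ e, x e j ≠ 0 ∧ x e l ≠ 0) : ∃ e, x e i ≠ 0 ∧ x e l ≠ 0 := by
  by_contra hn
  have a1 : i ≠ j := fun e => hn (e ▸ h2)
  have a2 : l ≠ j := fun e => hn (e ▸ h1)
  have b1 := h.half a1 h1
  have b2 := h.half a2 (h2.imp fun _ => And.symm)
  have b3 := cnt_split (fun e => x e j ≠ 0) (x · i = 0)
  have b4 := cnt_split (fun e => x e l = 0 ∧ x e j ≠ 0) (x · i = 0)
  have b5 : 0 < cnt fun e => (x e l = 0 ∧ x e j ≠ 0) ∧ x e i = 0 :=
    cnt_pos.2 ((h.unit j).imp fun e he => ⟨⟨he.2 l a2, he.1⟩, he.2 i a1⟩)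
  have b6 : cnt (fun e => x e j ≠ 0 ∧ ¬x e i = 0) ≤
      cnt fun e => (x e l = 0 ∧ x e j ≠ 0) ∧ ¬x e i = 0 :=
    cnt_mono fun e he => ⟨⟨by_contra fun h' => hn ⟨e, he.2, h'⟩, he.1⟩, he.2⟩
  rw [h.cnt_ne, cnt_congr fun e => and_comm (b := x e i = 0)] at b3
  omega

omit [DecidableEq ι] in
theorem dsgA_min {c : ℕ} (h : Sys0 x c) {i j : ι} (hn : ¬∃ e, x e i ≠ 0 ∧ x e j ≠ 0) {l : ι → F}
    (hl : Min x l) : l i = 0 ∨ l j = 0 := by
  classical
  obtain ⟨t, ht⟩ := hl.2 (fun a => if ∃ e, x e i ≠ 0 ∧ x e a ≠ 0 then l a else 0) fun e he => by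
    by_cases h1 : ∃ a, x e a ≠ 0 ∧ ∃ e, x e i ≠ 0 ∧ x e a ≠ 0
    · obtain ⟨a, h2, h3⟩ := h1
      refine Eq.trans (sum_congr rfl fun a' _ => ?_) he
      by_cases h4 : x e a' = 0
      · rw [h4, mul_zero, mul_zero]
      · exact congrArg (· * _) (if_pos (dsgA_trans h h3 ⟨e, h2, h4⟩))
    · refine sum_eq_zero fun a _ => ?_
      beta_reduce
      split_ifs with h2
      · rw [not_not.1 fun h3 => h1 ⟨a, h3, h2⟩, mul_zero]
      · rw [zero_mul]
  have h1 := congrFun ht i
  have h2 := congrFun ht j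
  rw [if_pos ((h.unit i).imp fun e he => ⟨he.1, he.1⟩)] at h1
  rw [if_neg hn, eq_comm, Pi.smul_apply, smul_eq_zero] at h2
  exact h2.imp_left fun h2 => by rw [h1, h2, zero_smul, Pi.zero_apply]

theorem sys_of_des (hu : ∀ i, ∃ e, x e i ≠ 0 ∧ ∀ j, j ≠ i → x e j = 0)
    (h : Des (Hs x) b k r lam) (hv : 2 ≤ Fintype.card E) (hb : Fintype.card E < b) :
    Sys x (Fintype.card E - k) ∧ Simple x := by
  have h0 : Sys0 x (Fintype.card E - k) := ⟨hu, fun l hl => by
    have h1 := cnt_add_not fun e => l ⬝ᵥ x e = 0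
    rw [cnt_eq_ncard, h.hk _ ⟨l, hl, rfl⟩] at h1
    exact eq_tsub_of_add_eq ((add_comm _ _).trans h1)⟩
  have h1 : ∀ (e e' : E) (t : F), x e = t • x e' → e = e' := fun e e' t he => by_contra fun hn => by
    have a1 := (dsgA_cnt h (Ne.symm hn)).1
    rw [cnt_eq_zero.2 (by
      rintro _ ⟨⟨l, -, rfl⟩, a2, a3⟩
      exact a3 (show l ⬝ᵥ x e = 0 by rw [he, dotProduct_smul, show l ⬝ᵥ x e' = 0 from a2, smul_zero]))]
      at a1
    have a2 : Hs x ⊆ {∅, Set.univ} := fun H hH => (H.eq_empty_or_nonempty).imp_right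
      fun ⟨a, ha⟩ => Set.eq_univ_of_forall fun a' => by_contra fun ha' => by
        have a3 := (dsgA_cnt h (e := a) (e' := a') fun e => ha' (e ▸ ha)).1
        exact cnt_eq_zero.1 (Nat.add_left_cancel (a3.trans a1.symm)) H ⟨hH, ha, ha'⟩
    have a3 := (Set.ncard_le_ncard a2).trans (Set.ncard_insert_le _ _)
    rw [h.hb, Set.ncard_singleton] at a3
    omega
  refine ⟨⟨h0, fun i j => by_contra fun hn => ?_⟩, fun e he => ?_, h1⟩
  · obtain ⟨e, a1, a2⟩ := hu i
    obtain ⟨e', a3, a4⟩ := hu j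
    have a5 := (dsgA_cnt h (e := e) (e' := e') fun h => hn ⟨e, a1, h ▸ a3⟩).2
    rw [cnt_eq_zero.2 (by
      rintro _ ⟨⟨l, hl, rfl⟩, b1, b2⟩
      refine (dsgA_min h0 hn hl).elim (fun h => b1 (sum_eq_zero fun a _ => ?_))
        fun h => b2 (sum_eq_zero fun a _ => ?_)
      · rcases eq_or_ne a i with rfl | b3
        exacts [by rw [h, zero_mul], by rw [a2 a b3, mul_zero]]
      · rcases eq_or_ne a j with rfl | b3
        exacts [by rw [h, zero_mul], by rw [a4 a b3, mul_zero]])] at a5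
    have a6 : Hs x ⊆ (fun a : E => ({a}ᶜ : Set E)) '' Set.univ := fun H hH => by
      obtain ⟨a, ha⟩ : ∃ a, a ∉ H := by
        obtain ⟨l, hl, rfl⟩ := hH
        exact not_forall.1 fun h => hl.1 (h0.span l h)
      refine ⟨a, trivial, Set.ext fun a' => ⟨fun b1 => by_contra fun b2 => ?_, fun b1 b2 => ha (b2 ▸ b1)⟩⟩
      have b3 := (dsgA_cnt h (e := a') (e' := a) b1).2
      exact cnt_eq_zero.1 (Nat.add_left_cancel (b3.symm.trans a5)) H ⟨hH, b2, ha⟩
    have a7 := (Set.ncard_le_ncard a6).trans (Set.ncard_image_le)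
    rw [h.hb, Set.ncard_univ, Nat.card_eq_fintype_card] at a7
    omega
  · obtain ⟨e', he'⟩ := Fintype.exists_ne_of_one_lt_card hv e
    exact he' (h1 e e' 0 (by rw [he, zero_smul])).symm

theorem Simple.card_le [Fintype F] (h : Simple x) :
    Fintype.card E ≤ Fintype.card F ^ Fintype.card ι := by
  rw [← Fintype.card_fun]
  exact Fintype.card_le_of_injective x fun e e' he => h.2 e e' 1 (by rw [he, one_smul])

theorem Des.unique {S : Set (Set E)} {b' r' k' lam' : ℕ} (h : Des S b k r lam)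
    (h' : Des S b' k' r' lam') (hv : 2 ≤ Fintype.card E) (hb : 0 < b) :
    b = b' ∧ k = k' ∧ r = r' ∧ lam = lam' := by
  obtain ⟨H, hH⟩ := Set.nonempty_of_ncard_ne_zero (h.hb ▸ hb.ne' : S.ncard ≠ 0)
  obtain ⟨e, e', he⟩ := Fintype.exists_pair_of_one_lt_card hv
  exact ⟨h.hb.symm.trans h'.hb, (h.hk H hH).symm.trans (h'.hk H hH), (h.hr e).symm.trans (h'.hr e),
    (h.hl e e' he).symm.trans (h'.hl e e' he)⟩

theorem dsgB_card (A : Finset E) :
    {H : Set E | H.ncard + 2 = Fintype.card E ∧ ∀ a ∈ A, a ∈ H}.ncard =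
      (Fintype.card E - #A).choose 2 := by
  classical
  have hinj : Function.Injective fun P : Finset E => ((P : Set E)ᶜ) :=
    fun P Q h => coe_injective (compl_injective h)
  rw [← card_compl, ← card_powersetCard, ← Set.ncard_coe_finset,
    ← Set.ncard_image_of_injective _ hinj]
  congr 1
  ext H
  have h := Set.ncard_add_ncard_compl H
  rw [Nat.card_eq_fintype_card] at h
  simp only [Set.mem_ofPred_eq, Set.mem_image, mem_coe, mem_powersetCard]
  constructor
  · rintro ⟨h1, h2⟩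
    refine ⟨Hᶜ.toFinset, ⟨fun a ha => mem_compl.2 fun h3 => Set.mem_toFinset.1 ha (h2 a h3), ?_⟩,
      by simp⟩
    rw [← Set.ncard_eq_toFinset_card']
    omega
  · rintro ⟨P, ⟨h1, h2⟩, rfl⟩
    rw [compl_compl, Set.ncard_coe_finset] at h
    exact ⟨by omega, fun a ha h3 => mem_compl.1 (h1 h3) ha⟩

theorem des_complete (hv : 2 ≤ Fintype.card E) :
    Des {H : Set E | H.ncard + 2 = Fintype.card E} ((Fintype.card E).choose 2)
      (Fintype.card E - 2) ((Fintype.card E - 1).choose 2) ((Fintype.card E - 2).choose 2) := by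
  classical
  refine ⟨by simpa only [notMem_empty, IsEmpty.forall_iff, implies_true, and_true, card_empty, tsub_zero] using dsgB_card (∅ : Finset E), fun H hH => ?_,
    fun e => by simpa only [Set.mem_ofPred_eq, mem_singleton, forall_eq, card_singleton] using dsgB_card {e}, fun e e' h => ?_⟩
  · have : H.ncard + 2 = Fintype.card E := hH
    omega
  · simpa only [Set.mem_ofPred_eq, mem_insert, mem_singleton, forall_eq_or_imp, forall_eq, card_pair h] using dsgB_card {e, e'}

theorem dsgB_hs (h1 : ∀ l : ι → F, l ≠ 0 → ∃ e e', e ≠ e' ∧ l ⬝ᵥ x e ≠ 0 ∧ l ⬝ᵥ x e' ≠ 0)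
    (h2 : ∀ e e', e ≠ e' → ∃ w : ι → F, ∀ f, w ⬝ᵥ x f ≠ 0 ↔ f = e ∨ f = e') :
    Hs x = {H : Set E | H.ncard + 2 = Fintype.card E} := by
  ext H
  have h := Set.ncard_add_ncard_compl H
  rw [Nat.card_eq_fintype_card] at h
  constructor
  · rintro ⟨l, hl, rfl⟩
    obtain ⟨e, e', hne, he, he'⟩ := h1 l hl.1
    obtain ⟨w, hw⟩ := h2 e e' hne
    obtain ⟨t, rfl⟩ := hl.2 w fun f hf => by
      by_contra h3
      rcases (hw f).1 h3 with rfl | rfl
      exacts [he hf, he' hf]
    have ht : t ≠ 0 := fun h3 => (hw e).2 (.inl rfl) (by simp only [h3, zero_smul, zero_dotProduct])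
    have h3 : {f | l ⬝ᵥ x f = 0}ᶜ = {e, e'} := Set.ext fun f => by simpa only [Set.mem_compl_iff, Set.mem_ofPred_eq, Set.mem_insert_iff, Set.mem_singleton_iff, smul_dotProduct, smul_eq_mul, ne_eq, mul_eq_zero, ht, false_or] using hw f
    rw [h3, Set.ncard_pair hne] at h
    exact h
  · intro hH
    have hH' : H.ncard + 2 = Fintype.card E := hH
    obtain ⟨e, e', hne, h3⟩ := Set.ncard_eq_two.1 (show Hᶜ.ncard = 2 by omega)
    obtain ⟨w, hw⟩ := h2 e e' hne
    have he := (hw e).2 (.inl rfl)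
    refine ⟨w, ⟨fun h4 => he (by simp only [h4, zero_dotProduct]), fun m hm => ⟨m ⬝ᵥ x e / w ⬝ᵥ x e, ?_⟩⟩, ?_⟩
    · by_contra h4
      have h5 : ∀ f, (m - (m ⬝ᵥ x e / w ⬝ᵥ x e) • w) ⬝ᵥ x f ≠ 0 → f = e' := fun f hf => by
        rw [sub_dotProduct, smul_dotProduct, smul_eq_mul] at hf
        by_cases h6 : w ⬝ᵥ x f = 0
        · simp only [hm f h6, h6, mul_zero, sub_self, ne_eq, not_true_eq_false] at hf
        · refine ((hw f).1 h6).resolve_left ?_
          rintro rfl
          simp only [div_mul_cancel₀ _ he, sub_self, ne_eq, not_true_eq_false] at hf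
      obtain ⟨f, f', hf, h6, h7⟩ := h1 _ (sub_ne_zero.2 h4)
      exact hf ((h5 f h6).trans (h5 f' h7).symm)
    · refine compl_injective (h3.trans (Set.ext fun f => ?_))
      simpa using (hw f).symm

theorem hs_ut (hu : ∀ i, ∃ e, x e i ≠ 0 ∧ ∀ j, j ≠ i → x e j = 0)
    (hi : ∀ i j, ∃ e, x e i ≠ 0 ∧ x e j ≠ 0) (hU : UT x) (hS : Simple x)
    (hN : 2 ≤ Fintype.card ι) : Hs x = {H : Set E | H.ncard + 2 = Fintype.card E} := by
  choose ε h1 h2 using hu
  obtain ⟨u, hu, hU⟩ := hU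
  have : Nontrivial ι := Fintype.one_lt_card_iff_nontrivial.1 hN
  obtain ⟨e0, s, hs, h0⟩ : ∃ (e0 : E) (s : F), s ≠ 0 ∧ x e0 = s • u := by
    obtain ⟨i, j, hij⟩ := exists_pair_ne ι
    obtain ⟨e, h3, h4⟩ := hi i j
    rcases hU e with ⟨k, hk⟩ | ⟨s, hs⟩
    · exact absurd ((not_not.1 (mt (hk i) h3)).trans (not_not.1 (mt (hk j) h4)).symm) hij
    · exact ⟨e, s, fun h => h3 (by simp [hs, h]), hs⟩
  have h3 : ∀ i, x e0 i ≠ 0 := fun i => by simp [h0, hs, hu i]
  have h4 : ∀ e, e = e0 ∨ ∃ i, e = ε i := fun e => by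
    rcases hU e with ⟨k, hk⟩ | ⟨t, ht⟩
    · refine .inr ⟨k, hS.2 _ _ (x e k / x (ε k) k) (funext fun j => ?_)⟩
      by_cases hj : j = k
      · simp [hj, div_mul_cancel₀ _ (h1 k)]
      · simp [hk j hj, h2 k j hj]
    · exact .inl (hS.2 _ _ (t / s) (by rw [ht, h0, smul_smul, div_mul_cancel₀ _ hs]))
  have h5 : ∀ i, e0 ≠ ε i := fun i h => by
    obtain ⟨j, hj⟩ := exists_ne i
    exact h3 j (h ▸ h2 i j hj)
  have h6 : ∀ i j, ε i = ε j ↔ i = j := fun i j =>
    ⟨fun h => not_not.1 fun h7 => h1 i (h ▸ h2 j i h7), congrArg ε⟩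
  have h7 : ∀ i j, x (ε i) j = 0 ↔ i ≠ j := fun i j =>
    ⟨fun h h' => h1 i (h' ▸ h), fun h => h2 i j h.symm⟩
  have h8 : ∀ (l : ι → F) i, l ⬝ᵥ x (ε i) = l i * x (ε i) i := fun l i =>
    sum_eq_single i (fun j _ hj => by simp [h2 i j hj]) (by simp)
  have h9 : ∀ i, ∃ w : ι → F, ∀ f, w ⬝ᵥ x f ≠ 0 ↔ f = e0 ∨ f = ε i := fun i =>
    ⟨Pi.single i 1, fun f => by
      rcases h4 f with rfl | ⟨j, rfl⟩
      · simp [h3]
      · simp [h6, h7, (h5 j).symm]⟩
  refine dsgB_hs (fun l hl => ?_) fun e e' hne => ?_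
  · obtain ⟨i, hi⟩ := Function.ne_iff.1 hl
    have hi' : l i ≠ 0 := hi
    by_cases h : ∃ j, j ≠ i ∧ l j ≠ 0
    · obtain ⟨j, hj, hj'⟩ := h
      exact ⟨ε j, ε i, mt (h6 j i).1 hj, by simp [h8, hj', h1], by simp [h8, hi', h1]⟩
    · refine ⟨e0, ε i, h5 i, ?_, by simp [h8, hi', h1]⟩
      rw [dotProduct, sum_eq_single i (fun j _ hj => by simp [not_not.1 (not_and.1
        (not_exists.1 h j) hj)]) (by simp)]
      exact mul_ne_zero hi' (h3 i)
  · rcases h4 e with rfl | ⟨i, rfl⟩ <;> rcases h4 e' with rfl | ⟨j, rfl⟩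
    · exact absurd rfl hne
    · exact h9 j
    · simpa only [or_comm] using h9 i
    · have hij : i ≠ j := fun h => hne (congrArg ε h)
      refine ⟨Pi.single i (u j) - Pi.single j (u i), fun f => ?_⟩
      rcases h4 f with rfl | ⟨k, rfl⟩
      · simp [h0, h5, mul_comm]
      · by_cases hk : k = i
        · simp [hk, h2 i j hij.symm, hu, h1]
        · by_cases hk' : k = j
          · simp [hk', h2 j i hij, hu, h1]
          · simp [h6, hk, hk', (h7 k i).2 hk, (h7 k j).2 hk']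

theorem ut_model (F : Type) [Field F] {v : ℕ} (hv : 3 ≤ v) :
    ∃ (E : Type) (_ : Fintype E) (n : ℕ) (x : E → Fin n → F), Fintype.card E = v ∧ Span x ∧
      Hs x = {H : Set E | H.ncard + 2 = Fintype.card E} := by
  have : Nontrivial (Fin (v - 1)) := Fin.nontrivial_iff_two_le.2 (by omega)
  refine ⟨Option (Fin (v - 1)), inferInstance, v - 1, fun e => e.elim 1 fun i => Pi.single i 1,
    by simp only [Fintype.card_option, Fintype.card_fin]; omega, fun l hl => funext fun i => by simpa using hl (some i),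
    hs_ut (fun i => ⟨some i, by simp, fun j hj => by simp [hj]⟩) (fun i j => ⟨none, by simp⟩)
      ⟨1, by simp, fun e => ?_⟩ ⟨fun e => ?_, fun e e' t h => ?_⟩ (by simp only [Fintype.card_fin]; omega)⟩
  · rcases e with _ | i
    · exact .inr ⟨1, by simp⟩
    · exact .inl ⟨i, fun j hj => by simp [hj]⟩
  · rcases e with _ | i <;> simp
  · rcases e with _ | i <;> rcases e' with _ | j
    · rfl
    · obtain ⟨k, hk⟩ := exists_ne j
      simpa [hk] using congrFun h k
    · obtain ⟨k, hk⟩ := exists_ne i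
      have h1 := congrFun h i
      have h2 := congrFun h k
      simp [hk] at h1 h2
      exact absurd (h1.trans h2.symm) one_ne_zero
    · by_contra h1
      have h2 : i ≠ j := fun h3 => h1 (congrArg some h3)
      simpa [h2] using congrFun h i

end Pool.Agent.MP_337c4e_co.H33

namespace Pool.Agent.MP_337c4e_co.H33

open Finset Matrix

variable {E : Type} [Fintype E] {ι : Type} [Fintype ι] [DecidableEq ι] {K : Type} [Field K]
  [Fintype K] {x : E → ι → K} {c : ℕ} {g : ι → K}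

theorem par_mul {y : ι → K} (hy : y ≠ 0) : cnt (fun l : ι → K => ∃ t : K, l = t • y) =
    Fintype.card K := by
  classical
  rw [cnt_eq, ← card_univ, ← card_image_of_injective univ (smul_left_injective K hy)]
  congr 1; ext l; simp only [mem_filter, mem_univ, true_and, mem_image, eq_comm]

theorem par_one (p : (ι → K) → Prop) (h0 : p 0) : cnt (fun l => p l ∧ l ≠ 0) + 1 = cnt p := by
  classical
  rw [cnt_split p (fun l => l ≠ 0)]
  congr 1
  rw [cnt_eq, eq_comm, card_eq_one]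
  refine ⟨0, ?_⟩
  ext l
  simp only [mem_filter, mem_univ, true_and, not_not, mem_singleton]
  exact ⟨fun h => h.2, fun h => ⟨h ▸ h0, h⟩⟩

omit [Field K] in
theorem par_all : cnt (fun _ : ι → K => True) = Fintype.card K ^ Fintype.card ι := by
  classical
  rw [cnt_eq, filter_true, card_univ, Fintype.card_fun]

omit [Fintype E] [DecidableEq ι] [Fintype K] in
theorem par_min {l : ι → K} (h : Min x l) {t : K} (ht : t ≠ 0) : Min x (t • l) := by
  refine ⟨smul_ne_zero ht h.1, fun m hm => ?_⟩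
  obtain ⟨s, rfl⟩ := h.2 m fun e he => hm e (by rw [smul_dotProduct, he, smul_zero])
  exact ⟨s / t, by rw [smul_smul, div_mul_cancel₀ _ ht]⟩

theorem hs_count (x : E → ι → K) (P : Set E → Prop) :
    {H | H ∈ Hs x ∧ P H}.ncard * (Fintype.card K - 1) =
      cnt (fun l : ι → K => Min x l ∧ P {e | l ⬝ᵥ x e = 0}) := by
  classical
  rw [cnt_fiber _ (fun l : ι → K => {e | l ⬝ᵥ x e = 0}), ← cnt_eq_ncard, cnt_eq, card_filter,
    sum_mul]
  refine sum_congr rfl fun H _ => ?_
  split_ifs with hH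
  · obtain ⟨⟨l0, hl0, rfl⟩, hP⟩ := hH
    have h1 := par_one (fun l : ι → K => ∃ t : K, l = t • l0) ⟨0, (zero_smul _ _).symm⟩
    rw [par_mul hl0.1] at h1
    rw [one_mul, ← h1, Nat.add_sub_cancel]
    refine cnt_congr fun l => ⟨?_, ?_⟩
    · rintro ⟨⟨t, rfl⟩, hne⟩
      have ht : t ≠ 0 := fun h => hne (by rw [h, zero_smul])
      have : {e | (t • l0) ⬝ᵥ x e = 0} = {e | l0 ⬝ᵥ x e = 0} := by
        ext e; simp only [smul_dotProduct, smul_eq_mul, mul_eq_zero, ht, false_or, Set.mem_ofPred_eq]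
      exact ⟨⟨par_min hl0 ht, this ▸ hP⟩, this⟩
    · rintro ⟨⟨hl, -⟩, hZ⟩
      exact ⟨hl0.2 l fun e he => (Set.ext_iff.1 hZ e).2 he, hl.1⟩
  · rw [zero_mul, eq_comm, cnt_eq_zero]
    rintro l ⟨⟨hl, hP⟩, rfl⟩
    exact hH ⟨⟨l, hl, rfl⟩, hP⟩

omit [Fintype E] [DecidableEq ι] [Fintype K] in
theorem par_ne (hs : Span x) (hN : 1 ≤ Fintype.card ι) : Nonempty E := by
  by_contra h
  obtain ⟨i⟩ := Fintype.card_pos_iff.1 hN
  exact one_ne_zero (congrFun (hs (fun _ => 1) fun e => (h ⟨e⟩).elim) i)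

omit [Fintype ι] [DecidableEq ι] [Fintype K] in
theorem par_mult (hS : Simple x) (e : E) : mult x (x e) = 1 := by
  classical
  rw [mult, cnt_eq, card_eq_one]
  refine ⟨e, ?_⟩
  ext e'
  simp only [mem_filter, mem_univ, true_and, mem_singleton]
  exact ⟨fun ⟨t, _, h⟩ => hS.2 _ _ t h, fun h => ⟨1, one_ne_zero, by rw [h, one_smul]⟩⟩

omit [Fintype ι] [DecidableEq ι] [Fintype K] in
theorem par_W (hS : Simple x) : W x = Fintype.card E := by
  classical
  rw [W, cnt_eq, filter_true_of_mem fun e _ => hS.1 e, card_univ]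

theorem pg_par (hs : Span x) (h : PG x c) (hS : Simple x) (hN : 1 ≤ Fintype.card ι) :
    (Hs x).ncard = Fintype.card E := by
  obtain ⟨e⟩ := par_ne hs hN
  have h1 := h.mult_eq (hS.1 e)
  have h2 := h.W_eq
  have h3 := hs_count x fun _ => True
  have h4 := par_one (fun _ : ι → K => True) trivial
  have h5 : cnt (fun l : ι → K => Min x l ∧ True) = cnt (fun l : ι → K => True ∧ l ≠ 0) :=
    cnt_congr fun l => ⟨fun a => ⟨trivial, a.1.1⟩, fun a =>
      ⟨hs.min_of_wt (fun m hm => (h m hm).ge) a.2 (h l a.2), trivial⟩⟩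
  rw [par_mult hS, one_mul] at h1
  rw [par_W hS] at h2
  rw [par_all, ← h5, ← h3] at h4
  simp only [and_true, Set.ofPred_mem_eq] at h4
  have hq : 1 < Fintype.card K := Fintype.one_lt_card
  have hq' : (1 : ℝ) < Fintype.card K := by exact_mod_cast hq
  have h1' : (Fintype.card K : ℝ) ^ Fintype.card ι = c * Fintype.card K := by exact_mod_cast h1
  have h4' : ((Hs x).ncard : ℝ) * (Fintype.card K - 1) + 1 =
      (Fintype.card K : ℝ) ^ Fintype.card ι := by
    have := congrArg (Nat.cast : ℕ → ℝ) h4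
    push_cast [Nat.cast_sub hq.le] at this
    exact this
  have hp : (0 : ℝ) < (Fintype.card K - 1) * (Fintype.card K : ℝ) ^ Fintype.card ι :=
    mul_pos (sub_pos.2 hq') (pow_pos (by linarith only [hq']) _)
  have : ((Hs x).ncard : ℝ) = Fintype.card E := by
    refine mul_right_cancel₀ hp.ne' ?_
    linear_combination (-1) * h2 + (Fintype.card K : ℝ) ^ Fintype.card ι * h4' +
      ((Fintype.card K : ℝ) ^ Fintype.card ι - 1) * h1'
  exact_mod_cast this

theorem ag_des (hs : Span x) (h : AGw x c g) (hg : g ≠ 0) (hS : Simple x) {n : ℕ} (hn : 1 ≤ n)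
    (hN : Fintype.card ι = n + 1) :
    Fintype.card E = Fintype.card K ^ n ∧
      Des (Hs x) (Fintype.card K * ∑ i ∈ range n, Fintype.card K ^ i) (Fintype.card K ^ (n - 1))
        (∑ i ∈ range n, Fintype.card K ^ i) (∑ i ∈ range (n - 1), Fintype.card K ^ i) := by
  obtain ⟨e0⟩ := par_ne hs (by omega)
  obtain ⟨n, rfl⟩ : ∃ m, n = m + 1 := ⟨n - 1, by omega⟩
  have h1 := h.mult_eq hg (by omega) (h.1 e0 (hS.1 e0))
  have h2 := h.W_eq hg (by omega)
  have hall := par_all (ι := ι) (K := K)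
  have hd := fun e => card_dot (hS.1 e) 0
  have hd2 := fun e e' (hne : e ≠ e') =>
    card_dot2 (hS.1 e) (fun t ht => hne (hS.2 e' e t ht).symm) 0 0
  have hcount := hs_count x
  have hmul := par_mul hg
  rw [par_mult hS, hN] at h1
  rw [par_W hS] at h2
  rw [hN] at hall hd hd2
  obtain ⟨p, hp⟩ : ∃ p, Fintype.card K = p + 1 :=
    ⟨Fintype.card K - 1, by have := Fintype.card_pos (α := K); omega⟩
  have hp0 : 0 < p := by have := Fintype.one_lt_card (α := K); omega
  rw [hp] at h1 h2 hall hd hd2 hcount hmul ⊢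
  have hpr : (0 : ℝ) < p := by exact_mod_cast hp0
  have hc : c = p * (p + 1) ^ n := by
    have : (c : ℝ) = p * (p + 1) ^ n := by
      refine mul_right_cancel₀ (show ((p : ℝ) + 1) ^ 2 ≠ 0 by positivity) ?_
      push_cast at h1
      linear_combination (-1) * h1
    exact_mod_cast this
  have hv : Fintype.card E = (p + 1) ^ (n + 1) := by
    have : (Fintype.card E : ℝ) = (p + 1) ^ (n + 1) := by
      refine mul_right_cancel₀ hpr.ne' ?_
      rw [hc] at h2
      push_cast at h2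
      linear_combination h2
    exact_mod_cast this
  have hmin : ∀ l, Min x l ↔ ¬ ∃ t : K, l = t • g := by
    intro l
    constructor
    · rintro hl ⟨t, rfl⟩
      have ht : t ≠ 0 := fun h0 => hl.1 (by rw [h0, zero_smul])
      have h3 : cnt (fun _ : ι → K => True) ≤ cnt (fun m : ι → K => ∃ s : K, m = s • t • g) :=
        cnt_mono fun m _ => hl.2 m fun e he => by
          rw [smul_dotProduct, smul_eq_mul, mul_eq_zero] at he
          exact ((h.1 e (hS.1 e)) (he.resolve_left ht)).elim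
      rw [par_mul hl.1, hall, hp] at h3
      have := Nat.pow_lt_pow_right (show 1 < p + 1 by omega) (show 1 < n + 1 + 1 by omega)
      rw [pow_one] at this
      omega
    · intro hl
      refine hs.min_of_wt (c := c) (fun m hm => ?_) (fun h0 => hl ⟨0, by rw [h0, zero_smul]⟩)
        (h.2 l fun t ht => hl ⟨t, ht⟩)
      by_cases hm' : ∃ t : K, m = t • g
      · obtain ⟨t, rfl⟩ := hm'
        rw [h.wt_g (fun h0 => hm (by rw [h0, zero_smul])), par_W hS, hv, hc, pow_succ']
        exact Nat.mul_le_mul_right _ (Nat.le_succ p)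
      · exact (h.2 m fun t ht => hm' ⟨t, ht⟩).ge
  have hz : ∀ (e : E) (R : (ι → K) → Prop), R 0 → (∀ l, R l → l ⬝ᵥ x e = 0) →
      cnt (fun l => Min x l ∧ R l) + 1 = cnt R := by
    intro e R h0 hR
    rw [← par_one R h0]
    congr 1
    refine cnt_congr fun l => ⟨fun a => ⟨a.2, a.1.1⟩, fun a => ⟨(hmin l).2 ?_, a.1⟩⟩
    rintro ⟨t, rfl⟩
    have he := hR _ a.1
    rw [smul_dotProduct, smul_eq_mul, mul_eq_zero] at he
    exact a.2 (by rw [he.resolve_right (h.1 e (hS.1 e)), zero_smul])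
  have g1 := geom_sum_mul_add p (n + 1)
  have g0 := geom_sum_mul_add p n
  simp only [Nat.add_sub_cancel] at hcount ⊢
  refine ⟨hv, ?_, ?_, fun e => ?_, fun e e' hne => ?_⟩
  · have h3 := hcount fun _ => True
    have h4 := cnt_add_not (fun l : ι → K => ∃ t : K, l = t • g)
    have h5 : cnt (fun l => Min x l) = cnt (fun l : ι → K => ¬ ∃ t : K, l = t • g) :=
      cnt_congr hmin
    rw [hmul, Fintype.card_fun, hN, hp] at h4
    simp only [and_true, Set.ofPred_mem_eq] at h3
    refine Nat.eq_of_mul_eq_mul_right hp0 ?_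
    rw [h3, mul_assoc]
    rw [pow_succ' _ (n + 1), ← g1, mul_add] at h4
    omega
  · rintro H ⟨l, hl, rfl⟩
    have h3 := cnt_add_not (fun e => l ⬝ᵥ x e = 0)
    have h4 : wt x l = c := h.2 l fun t ht => (hmin l).1 hl ⟨t, ht⟩
    rw [cnt_eq_ncard, hv, show cnt (fun e => ¬ l ⬝ᵥ x e = 0) = c from h4, hc, pow_succ',
      add_mul, one_mul] at h3
    omega
  · have h3 := hcount fun H => e ∈ H
    have h4 := hz e (fun l => l ⬝ᵥ x e = 0) (zero_dotProduct _) fun _ a => a
    have h5 := Nat.eq_of_mul_eq_mul_right (Nat.succ_pos p) ((hd e).trans (pow_succ _ _))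
    refine Nat.eq_of_mul_eq_mul_right hp0 ?_
    simp only [Set.mem_ofPred_eq] at h3
    omega
  · have h3 := hcount fun H => e ∈ H ∧ e' ∈ H
    have h4 := hz e (fun l => l ⬝ᵥ x e = 0 ∧ l ⬝ᵥ x e' = 0)
      ⟨zero_dotProduct _, zero_dotProduct _⟩ fun _ a => a.1
    have h5 := Nat.eq_of_mul_eq_mul_right (pow_pos (Nat.succ_pos p) 2)
      ((hd2 e e' hne).trans (pow_add _ n 2))
    refine Nat.eq_of_mul_eq_mul_right hp0 ?_
    simp only [Set.mem_ofPred_eq] at h3
    omega

theorem ag_model (K : Type) [Field K] [Fintype K] (n : ℕ) :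
    ∃ (x : (Fin n → K) → Option (Fin n) → K) (c : ℕ) (g : Option (Fin n) → K),
      Span x ∧ AGw x c g ∧ g ≠ 0 ∧ Simple x := by
  have key : ∀ (l : Option (Fin n) → K) (e : Fin n → K),
      l ⬝ᵥ (fun o => Option.elim o 1 e) = l none + e ⬝ᵥ fun i => l (some i) := by
    intro l e
    simp only [dotProduct, Fintype.sum_option, Option.elim_none, mul_comm, one_mul, Option.elim_some]
  refine ⟨fun e o => Option.elim o 1 e,
    Fintype.card K ^ n - Fintype.card K ^ n / Fintype.card K, Pi.single none 1,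
    fun l hl => ?_, ⟨fun e _ => ?_, fun l hl => ?_⟩, ?_, fun e h => ?_, fun e e' t h => ?_⟩
  · have h0 : l none = 0 := by simpa only [key, zero_dotProduct, add_zero] using hl 0
    funext o
    cases o with
    | none => exact h0
    | some i => simpa only [Pi.zero_apply, key, h0, single_dotProduct, one_mul, zero_add] using hl (Pi.single i 1)
  · simp only [single_dotProduct, Option.elim_none, mul_one, ne_eq, one_ne_zero, not_false_eq_true]
  · have ha : (fun i => l (some i)) ≠ 0 := fun h0 => hl (l none) (by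
      funext o
      cases o with
      | none => simp
      | some i => simpa using congrFun h0 i)
    have h1 := card_dot ha (-l none)
    have h2 := cnt_add_not (fun e : Fin n → K => (e ⬝ᵥ fun i => l (some i)) = -l none)
    have h3 : wt (fun (e : Fin n → K) o => Option.elim o 1 e) l =
        cnt (fun e : Fin n → K => ¬ (e ⬝ᵥ fun i => l (some i)) = -l none) :=
      cnt_congr fun e => by rw [key, ne_eq, add_comm, add_eq_zero_iff_eq_neg]
    rw [Fintype.card_fun, Fintype.card_fin] at h2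
    rw [Fintype.card_fin] at h1
    rw [h3, ← h1, Nat.mul_div_cancel _ Fintype.card_pos]
    omega
  · intro h0
    simpa using congrFun h0 none
  · simpa using congrFun h none
  · have ht : t = 1 := by simpa [eq_comm] using congrFun h none
    funext i
    simpa [ht] using congrFun h (some i)

end Pool.Agent.MP_337c4e_co.H33

namespace Pool.Agent.MP_337c4e_co.H33

open Finset Matrix

theorem structure_thm (F : Type) [Field F] [Fintype F] : ∃ n0 : ℕ,
    ∀ (E : Type) [Fintype E] (n : ℕ) (x : E → Fin n → F) (c : ℕ), n0 ≤ n → Sys x c →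
      UT x ∨ ∃ (K : Subfield F) (z : E → Fin n → K), Over K x z ∧ (PG z c ∨ AG z c) := by
  classical
  obtain ⟨n0, h0⟩ := loc F (2000 * Fintype.card F ^ 10 + 6)
  refine ⟨n0, fun E _ n x c hn hx => ?_⟩
  obtain ⟨f, hf, h⟩ := h0 E (res x (Fin.castLE hn)) c (hx.restr (Fin.castLE_injective hn))
  have hf' : Function.Injective (Fin.castLE hn ∘ f) := (Fin.castLE_injective hn).comp hf
  rcases h with h | ⟨K, y, ho, hP⟩
  · exact Or.inl (ut_all hx (by omega) hf' h)
  · have : Fintype K := Fintype.ofFinite K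
    obtain ⟨z, hz, hzy⟩ := phase1 hx (by omega) hf' ho hP
    have hK : Fintype.card K ≤ Fintype.card F := Fintype.card_le_of_injective _ Subtype.val_injective
    have hK' : Fintype.card K ^ 10 ≤ Fintype.card F ^ 10 := Nat.pow_le_pow_left hK 10
    exact Or.inr ⟨K, z, hz, phase2 (hz.sys hx) (by omega) hf' (hzy ▸ hP)⟩

theorem main (F : Type) [Field F] [Finite F] : ∃ v0 : ℕ, ∀ b v r k lam : ℕ, v0 ≤ v → v < b →
    (MatroidalOver F b v r k lam ↔
      (∃ (K : Subfield F) (n : ℕ), 2 ≤ n ∧ v = Nat.card K ^ n ∧ k = Nat.card K ^ (n - 1) ∧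
        r = ∑ i ∈ Finset.range n, Nat.card K ^ i ∧
        lam = ∑ i ∈ Finset.range (n - 1), Nat.card K ^ i ∧ b = Nat.card K * r) ∨
      (k + 2 = v ∧ b = v.choose 2 ∧ r = (v - 1).choose 2 ∧ lam = (v - 2).choose 2)) := by
  classical
  have : Fintype F := Fintype.ofFinite F
  obtain ⟨n0, h0⟩ := structure_thm F
  refine ⟨Fintype.card F ^ (n0 + 3) + 3, fun b v r k lam hv hb => ⟨fun h => ?_, fun h => ?_⟩⟩
  · obtain ⟨E, _, n, x, hu, rfl, hd⟩ := over_fwd h
    obtain ⟨hx, hS⟩ := sys_of_des hu hd (by omega) hb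
    have hn : n0 + 3 ≤ n := by
      by_contra hc
      have h1 := hS.card_le
      rw [Fintype.card_fin] at h1
      have h2 : Fintype.card F ^ n ≤ Fintype.card F ^ (n0 + 3) :=
        Nat.pow_le_pow_right Fintype.card_pos (by omega)
      omega
    rcases h0 E n x _ (by omega) hx with hU | ⟨K, z, ho, hz⟩
    · right
      have h1 := hs_ut hu hx.inter hU hS (by rw [Fintype.card_fin]; omega)
      have h2 := des_complete (E := E) (by omega)
      rw [← h1] at h2
      obtain ⟨e1, e2, e3, e4⟩ := hd.unique h2 (by omega) (by omega)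
      exact ⟨by omega, e1, e3, e4⟩
    · have : Fintype K := Fintype.ofFinite K
      have hz0 := ho.sys hx
      rw [ho.hs] at hd
      rcases hz with hP | ⟨g, hA⟩
      · have := pg_par hz0.span hP (ho.simple hS) (by rw [Fintype.card_fin]; omega)
        have := hd.hb
        omega
      · left
        have hg : g ≠ 0 := fun h => hA.ne hz0.toSys0 ⟨0, by omega⟩ (by rw [h]; rfl)
        obtain ⟨e0, h2⟩ := ag_des hz0.span hA hg (ho.simple hS) (n := n - 1) (by omega)
          (by rw [Fintype.card_fin]; omega)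
        obtain ⟨e1, e2, e3, e4⟩ := hd.unique h2 (by omega) (by omega)
        refine ⟨K, n - 1, by omega, ?_⟩
        rw [Nat.card_eq_fintype_card]
        exact ⟨e0, e2, e3, e4, by rw [e1, e3]⟩
  · rcases h with ⟨K, n, hn, rfl, rfl, rfl, rfl, rfl⟩ | ⟨h1, rfl, rfl, rfl⟩
    · have : Fintype K := Fintype.ofFinite K
      obtain ⟨y, c, g, hs, hA, hg, hS⟩ := ag_model K n
      obtain ⟨e0, hd⟩ := ag_des hs hA hg hS (n := n) (by omega) (by simp only [Fintype.card_option, Fintype.card_fin, Nat.add_left_cancel_iff])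
      have ho := over_map (F := F) y
      rw [← ho.hs] at hd
      have := over_bwd (ho.span hs) hd
      rw [e0] at this
      rw [Nat.card_eq_fintype_card]
      exact this
    · obtain ⟨E, _, n, x, hE, hs, hx⟩ := ut_model F (v := v) (by omega)
      have h2 := des_complete (E := E) (by omega)
      rw [← hx] at h2
      have := over_bwd hs h2
      rw [hE] at this
      have hk : k = v - 2 := by omega
      rw [hk]
      exact this

end Pool.Agent.MP_337c4e_co.H33
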